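import Pool.Agent.Lib_helper44.AQ.G3

/-! Module G, part 4: the nonlinear Liouville theorems. -/

namespace Pool.Agent.Lib44.EN

open AQ Set Filter Topology Function

lemma abs_two_mul_le {p q L : ℝ} (h : p ^ 2 + q ^ 2 ≤ L) : |2 * (p * q)| ≤ L := by
  have n1 := sq_nonneg (p + q)
  have n2 := sq_nonneg (p - q)
  rw [abs_le]
  constructor <;> nlinarith only [h, n1, n2]

lemma abs_mul_le' {p q L : ℝ} (h : p ^ 2 + q ^ 2 ≤ L) : |p * q| ≤ L := by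
  have n1 := abs_two_mul_le h
  rw [abs_mul, abs_two] at n1
  have := abs_nonneg (p * q)
  linarith

lemma abs_cross_le {a b c d L : ℝ} (h : a ^ 2 + b ^ 2 + c ^ 2 + d ^ 2 ≤ L) :
    |a * d + b * c| ≤ L := by
  have n1 := sq_nonneg (a + d)
  have n2 := sq_nonneg (a - d)
  have n3 := sq_nonneg (b + c)
  have n4 := sq_nonneg (b - c)
  have n5 := sq_nonneg a
  have n6 := sq_nonneg b
  have n7 := sq_nonneg c
  have n8 := sq_nonneg d
  rw [abs_le]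
  constructor <;> nlinarith only [h, n1, n2, n3, n4, n5, n6, n7, n8]

lemma cs3 {p q r a b d L : ℝ} (hp : |p| ≤ L) (hq : |q| ≤ L) (hr : |r| ≤ L) :
    (p * a + q * b + r * d) ^ 2 ≤ 3 * L ^ 2 * (a ^ 2 + b ^ 2 + d ^ 2) := by
  have p2 : p ^ 2 ≤ L ^ 2 := by rw [← sq_abs p]; exact pow_le_pow_left₀ (abs_nonneg _) hp 2
  have q2 : q ^ 2 ≤ L ^ 2 := by rw [← sq_abs q]; exact pow_le_pow_left₀ (abs_nonneg _) hq 2
  have r2 : r ^ 2 ≤ L ^ 2 := by rw [← sq_abs r]; exact pow_le_pow_left₀ (abs_nonneg _) hr 2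
  have m1 := mul_le_mul_of_nonneg_right p2 (sq_nonneg a)
  have m2 := mul_le_mul_of_nonneg_right q2 (sq_nonneg b)
  have m3 := mul_le_mul_of_nonneg_right r2 (sq_nonneg d)
  have n1 := sq_nonneg (p * a - q * b)
  have n2 := sq_nonneg (p * a - r * d)
  have n3 := sq_nonneg (q * b - r * d)
  have id : (p * a + q * b + r * d) ^ 2 = 3 * (p ^ 2 * a ^ 2 + q ^ 2 * b ^ 2 + r ^ 2 * d ^ 2)
    - ((p * a - q * b) ^ 2 + (p * a - r * d) ^ 2 + (q * b - r * d) ^ 2) := by ring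
  rw [id]
  linarith

/-- values `m(ξ,ξ)`, `m(ξ,η)`, `m(η,η)` control `m` -/
lemma J_nl_aux {w L a b d Λ m11 m12 m22 ξ1 ξ2 η1 η2 : ℝ} (hw : w = ξ1 * η2 - ξ2 * η1)
    (hw0 : w ≠ 0) (hL : L = ξ1 ^ 2 + ξ2 ^ 2 + η1 ^ 2 + η2 ^ 2) (hΛ : 1 ≤ Λ)
    (ha : a = ξ1 ^ 2 * m11 + 2 * (ξ1 * ξ2 * m12) + ξ2 ^ 2 * m22)
    (hb : b = ξ1 * η1 * m11 + (ξ1 * η2 + ξ2 * η1) * m12 + ξ2 * η2 * m22)
    (hd : d = η1 ^ 2 * m11 + 2 * (η1 * η2 * m12) + η2 ^ 2 * m22)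
    (h1 : a ^ 2 ≤ Λ ^ 2 * (-(a * d))) (h2 : d ^ 2 ≤ Λ ^ 2 * (-(a * d))) :
    w ^ 2 / (24 * L ^ 2 * Λ ^ 2) * ((-m11) ^ 2 + (-m12) ^ 2 + m12 ^ 2 + m22 ^ 2)
      ≤ (-m11) * m22 - (-m12) * m12 := by
  have hLpos : 0 < L := by
    rw [hL]
    by_contra hn
    push Not at hn
    have e1 := sq_nonneg ξ1
    have e2 := sq_nonneg ξ2
    have e3 := sq_nonneg η1
    have e4 := sq_nonneg η2
    have z1 : ξ1 = 0 := pow_eq_zero_iff two_ne_zero |>.1 (by linarith)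
    have z2 : ξ2 = 0 := pow_eq_zero_iff two_ne_zero |>.1 (by linarith)
    apply hw0
    rw [hw, z1, z2]; ring
  have hΛ0 : 0 < Λ := by linarith
  have hΛ2 : 1 ≤ Λ ^ 2 := by nlinarith
  -- sum of squares
  have hS : a ^ 2 + b ^ 2 + d ^ 2 ≤ 2 * Λ ^ 2 * (b ^ 2 - a * d) := by
    nlinarith [mul_nonneg (by linarith : 0 ≤ 2 * Λ ^ 2 - 1) (sq_nonneg b)]
  have hdet : b ^ 2 - a * d = w ^ 2 * (m12 ^ 2 - m11 * m22) := by
    rw [ha, hb, hd, hw]; ring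
  -- inversion
  have i11 : w ^ 2 * m11 = η2 ^ 2 * a - 2 * (η2 * ξ2) * b + ξ2 ^ 2 * d := by
    rw [ha, hb, hd, hw]; ring
  have i12 : w ^ 2 * m12 = -(η1 * η2) * a + (ξ1 * η2 + ξ2 * η1) * b - (ξ1 * ξ2) * d := by
    rw [ha, hb, hd, hw]; ring
  have i22 : w ^ 2 * m22 = η1 ^ 2 * a - 2 * (η1 * ξ1) * b + ξ1 ^ 2 * d := by
    rw [ha, hb, hd, hw]; ring
  have e1 := sq_nonneg ξ1
  have e2 := sq_nonneg ξ2
  have e3 := sq_nonneg η1
  have e4 := sq_nonneg η2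
  have s11 : (w ^ 2 * m11) ^ 2 ≤ 3 * L ^ 2 * (a ^ 2 + b ^ 2 + d ^ 2) := by
    have := cs3 (p := η2 ^ 2) (q := -(2 * (η2 * ξ2))) (r := ξ2 ^ 2) (L := L) (a := a) (b := b)
      (d := d)
      (by rw [abs_of_nonneg (sq_nonneg _), hL]; linarith)
      (by rw [abs_neg]; apply abs_two_mul_le; rw [hL]; linarith)
      (by rw [abs_of_nonneg (sq_nonneg _), hL]; linarith)
    rw [i11]
    calc _ = _ := by ring
      _ ≤ _ := this
  have s12 : (w ^ 2 * m12) ^ 2 ≤ 3 * L ^ 2 * (a ^ 2 + b ^ 2 + d ^ 2) := by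
    have := cs3 (p := -(η1 * η2)) (q := ξ1 * η2 + ξ2 * η1) (r := -(ξ1 * ξ2)) (L := L) (a := a)
      (b := b) (d := d)
      (by rw [abs_neg]; apply abs_mul_le'; rw [hL]; linarith)
      (by apply abs_cross_le; rw [hL])
      (by rw [abs_neg]; apply abs_mul_le'; rw [hL]; linarith)
    rw [i12]
    calc _ = _ := by ring
      _ ≤ _ := this
  have s22 : (w ^ 2 * m22) ^ 2 ≤ 3 * L ^ 2 * (a ^ 2 + b ^ 2 + d ^ 2) := by
    have := cs3 (p := η1 ^ 2) (q := -(2 * (η1 * ξ1))) (r := ξ1 ^ 2) (L := L) (a := a) (b := b)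
      (d := d)
      (by rw [abs_of_nonneg (sq_nonneg _), hL]; linarith)
      (by rw [abs_neg]; apply abs_two_mul_le; rw [hL]; linarith)
      (by rw [abs_of_nonneg (sq_nonneg _), hL]; linarith)
    rw [i22]
    calc _ = _ := by ring
      _ ≤ _ := this
  have hw2 : 0 < w ^ 2 := by positivity
  have tot : w ^ 2 * (w ^ 2 * (m11 ^ 2 + 2 * m12 ^ 2 + m22 ^ 2))
      ≤ w ^ 2 * (24 * L ^ 2 * Λ ^ 2 * (m12 ^ 2 - m11 * m22)) := by
    have t1 : w ^ 2 * (w ^ 2 * (m11 ^ 2 + 2 * m12 ^ 2 + m22 ^ 2))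
        ≤ 12 * L ^ 2 * (a ^ 2 + b ^ 2 + d ^ 2) := by
      calc w ^ 2 * (w ^ 2 * (m11 ^ 2 + 2 * m12 ^ 2 + m22 ^ 2))
          = (w ^ 2 * m11) ^ 2 + 2 * (w ^ 2 * m12) ^ 2 + (w ^ 2 * m22) ^ 2 := by ring
        _ ≤ _ := by linarith
    have t2 : 12 * L ^ 2 * (a ^ 2 + b ^ 2 + d ^ 2)
        ≤ 12 * L ^ 2 * (2 * Λ ^ 2 * (b ^ 2 - a * d)) :=
      mul_le_mul_of_nonneg_left hS (by positivity)
    rw [hdet] at t2
    calc _ ≤ _ := t1
      _ ≤ _ := t2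
      _ = _ := by ring
  have tot2 := le_of_mul_le_mul_left tot hw2
  rw [div_mul_eq_mul_div, div_le_iff₀ (by positivity)]
  calc w ^ 2 * ((-m11) ^ 2 + (-m12) ^ 2 + m12 ^ 2 + m22 ^ 2)
      = w ^ 2 * (m11 ^ 2 + 2 * m12 ^ 2 + m22 ^ 2) := by ring
    _ ≤ _ := tot2
    _ = _ := by ring

/-- two solutions of `AB = 1` -/
lemma ad_bound {A B A' B' Λ : ℝ} (hA : 0 < A) (hA' : 0 < A') (h : A * B = 1) (h' : A' * B' = 1)
    (hΛA : A ≤ Λ) (hΛA' : A' ≤ Λ) (hΛB : B ≤ Λ) (hΛB' : B' ≤ Λ) :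
    (A' - A) ^ 2 ≤ Λ ^ 2 * (-((A' - A) * (B' - B))) ∧
    (B' - B) ^ 2 ≤ Λ ^ 2 * (-((A' - A) * (B' - B))) := by
  have hB : 0 < B := by
    by_contra hn
    push Not at hn
    nlinarith
  have hB' : 0 < B' := by
    by_contra hn
    push Not at hn
    nlinarith
  have hΛ : 0 < Λ := hA.trans_le hΛA
  set a := A' - A with ha
  set d := B' - B with hd
  have rel : a * B + A' * d = 0 := by rw [ha, hd]; linear_combination h' - h
  have r1 : -(a * d) * A' = a ^ 2 * B := by linear_combination (-a) * rel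
  have r2 : -(a * d) * B = d ^ 2 * A' := by linear_combination (-d) * rel
  have nn : 0 ≤ -(a * d) := by
    have : 0 ≤ -(a * d) * A' := by rw [r1]; positivity
    exact nonneg_of_mul_nonneg_left this hA'
  have ΛB : 1 ≤ Λ * B := by rw [← h]; exact mul_le_mul_of_nonneg_right hΛA hB.le
  have ΛA' : 1 ≤ Λ * A' := by
    rw [← h', mul_comm A' B']; exact mul_le_mul_of_nonneg_right hΛB' hA'.le
  constructor
  · calc a ^ 2 ≤ a ^ 2 * (Λ * B) := le_mul_of_one_le_right (sq_nonneg _) ΛB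
      _ = Λ * (-(a * d) * A') := by rw [r1]; ring
      _ ≤ Λ * (-(a * d) * Λ) :=
          mul_le_mul_of_nonneg_left (mul_le_mul_of_nonneg_left hΛA' nn) hΛ.le
      _ = _ := by ring
  · calc d ^ 2 ≤ d ^ 2 * (Λ * A') := le_mul_of_one_le_right (sq_nonneg _) ΛA'
      _ = Λ * (-(a * d) * B) := by rw [r2]; ring
      _ ≤ Λ * (-(a * d) * Λ) :=
          mul_le_mul_of_nonneg_left (mul_le_mul_of_nonneg_left hΛB nn) hΛ.le
      _ = _ := by ring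

theorem nl_I {α C : ℝ} {G1 G2 h11 h12 h22 : ℝ × ℝ → ℝ} {I : Set ℝ} (hα0 : 0 < α)
    (hI : I = univ ∨ (I = Ioi 0 ∧ ∀ x y : ℝ × ℝ, 0 < x.2 → 0 < y.2 →
      |h11 x - h11 y| ≤ C * (x.2 ^ α + y.2 ^ α)))
    (hL : LO {z : ℝ × ℝ | z.2 ∈ I} α C G1 G2 h11 h12 h22)
    {M : ℝ} (hM : ∀ x : ℝ × ℝ, x.2 ∈ I → |h11 x| ≤ M ∧ |h12 x| ≤ M ∧ |h22 x| ≤ M)
    {a0 b0 ξ1 ξ2 η1 η2 : ℝ} (hne : ξ1 * η2 - ξ2 * η1 ≠ 0)
    (heq : ∀ x : ℝ × ℝ, x.2 ∈ I →
      0 < a0 + ξ1 ^ 2 * h11 x + 2 * (ξ1 * ξ2 * h12 x) + ξ2 ^ 2 * h22 x ∧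
      (a0 + ξ1 ^ 2 * h11 x + 2 * (ξ1 * ξ2 * h12 x) + ξ2 ^ 2 * h22 x) *
      (b0 + η1 ^ 2 * h11 x + 2 * (η1 * η2 * h12 x) + η2 ^ 2 * h22 x) = 1) :
    ∀ x y : ℝ × ℝ, x.2 ∈ I → y.2 ∈ I → h11 x = h11 y ∧ h12 x = h12 y ∧ h22 x = h22 y := by
  have hIo : IsOpen I := by
    rcases hI with rfl | ⟨rfl, -⟩
    · exact isOpen_univ
    · exact isOpen_Ioi
  have hIp : IsPreconnected I := by
    rcases hI with rfl | ⟨rfl, -⟩
    · exact isPreconnected_univ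
    · exact isPreconnected_Ioi
  have h1I : (1 : ℝ) ∈ I := by
    rcases hI with rfl | ⟨rfl, -⟩
    · exact mem_univ _
    · exact mem_Ioi.2 one_pos
  have hC : 0 ≤ C := by
    have := hL.l11 (0, 1) h1I (1, 1) h1I
    have e : dist ((0 : ℝ), (1 : ℝ)) (1, 1) = 1 := by simp [Prod.dist_eq]
    rw [e, Real.one_rpow, mul_one] at this
    exact (abs_nonneg _).trans this
  have hM0 : 0 ≤ M := (abs_nonneg _).trans (hM (0, 1) h1I).1
  have c11 := cont_of_hol hα0 hL.l11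
  have c12 := cont_of_hol hα0 hL.l12
  have c22 := cont_of_hol hα0 hL.l22
  have cG1 := cont_of_taylor hα0 hL.t1
  have cG2 := cont_of_taylor hα0 hL.t2
  have d11 := slice1 hα0 hL.t1
  have d12 := slice2 hα0 hIo hL.t1
  have d21 := slice1 hα0 hL.t2
  have d22 := slice2 hα0 hIo hL.t2
  -- the boundary value
  obtain ⟨k, hk⟩ : ∃ k : ℝ, I = univ ∨ (I = Ioi 0 ∧ ∀ x : ℝ × ℝ, 0 < x.2 →
      |h11 x - k| ≤ C * x.2 ^ α) := by
    rcases hI with h | ⟨h, hb⟩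
    · exact ⟨0, Or.inl h⟩
    · set A : Set ℝ := {r | ∃ x : ℝ × ℝ, 0 < x.2 ∧ r = h11 x - C * x.2 ^ α} with hA
      have hbd : ∀ x : ℝ × ℝ, 0 < x.2 → h11 x + C * x.2 ^ α ∈ upperBounds A := by
        rintro x hx _ ⟨y, hy, rfl⟩
        have := (abs_le.1 (hb x y hx hy)).1
        linarith
      have hAne : A.Nonempty := ⟨_, (0, 1), one_pos, rfl⟩
      refine ⟨sSup A, Or.inr ⟨h, fun x hx => ?_⟩⟩
      have k1 : h11 x - C * x.2 ^ α ≤ sSup A := le_csSup ⟨_, hbd x hx⟩ ⟨x, hx, rfl⟩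
      have k2 : sSup A ≤ h11 x + C * x.2 ^ α := csSup_le hAne (hbd x hx)
      rw [abs_le]
      constructor <;> linarith
  -- bounds for the coefficients
  set L : ℝ := ξ1 ^ 2 + ξ2 ^ 2 + η1 ^ 2 + η2 ^ 2 with hL0
  set Λ : ℝ := 1 + |a0| + |b0| + 2 * L * M with hΛ
  have hLnn : 0 ≤ L := by rw [hL0]; positivity
  have hΛ1 : 1 ≤ Λ := by
    have : 0 ≤ |a0| + |b0| + 2 * L * M := by positivity
    rw [hΛ]; linarith
  have coef : ∀ e p q m1 m2 m3 : ℝ, |e| ≤ |a0| + |b0| → p ^ 2 + q ^ 2 ≤ L → |m1| ≤ M → |m2| ≤ M →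
      |m3| ≤ M → e + p ^ 2 * m1 + 2 * (p * q * m2) + q ^ 2 * m3 ≤ Λ := by
    intro e p q m1 m2 m3 he hpq h1 h2 h3
    have f1 := (abs_le.1 h1).2
    have f3 := (abs_le.1 h3).2
    have f2 := abs_le.1 h2
    have f0 := (le_abs_self e).trans he
    have g1 : p ^ 2 * m1 ≤ p ^ 2 * M := mul_le_mul_of_nonneg_left f1 (sq_nonneg _)
    have g3 : q ^ 2 * m3 ≤ q ^ 2 * M := mul_le_mul_of_nonneg_left f3 (sq_nonneg _)
    have g2 : 2 * (p * q * m2) ≤ (p ^ 2 + q ^ 2) * M := by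
      have : |2 * (p * q * m2)| ≤ (p ^ 2 + q ^ 2) * M := by
        rw [show 2 * (p * q * m2) = (2 * (p * q)) * m2 by ring, abs_mul]
        refine mul_le_mul ?_ h2 (abs_nonneg _) (by positivity)
        exact abs_two_mul_le le_rfl
      exact (le_abs_self _).trans this
    have g4 : 2 * ((p ^ 2 + q ^ 2) * M) ≤ 2 * (L * M) := by
      have := mul_le_mul_of_nonneg_right hpq hM0
      linarith
    rw [hΛ]
    linarith
  -- horizontal differences vanish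
  have hd0 : ∀ s x y : ℝ, y ∈ I → h11 (x + s, y) - h11 (x, y) = 0 ∧
      h12 (x + s, y) - h12 (x, y) = 0 ∧ h22 (x + s, y) - h22 (x, y) = 0 := by
    intro s
    have hP : ∀ x y N : ℝ, y ∈ I → (∀ u, |h11 (u, y) - k| ≤ N) →
        |G1 (x + s, y) - G1 (x, y) - s * k| ≤ N * |s| := by
      intro x y N hy hN
      have := mvt_shift (f := fun u => G1 (u, y) - u * k)
        (f' := fun u => h11 (u, y) - k) (M := N)
        (fun u => by
          have k1 := (d11 u y hy).sub ((hasDerivAt_id u).mul_const k)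
          rw [one_mul] at k1
          exact k1) hN x s
      have e : G1 (x + s, y) - (x + s) * k - (G1 (x, y) - x * k)
          = G1 (x + s, y) - G1 (x, y) - s * k := by ring
      simp only [e] at this
      exact this
    have key := energy_I
      (P := fun x y => -(G1 (x + s, y) - G1 (x, y) - s * k))
      (Q := fun x y => G2 (x + s, y) - G2 (x, y))
      (p1 := fun x y => -(h11 (x + s, y) - h11 (x, y)))
      (p2 := fun x y => -(h12 (x + s, y) - h12 (x, y)))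
      (q1 := fun x y => h12 (x + s, y) - h12 (x, y))
      (q2 := fun x y => h22 (x + s, y) - h22 (x, y))
      (B := (M + |k|) * |s|) (c := (ξ1 * η2 - ξ2 * η1) ^ 2 / (24 * L ^ 2 * Λ ^ 2))
      (K := 2 * M + C * |s|) (α := α) (I := I) hα0
      (by
        have hLpos : 0 < L := by
          rcases eq_or_lt_of_le hLnn with h | h
          · exfalso
            apply hne
            have e1 := sq_nonneg ξ1
            have e2 := sq_nonneg ξ2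
            have e3 := sq_nonneg η1
            have e4 := sq_nonneg η2
            have z1 : ξ1 = 0 := pow_eq_zero_iff two_ne_zero |>.1 (by linarith)
            have z2 : ξ2 = 0 := pow_eq_zero_iff two_ne_zero |>.1 (by linarith)
            rw [z1, z2]; ring
          · exact h
        have : 0 < (ξ1 * η2 - ξ2 * η1) ^ 2 := by positivity
        positivity)
      (by
        rcases hk with h | ⟨h, hbd⟩
        · exact Or.inl h
        · refine Or.inr ⟨h, fun x y hy => ?_⟩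
          have hyI : y ∈ I := by rw [h]; exact hy
          have h1 := hP x y (C * y ^ α) hyI (fun u => hbd (u, y) hy)
          rw [abs_neg]
          have h2 : 0 ≤ y ^ α := Real.rpow_nonneg hy.le _
          have h3 : 0 ≤ 2 * M * y ^ α := by positivity
          linarith)
      (fun x y hy => by
        have k1 := ((((d11 (x + s) y hy).comp_add_const x s).sub (d11 x y hy)).sub_const
          (s * k)).neg
        exact k1)
      (fun x y hy => (((d12 (x + s) y hy).sub (d12 x y hy)).sub_const (s * k)).neg)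
      (fun x y hy => ((d21 (x + s) y hy).comp_add_const x s).sub (d21 x y hy))
      (fun x y hy => (d22 (x + s) y hy).sub (d22 x y hy))
      (((shift_cont cG1 s).sub cG1).sub continuousOn_const).neg
      ((shift_cont cG2 s).sub cG2)
      ((shift_cont c11 s).sub c11).neg ((shift_cont c12 s).sub c12).neg
      ((shift_cont c12 s).sub c12) ((shift_cont c22 s).sub c22)
      (fun x y hy => by
        rw [abs_neg]
        refine hP x y _ hy fun u => ?_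
        have := (hM (u, y) hy).1
        exact (abs_sub _ _).trans (by linarith))
      (fun x y hy => by
        have m1 := hM (x + s, y) hy
        have m2 := hM (x, y) hy
        have : 0 ≤ C * |s| := by positivity
        exact ⟨(abs_sub _ _).trans (by linarith [m1.2.1, m2.2.1]),
          (abs_sub _ _).trans (by linarith [m1.2.2, m2.2.2])⟩)
      (fun x y hy => by
        obtain ⟨p1, e1⟩ := heq (x + s, y) hy
        obtain ⟨p2, e2⟩ := heq (x, y) hy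
        have m1 := hM (x + s, y) hy
        have m2 := hM (x, y) hy
        have na : |a0| ≤ |a0| + |b0| := by have := abs_nonneg b0; linarith
        have nb : |b0| ≤ |a0| + |b0| := by have := abs_nonneg a0; linarith
        have l1 : ξ1 ^ 2 + ξ2 ^ 2 ≤ L := by
          rw [hL0]; have := sq_nonneg η1; have := sq_nonneg η2; linarith
        have l2 : η1 ^ 2 + η2 ^ 2 ≤ L := by
          rw [hL0]; have := sq_nonneg ξ1; have := sq_nonneg ξ2; linarith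
        obtain ⟨q1, q2⟩ := ad_bound p2 p1 e2 e1
          (coef a0 ξ1 ξ2 _ _ _ na l1 m2.1 m2.2.1 m2.2.2)
          (coef a0 ξ1 ξ2 _ _ _ na l1 m1.1 m1.2.1 m1.2.2)
          (coef b0 η1 η2 _ _ _ nb l2 m2.1 m2.2.1 m2.2.2)
          (coef b0 η1 η2 _ _ _ nb l2 m1.1 m1.2.1 m1.2.2)
        refine J_nl_aux rfl hne hL0 hΛ1 ?_ rfl ?_ q1 q2
        · ring
        · ring)
    intro x y hy
    obtain ⟨k1, -, k3, k4⟩ := key x y hy
    exact ⟨neg_eq_zero.1 k1, k3, k4⟩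
  have k1 : ∀ x x' y : ℝ, y ∈ I → h11 (x, y) = h11 (x', y) := fun x x' y hy => by
    have := (hd0 (x - x') x' y hy).1
    rw [add_sub_cancel] at this; linarith
  have k2 : ∀ x x' y : ℝ, y ∈ I → h12 (x, y) = h12 (x', y) := fun x x' y hy => by
    have := (hd0 (x - x') x' y hy).2.1
    rw [add_sub_cancel] at this; linarith
  have k3 : ∀ x x' y : ℝ, y ∈ I → h22 (x, y) = h22 (x', y) := fun x x' y hy => by
    have := (hd0 (x - x') x' y hy).2.2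
    rw [add_sub_cancel] at this; linarith
  intro x y hx hy
  obtain ⟨f1, f2⟩ := const_of_horizontal hα0 hIo hIp hL k1 k2 k3 x y hx hy
  refine ⟨f1, f2, ?_⟩
  obtain ⟨p1, e1⟩ := heq x hx
  obtain ⟨p2, e2⟩ := heq y hy
  rw [f1, f2] at p1 e1
  set A := a0 + ξ1 ^ 2 * h11 y + 2 * (ξ1 * ξ2 * h12 y) + ξ2 ^ 2 * h22 x with hA
  set B := b0 + η1 ^ 2 * h11 y + 2 * (η1 * η2 * h12 y) + η2 ^ 2 * h22 x with hB
  set A' := a0 + ξ1 ^ 2 * h11 y + 2 * (ξ1 * ξ2 * h12 y) + ξ2 ^ 2 * h22 y with hA'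
  set B' := b0 + η1 ^ 2 * h11 y + 2 * (η1 * η2 * h12 y) + η2 ^ 2 * h22 y with hB'
  have hBpos : 0 < B := by
    by_contra hn
    push Not at hn
    nlinarith
  have rel : (h22 y - h22 x) * (ξ2 ^ 2 * B + A' * η2 ^ 2) = 0 := by
    have : A' * B' - A * B = 0 := by rw [e1, e2]; ring
    have e3 : A' * B' - A * B = (h22 y - h22 x) * (ξ2 ^ 2 * B + A' * η2 ^ 2) := by
      rw [hA, hB, hA', hB']; ring
    rw [← e3]; exact this
  rcases mul_eq_zero.1 rel with h | h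
  · linarith
  · exfalso
    have t1 : 0 ≤ ξ2 ^ 2 * B := by positivity
    have t2 : 0 ≤ A' * η2 ^ 2 := by positivity
    have z1 : ξ2 ^ 2 * B = 0 := by linarith
    have z2 : A' * η2 ^ 2 = 0 := by linarith
    have y1 : ξ2 = 0 := by
      rcases mul_eq_zero.1 z1 with h | h
      · exact pow_eq_zero_iff two_ne_zero |>.1 h
      · exact absurd h hBpos.ne'
    have y2 : η2 = 0 := by
      rcases mul_eq_zero.1 z2 with h | h
      · exact absurd h p2.ne'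
      · exact pow_eq_zero_iff two_ne_zero |>.1 h
    apply hne
    rw [y1, y2]; ring

theorem liouville_nl_half {α C : ℝ} {G1 G2 h11 h12 h22 : ℝ × ℝ → ℝ} (hα0 : 0 < α) (_hα1 : α < 1)
    (hL : LO {x : ℝ × ℝ | 0 < x.2} α C G1 G2 h11 h12 h22)
    (hb : ∀ x y : ℝ × ℝ, 0 < x.2 → 0 < y.2 → |h11 x - h11 y| ≤ C * (x.2 ^ α + y.2 ^ α))
    {M : ℝ} (hM : ∀ x : ℝ × ℝ, 0 < x.2 → |h11 x| ≤ M ∧ |h12 x| ≤ M ∧ |h22 x| ≤ M)
    {a0 b0 ξ1 ξ2 η1 η2 : ℝ} (hne : ξ1 * η2 - ξ2 * η1 ≠ 0)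
    (heq : ∀ x : ℝ × ℝ, 0 < x.2 →
      0 < a0 + ξ1 ^ 2 * h11 x + 2 * (ξ1 * ξ2 * h12 x) + ξ2 ^ 2 * h22 x ∧
      (a0 + ξ1 ^ 2 * h11 x + 2 * (ξ1 * ξ2 * h12 x) + ξ2 ^ 2 * h22 x) *
      (b0 + η1 ^ 2 * h11 x + 2 * (η1 * η2 * h12 x) + η2 ^ 2 * h22 x) = 1) :
    ∀ x y : ℝ × ℝ, 0 < x.2 → 0 < y.2 → h11 x = h11 y ∧ h12 x = h12 y ∧ h22 x = h22 y :=
  nl_I (I := Ioi 0) hα0 (Or.inr ⟨rfl, hb⟩) hL hM hne heq

theorem liouville_nl_plane {α C : ℝ} {G1 G2 h11 h12 h22 : ℝ × ℝ → ℝ} (hα0 : 0 < α) (_hα1 : α < 1)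
    (hL : LO univ α C G1 G2 h11 h12 h22)
    {M : ℝ} (hM : ∀ x : ℝ × ℝ, |h11 x| ≤ M ∧ |h12 x| ≤ M ∧ |h22 x| ≤ M)
    {a0 b0 ξ1 ξ2 η1 η2 : ℝ} (hne : ξ1 * η2 - ξ2 * η1 ≠ 0)
    (heq : ∀ x : ℝ × ℝ,
      0 < a0 + ξ1 ^ 2 * h11 x + 2 * (ξ1 * ξ2 * h12 x) + ξ2 ^ 2 * h22 x ∧
      (a0 + ξ1 ^ 2 * h11 x + 2 * (ξ1 * ξ2 * h12 x) + ξ2 ^ 2 * h22 x) *
      (b0 + η1 ^ 2 * h11 x + 2 * (η1 * η2 * h12 x) + η2 ^ 2 * h22 x) = 1) :
    ∀ x y : ℝ × ℝ, h11 x = h11 y ∧ h12 x = h12 y ∧ h22 x = h22 y := by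
  have e : {z : ℝ × ℝ | z.2 ∈ (univ : Set ℝ)} = univ := by ext z; simp
  intro x y
  exact nl_I (I := univ) hα0 (Or.inl rfl) (by rw [e]; exact hL) (fun x _ => hM x) hne
    (fun x _ => heq x) x y (mem_univ _) (mem_univ _)

end Pool.Agent.Lib44.EN
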