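import Pool.Agent.Lib_helper44.AQ.H1
import Pool.Agent.Lib_helper44.AQ.G4

/-! Module H2: no blow-up sequences. -/

namespace Pool.Agent.Lib44.BU

open AP AQ Set Filter Topology

variable {U : Ultrafilter ℕ} {α : ℝ} {u : ℕ → ℝ × ℝ → ℝ} {S ρ N : ℕ → ℝ} {X Y : ℕ → ℝ × ℝ}

theorem bl_lin (h : BU U α u S ρ N X Y) {a11 a12 a22 : ℝ} (ha : 0 < a11)
    (hdet : 0 < a11 * a22 - a12 ^ 2)
    (heq : ∀ x : ℝ × ℝ, (∀ᶠ k in U, X k + ρ k • x ∈ Disc) →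
      Tendsto (fun k => a11 * rs (D1 (D1 (u k))) (X k) (ρ k) (S k * ρ k ^ α) x
        + 2 * (a12 * rs (D1 (D2 (u k))) (X k) (ρ k) (S k * ρ k ^ α) x)
        + a22 * rs (D2 (D2 (u k))) (X k) (ρ k) (S k * ρ k ^ α) x) U (𝓝 0)) : False := by
  obtain ⟨H, T, n1, n2, C, G1, G2, h11, h12, h22, hn, hLO, hH, hmem, hm, x, hx, y, hy, hne⟩ :=
    blowup_limit h
  set b11 : ℝ := a11 * n2 ^ 2 - 2 * (a12 * (n1 * n2)) + a22 * n1 ^ 2 with hb11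
  set b12 : ℝ := a11 * (n1 * n2) + a12 * (n2 ^ 2 - n1 ^ 2) - a22 * (n1 * n2) with hb12
  set b22 : ℝ := a11 * n1 ^ 2 + 2 * (a12 * (n1 * n2)) + a22 * n2 ^ 2 with hb22
  have hpos : 0 < b11 := by
    have e : a11 * b11 = (a11 * n2 - a12 * n1) ^ 2 + (a11 * a22 - a12 ^ 2) * n1 ^ 2 := by
      rw [hb11]; ring
    have e1 : 0 ≤ (a11 * n2 - a12 * n1) ^ 2 := sq_nonneg _
    have e2 : 0 ≤ (a11 * a22 - a12 ^ 2) * n1 ^ 2 := by positivity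
    have e3 : 0 ≤ a11 * b11 := by rw [e]; linarith
    rcases eq_or_lt_of_le e3 with h0 | h0
    · exfalso
      rw [e] at h0
      have f2 : (a11 * a22 - a12 ^ 2) * n1 ^ 2 = 0 := by linarith
      have f1 : (a11 * n2 - a12 * n1) ^ 2 = 0 := by linarith
      have g1 : n1 = 0 := by
        rcases mul_eq_zero.1 f2 with h | h
        · exact absurd h hdet.ne'
        · exact pow_eq_zero_iff two_ne_zero |>.1 h
      have g2 := pow_eq_zero_iff two_ne_zero |>.1 f1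
      rw [g1, mul_zero, sub_zero] at g2
      rcases mul_eq_zero.1 g2 with h | h
      · exact absurd h ha.ne'
      · rw [g1, h] at hn; norm_num at hn
    · exact (pos_iff_pos_of_mul_pos h0).1 ha
  have hdet' : 0 < b11 * b22 - b12 ^ 2 := by
    have e : b11 * b22 - b12 ^ 2 = (a11 * a22 - a12 ^ 2) * (n1 ^ 2 + n2 ^ 2) ^ 2 := by
      rw [hb11, hb12, hb22]; ring
    rw [e, hn]; simpa using hdet
  have heq' : ∀ x ∈ H, b11 * h11 x + 2 * (b12 * h12 x) + b22 * h22 x = 0 := by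
    intro x hx
    obtain ⟨m11, m12, m22, t1, t2, t3, e1, e2, e3⟩ := hm x hx
    have l1 := heq (T x) (hmem x hx)
    have l2 := ((t1.const_mul a11).add ((t2.const_mul a12).const_mul 2)).add (t3.const_mul a22)
    have l3 := tendsto_nhds_unique l2 l1
    rw [e1, e2, e3, hb11, hb12, hb22]
    have key : (a11 * n2 ^ 2 - 2 * (a12 * (n1 * n2)) + a22 * n1 ^ 2)
        * (n2 ^ 2 * m11 - 2 * (n1 * n2 * m12) + n1 ^ 2 * m22)
        + 2 * ((a11 * (n1 * n2) + a12 * (n2 ^ 2 - n1 ^ 2) - a22 * (n1 * n2))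
          * (n1 * n2 * m11 + (n2 ^ 2 - n1 ^ 2) * m12 - n1 * n2 * m22))
        + (a11 * n1 ^ 2 + 2 * (a12 * (n1 * n2)) + a22 * n2 ^ 2)
          * (n1 ^ 2 * m11 + 2 * (n1 * n2 * m12) + n2 ^ 2 * m22)
        = (n1 ^ 2 + n2 ^ 2) ^ 2 * (a11 * m11 + 2 * (a12 * m12) + a22 * m22) := by ring
    rw [key, l3, mul_zero]
  apply hne
  rcases hH with rfl | ⟨rfl, hb⟩
  · exact EN.liouville_lin_plane h.α0 h.α1 hLO hpos hdet' (fun x => heq' x (mem_univ _)) x y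
  · exact EN.liouville_lin_half h.α0 h.α1 hLO hb hpos hdet' heq' x y hx hy

theorem bl_nl (h : BU U α u S ρ N X Y) {M δ a0 b0 ξ1 ξ2 η1 η2 : ℝ} (hδ : 0 < δ)
    (hne : ξ1 * η2 - ξ2 * η1 ≠ 0)
    (hM : ∀ x : ℝ × ℝ, ∀ᶠ k in U, X k + ρ k • x ∈ Disc →
      |rs (D1 (D1 (u k))) (X k) (ρ k) (S k * ρ k ^ α) x| ≤ M ∧
      |rs (D1 (D2 (u k))) (X k) (ρ k) (S k * ρ k ^ α) x| ≤ M ∧
      |rs (D2 (D2 (u k))) (X k) (ρ k) (S k * ρ k ^ α) x| ≤ M)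
    (hpos : ∀ x : ℝ × ℝ, ∀ᶠ k in U, X k + ρ k • x ∈ Disc →
      δ ≤ a0 + ξ1 ^ 2 * rs (D1 (D1 (u k))) (X k) (ρ k) (S k * ρ k ^ α) x
        + 2 * (ξ1 * ξ2 * rs (D1 (D2 (u k))) (X k) (ρ k) (S k * ρ k ^ α) x)
        + ξ2 ^ 2 * rs (D2 (D2 (u k))) (X k) (ρ k) (S k * ρ k ^ α) x)
    (heq : ∀ x : ℝ × ℝ, (∀ᶠ k in U, X k + ρ k • x ∈ Disc) →
      Tendsto (fun k => (a0 + ξ1 ^ 2 * rs (D1 (D1 (u k))) (X k) (ρ k) (S k * ρ k ^ α) x
        + 2 * (ξ1 * ξ2 * rs (D1 (D2 (u k))) (X k) (ρ k) (S k * ρ k ^ α) x)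
        + ξ2 ^ 2 * rs (D2 (D2 (u k))) (X k) (ρ k) (S k * ρ k ^ α) x) *
        (b0 + η1 ^ 2 * rs (D1 (D1 (u k))) (X k) (ρ k) (S k * ρ k ^ α) x
        + 2 * (η1 * η2 * rs (D1 (D2 (u k))) (X k) (ρ k) (S k * ρ k ^ α) x)
        + η2 ^ 2 * rs (D2 (D2 (u k))) (X k) (ρ k) (S k * ρ k ^ α) x)) U (𝓝 1)) : False := by
  obtain ⟨H, T, n1, n2, C, G1, G2, h11, h12, h22, hn, hLO, hH, hmem, hm, x, hx, y, hy, hneq⟩ :=
    blowup_limit h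
  have hn1 : |n1| ≤ 1 := by
    rw [abs_le]; constructor <;> nlinarith [sq_nonneg n1, sq_nonneg n2]
  have hn2 : |n2| ≤ 1 := by
    rw [abs_le]; constructor <;> nlinarith [sq_nonneg n1, sq_nonneg n2]
  -- limits
  have hlim : ∀ x ∈ H, ∃ m11 m12 m22 : ℝ, |m11| ≤ M ∧ |m12| ≤ M ∧ |m22| ≤ M ∧
      δ ≤ a0 + ξ1 ^ 2 * m11 + 2 * (ξ1 * ξ2 * m12) + ξ2 ^ 2 * m22 ∧
      (a0 + ξ1 ^ 2 * m11 + 2 * (ξ1 * ξ2 * m12) + ξ2 ^ 2 * m22) *
      (b0 + η1 ^ 2 * m11 + 2 * (η1 * η2 * m12) + η2 ^ 2 * m22) = 1 ∧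
      h11 x = n2 ^ 2 * m11 - 2 * (n1 * n2 * m12) + n1 ^ 2 * m22 ∧
      h12 x = n1 * n2 * m11 + (n2 ^ 2 - n1 ^ 2) * m12 - n1 * n2 * m22 ∧
      h22 x = n1 ^ 2 * m11 + 2 * (n1 * n2 * m12) + n2 ^ 2 * m22 := by
    intro x hx
    obtain ⟨m11, m12, m22, t1, t2, t3, e1, e2, e3⟩ := hm x hx
    have hb := (hM (T x)).and (hmem x hx)
    have lA := (((tendsto_const_nhds (x := a0)).add (t1.const_mul (ξ1 ^ 2))).add
      ((t2.const_mul (ξ1 * ξ2)).const_mul 2)).add (t3.const_mul (ξ2 ^ 2))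
    have lB := (((tendsto_const_nhds (x := b0)).add (t1.const_mul (η1 ^ 2))).add
      ((t2.const_mul (η1 * η2)).const_mul 2)).add (t3.const_mul (η2 ^ 2))
    refine ⟨m11, m12, m22, ?_, ?_, ?_, ?_, ?_, e1, e2, e3⟩
    · refine le_of_tendsto t1.abs ?_
      filter_upwards [hb] with k hk using (hk.1 hk.2).1
    · refine le_of_tendsto t2.abs ?_
      filter_upwards [hb] with k hk using (hk.1 hk.2).2.1
    · refine le_of_tendsto t3.abs ?_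
      filter_upwards [hb] with k hk using (hk.1 hk.2).2.2
    · refine ge_of_tendsto lA ?_
      filter_upwards [hpos (T x), hmem x hx] with k hk hk2 using hk hk2
    · exact tendsto_nhds_unique (lA.mul lB) (heq (T x) (hmem x hx))
  set ξ1' := -n2 * ξ1 + n1 * ξ2 with hξ1
  set ξ2' := -n1 * ξ1 - n2 * ξ2 with hξ2
  set η1' := -n2 * η1 + n1 * η2 with hη1
  set η2' := -n1 * η1 - n2 * η2 with hη2
  have hne' : ξ1' * η2' - ξ2' * η1' ≠ 0 := by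
    have e : ξ1' * η2' - ξ2' * η1' = (n1 ^ 2 + n2 ^ 2) * (ξ1 * η2 - ξ2 * η1) := by
      rw [hξ1, hξ2, hη1, hη2]; ring
    rw [e, hn, one_mul]; exact hne
  have quad : ∀ p q m11 m12 m22 : ℝ,
      (-n2 * p + n1 * q) ^ 2 * (n2 ^ 2 * m11 - 2 * (n1 * n2 * m12) + n1 ^ 2 * m22)
      + 2 * ((-n2 * p + n1 * q) * (-n1 * p - n2 * q)
        * (n1 * n2 * m11 + (n2 ^ 2 - n1 ^ 2) * m12 - n1 * n2 * m22))
      + (-n1 * p - n2 * q) ^ 2 * (n1 ^ 2 * m11 + 2 * (n1 * n2 * m12) + n2 ^ 2 * m22)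
      = p ^ 2 * m11 + 2 * (p * q * m12) + q ^ 2 * m22 := by
    intro p q m11 m12 m22
    have e : (-n2 * p + n1 * q) ^ 2 * (n2 ^ 2 * m11 - 2 * (n1 * n2 * m12) + n1 ^ 2 * m22)
      + 2 * ((-n2 * p + n1 * q) * (-n1 * p - n2 * q)
        * (n1 * n2 * m11 + (n2 ^ 2 - n1 ^ 2) * m12 - n1 * n2 * m22))
      + (-n1 * p - n2 * q) ^ 2 * (n1 ^ 2 * m11 + 2 * (n1 * n2 * m12) + n2 ^ 2 * m22)
      = (n1 ^ 2 + n2 ^ 2) ^ 2 * (p ^ 2 * m11 + 2 * (p * q * m12) + q ^ 2 * m22) := by ring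
    rw [e, hn]; ring
  have heq' : ∀ x ∈ H,
      0 < a0 + ξ1' ^ 2 * h11 x + 2 * (ξ1' * ξ2' * h12 x) + ξ2' ^ 2 * h22 x ∧
      (a0 + ξ1' ^ 2 * h11 x + 2 * (ξ1' * ξ2' * h12 x) + ξ2' ^ 2 * h22 x) *
      (b0 + η1' ^ 2 * h11 x + 2 * (η1' * η2' * h12 x) + η2' ^ 2 * h22 x) = 1 := by
    intro x hx
    obtain ⟨m11, m12, m22, -, -, -, q1, q2, e1, e2, e3⟩ := hlim x hx
    have qA := quad ξ1 ξ2 m11 m12 m22
    have qB := quad η1 η2 m11 m12 m22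
    have eA : a0 + ξ1' ^ 2 * h11 x + 2 * (ξ1' * ξ2' * h12 x) + ξ2' ^ 2 * h22 x
        = a0 + ξ1 ^ 2 * m11 + 2 * (ξ1 * ξ2 * m12) + ξ2 ^ 2 * m22 := by
      rw [e1, e2, e3, hξ1, hξ2]; linarith
    have eB : b0 + η1' ^ 2 * h11 x + 2 * (η1' * η2' * h12 x) + η2' ^ 2 * h22 x
        = b0 + η1 ^ 2 * m11 + 2 * (η1 * η2 * m12) + η2 ^ 2 * m22 := by
      rw [e1, e2, e3, hη1, hη2]; linarith
    rw [eA, eB]
    exact ⟨hδ.trans_le q1, q2⟩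
  have hM' : ∀ x ∈ H, |h11 x| ≤ 4 * M ∧ |h12 x| ≤ 4 * M ∧ |h22 x| ≤ 4 * M := by
    intro x hx
    obtain ⟨m11, m12, m22, b1, b2, b3, -, -, e1, e2, e3⟩ := hlim x hx
    have hM0 : 0 ≤ M := (abs_nonneg _).trans b1
    have s1 : |n1 ^ 2| ≤ 1 := by rw [abs_pow]; exact pow_le_one₀ (abs_nonneg _) hn1
    have s2 : |n2 ^ 2| ≤ 1 := by rw [abs_pow]; exact pow_le_one₀ (abs_nonneg _) hn2
    have s3 : |n1 * n2| ≤ 1 := by rw [abs_mul]; exact mul_le_one₀ hn1 (abs_nonneg _) hn2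
    have key : ∀ p q r : ℝ, |p| ≤ 1 → |q| ≤ 2 → |r| ≤ 1 →
        |p * m11 + q * m12 + r * m22| ≤ 4 * M := by
      intro p q r hp hq hr
      refine (abs_add_three _ _ _).trans ?_
      rw [abs_mul, abs_mul, abs_mul]
      have t1 := mul_le_mul hp b1 (abs_nonneg _) zero_le_one
      have t2 := mul_le_mul hq b2 (abs_nonneg _) zero_le_two
      have t3 := mul_le_mul hr b3 (abs_nonneg _) zero_le_one
      linarith
    refine ⟨?_, ?_, ?_⟩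
    · have := key (n2 ^ 2) (-(2 * (n1 * n2))) (n1 ^ 2) s2
        (by rw [abs_neg, abs_mul, abs_two]; linarith) s1
      rw [e1]
      convert this using 2; ring
    · have := key (n1 * n2) (n2 ^ 2 - n1 ^ 2) (-(n1 * n2)) s3
        ((abs_sub _ _).trans (by linarith)) (by rw [abs_neg]; exact s3)
      rw [e2]
      convert this using 2; ring
    · have := key (n1 ^ 2) (2 * (n1 * n2)) (n2 ^ 2) s1
        (by rw [abs_mul, abs_two]; linarith) s2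
      rw [e3]
      convert this using 2; ring
  apply hneq
  rcases hH with rfl | ⟨rfl, hb⟩
  · exact EN.liouville_nl_plane h.α0 h.α1 hLO (fun x => hM' x (mem_univ _)) hne'
      (fun x => heq' x (mem_univ _)) x y
  · exact EN.liouville_nl_half h.α0 h.α1 hLO hb hM' hne' heq' x y hx hy

end Pool.Agent.Lib44.BU
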