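import Pool.Agent.Lib_helper42.AQ.Defs

/-! Basic facts used by the blow-up modules. -/

namespace Pool.Agent.Lib44.BU

open AP AQ Set Filter Topology

lemma disc_convex : Convex ℝ Disc := by
  intro x hx y hy a b ha hb hab
  simp only [Disc, Set.mem_ofPred_eq, Prod.fst_add, Prod.snd_add, Prod.smul_fst, Prod.smul_snd,
    smul_eq_mul] at *
  nlinarith [mul_nonneg ha hb, sq_nonneg (x.1 - y.1), sq_nonneg (x.2 - y.2),
    mul_nonneg (mul_nonneg ha hb) (sq_nonneg (x.1 - y.1)),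
    mul_nonneg (mul_nonneg ha hb) (sq_nonneg (x.2 - y.2)), mul_nonneg ha ha, mul_nonneg hb hb]

lemma disc_closed : IsClosed Disc :=
  isClosed_le (by fun_prop) continuous_const

lemma disc_compact : IsCompact Disc := by
  refine Metric.isCompact_of_isClosed_isBounded disc_closed ?_
  refine (Metric.isBounded_closedBall (x := (0 : ℝ × ℝ)) (r := 1)).subset ?_
  intro x hx
  simp only [Disc, Set.mem_ofPred_eq] at hx
  rw [mem_closedBall_zero_iff, Prod.norm_def, max_le_iff, Real.norm_eq_abs, Real.norm_eq_abs,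
    abs_le, abs_le]
  exact ⟨⟨by nlinarith [sq_nonneg x.2], by nlinarith [sq_nonneg x.2]⟩,
    ⟨by nlinarith [sq_nonneg x.1], by nlinarith [sq_nonneg x.1]⟩⟩

lemma abs_fst_sub_le (x y : ℝ × ℝ) : |y.1 - x.1| ≤ dist x y := by
  rw [Prod.dist_eq, Real.dist_eq, Real.dist_eq, abs_sub_comm]
  exact le_max_left _ _

lemma abs_snd_sub_le (x y : ℝ × ℝ) : |y.2 - x.2| ≤ dist x y := by
  rw [Prod.dist_eq, Real.dist_eq, Real.dist_eq, abs_sub_comm y.2]
  exact le_max_right _ _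

/-- first order Taylor estimate -/
lemma taylor1 {f : ℝ × ℝ → ℝ} (hf : ContDiff ℝ 1 f) {p q : ℝ × ℝ} {a b E : ℝ}
    (h1 : ∀ t ∈ Icc (0 : ℝ) 1, |D1 f (p + t • (q - p)) - a| ≤ E)
    (h2 : ∀ t ∈ Icc (0 : ℝ) 1, |D2 f (p + t • (q - p)) - b| ≤ E) :
    |f q - f p - (a * (q.1 - p.1) + b * (q.2 - p.2))| ≤ 2 * E * dist p q := by
  set g : ℝ → ℝ := fun t => f (p + t • (q - p)) - t * (a * (q.1 - p.1) + b * (q.2 - p.2)) with hg
  have hd : ∀ t : ℝ, HasDerivAt g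
      (((q - p).1 * D1 f (p + t • (q - p)) + (q - p).2 * D2 f (p + t • (q - p)))
        - (a * (q.1 - p.1) + b * (q.2 - p.2))) t := by
    intro t
    have e1 := hasDerivAt_line (f := f) (x := p) (e := q - p) (t := t)
      (hf.differentiable (by norm_num) _)
    have e2 := (hasDerivAt_id t).mul_const (a * (q.1 - p.1) + b * (q.2 - p.2))
    have e3 := e1.sub e2
    rw [one_mul] at e3
    exact e3
  have hb : ∀ t ∈ Ico (0 : ℝ) 1, ‖((q - p).1 * D1 f (p + t • (q - p))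
      + (q - p).2 * D2 f (p + t • (q - p))) - (a * (q.1 - p.1) + b * (q.2 - p.2))‖
      ≤ 2 * E * dist p q := by
    intro t ht
    have k1 := h1 t ⟨ht.1, ht.2.le⟩
    have k2 := h2 t ⟨ht.1, ht.2.le⟩
    have e0 : 0 ≤ E := (abs_nonneg _).trans k1
    have e1 := abs_fst_sub_le p q
    have e2 := abs_snd_sub_le p q
    rw [Real.norm_eq_abs]
    have : ((q - p).1 * D1 f (p + t • (q - p))
      + (q - p).2 * D2 f (p + t • (q - p))) - (a * (q.1 - p.1) + b * (q.2 - p.2))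
      = (q.1 - p.1) * (D1 f (p + t • (q - p)) - a) + (q.2 - p.2) * (D2 f (p + t • (q - p)) - b) := by
      simp only [Prod.fst_sub, Prod.snd_sub]; ring
    rw [this]
    refine (abs_add_le _ _).trans ?_
    rw [abs_mul, abs_mul]
    have m1 := mul_le_mul e1 k1 (abs_nonneg _) dist_nonneg
    have m2 := mul_le_mul e2 k2 (abs_nonneg _) dist_nonneg
    linarith
  have := norm_image_sub_le_of_norm_deriv_le_segment_01' (f := g)
    (fun t _ => (hd t).hasDerivWithinAt) hb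
  have e0 : g 0 = f p := by simp [hg]
  have e1 : g 1 = f q - (a * (q.1 - p.1) + b * (q.2 - p.2)) := by simp [hg]
  rw [e0, e1, Real.norm_eq_abs] at this
  have e3 : f q - (a * (q.1 - p.1) + b * (q.2 - p.2)) - f p
    = f q - f p - (a * (q.1 - p.1) + b * (q.2 - p.2)) := by ring
  rwa [e3] at this

lemma exists_ulim {U : Ultrafilter ℕ} {f : ℕ → ℝ} {B : ℝ} (h : ∀ᶠ k in U, |f k| ≤ B) :
    ∃ l, Tendsto f U (𝓝 l) := by
  have h1 : Icc (-B) B ∈ U.map f := by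
    rw [Ultrafilter.mem_map]
    filter_upwards [h] with k hk
    exact abs_le.1 hk
  obtain ⟨l, -, hl⟩ := isCompact_Icc.ultrafilter_le_nhds' (U.map f) h1
  exact ⟨l, hl⟩

lemma exists_ulim_compact {U : Ultrafilter ℕ} {K : Set (ℝ × ℝ)} (hK : IsCompact K)
    {f : ℕ → ℝ × ℝ} (h : ∀ᶠ k in U, f k ∈ K) :
    ∃ l ∈ K, Tendsto f U (𝓝 l) := by
  have h1 : K ∈ U.map f := by
    rw [Ultrafilter.mem_map]
    exact h
  obtain ⟨l, h2, hl⟩ := hK.ultrafilter_le_nhds' (U.map f) h1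
  exact ⟨l, h2, hl⟩

/-- the circle identity: if `u = 0` on the unit circle then `D²u(τ,τ) = Z·Du` -/
lemma circle_id {u : ℝ × ℝ → ℝ} (hu : ContDiff ℝ 2 u)
    (hb : ∀ x : ℝ × ℝ, x.1 ^ 2 + x.2 ^ 2 = 1 → u x = 0) {Z : ℝ × ℝ}
    (hZ : Z.1 ^ 2 + Z.2 ^ 2 = 1) :
    Z.2 ^ 2 * D1 (D1 u) Z - 2 * (Z.1 * Z.2 * D1 (D2 u) Z) + Z.1 ^ 2 * D2 (D2 u) Z
      = Z.1 * D1 u Z + Z.2 * D2 u Z := by
  obtain ⟨θ, hθ1, hθ2⟩ : ∃ θ : ℝ, Real.cos θ = Z.1 ∧ Real.sin θ = Z.2 := by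
    refine ⟨Complex.arg ⟨Z.1, Z.2⟩, ?_, ?_⟩
    · have hn : ‖(⟨Z.1, Z.2⟩ : ℂ)‖ = 1 := by
        rw [Complex.norm_def, Complex.normSq_mk, ← sq, ← sq, hZ, Real.sqrt_one]
      have h0 : (⟨Z.1, Z.2⟩ : ℂ) ≠ 0 := by
        intro h; rw [h] at hn; simp at hn
      rw [Complex.cos_arg h0, hn]; simp
    · have hn : ‖(⟨Z.1, Z.2⟩ : ℂ)‖ = 1 := by
        rw [Complex.norm_def, Complex.normSq_mk, ← sq, ← sq, hZ, Real.sqrt_one]
      rw [Complex.sin_arg, hn]; simp
  have hcd : ContDiff ℝ 2 u := hu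
  have c1 : ContDiff ℝ 1 (D1 u) := cd_D1 (n := 1) (by simpa using hu)
  have c2 : ContDiff ℝ 1 (D2 u) := cd_D2 (n := 1) (by simpa using hu)
  have hγ : ∀ t : ℝ, HasDerivAt (fun t : ℝ => (Real.cos t, Real.sin t)) (-Real.sin t, Real.cos t) t :=
    fun t => (Real.hasDerivAt_cos t).prodMk (Real.hasDerivAt_sin t)
  have hcomp : ∀ (f : ℝ × ℝ → ℝ), ContDiff ℝ 1 f → ∀ t : ℝ,
      HasDerivAt (fun t : ℝ => f (Real.cos t, Real.sin t))
        (-Real.sin t * D1 f (Real.cos t, Real.sin t) + Real.cos t * D2 f (Real.cos t, Real.sin t)) t := by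
    intro f hf t
    have h1 : HasFDerivAt f (fderiv ℝ f (Real.cos t, Real.sin t)) (Real.cos t, Real.sin t) :=
      (hf.differentiable (by norm_num) _).hasFDerivAt
    have h2 := h1.comp_hasDerivAt t (hγ t)
    rw [fderiv_apply_eq] at h2
    exact h2
  -- first derivative vanishes identically
  have e1 : ∀ t : ℝ, -Real.sin t * D1 u (Real.cos t, Real.sin t)
      + Real.cos t * D2 u (Real.cos t, Real.sin t) = 0 := by
    intro t
    have h1 := hcomp u (hcd.of_le (by norm_num)) t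
    have h2 : (fun t : ℝ => u (Real.cos t, Real.sin t)) = fun _ => 0 := by
      funext s
      exact hb _ (Real.cos_sq_add_sin_sq s)
    rw [h2] at h1
    exact h1.unique (hasDerivAt_const t 0)
  have h2 := ((Real.hasDerivAt_sin θ).neg.mul (hcomp _ c1 θ)).add
    ((Real.hasDerivAt_cos θ).mul (hcomp _ c2 θ))
  have h3 : HasDerivAt (fun _ : ℝ => (0 : ℝ)) 0 θ := hasDerivAt_const θ 0
  have h4 := h2.congr_of_eventuallyEq (f₁ := fun _ => (0 : ℝ)) (by
    filter_upwards with t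
    have := e1 t
    simpa using this.symm)
  have h5 := h4.unique h3
  have hc : D2 (D1 u) = D1 (D2 u) := D12_comm_fun hcd
  rw [hc] at h5
  simp only [Pi.neg_apply] at h5
  have hZe : (Real.cos θ, Real.sin θ) = Z := by rw [hθ1, hθ2]
  rw [hZe, hθ1, hθ2] at h5
  linarith

end Pool.Agent.Lib44.BU
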