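import Pool.Agent.Lib_helper44.AQ.Lim

/-! The boundary condition of the blow-up limit. -/

namespace Pool.Agent.Lib44.BU

open AP AQ Set Filter Topology

/-- the quadratic form `D²u(τ,τ)`, `τ = (-n2,n1)` -/
noncomputable def qf (n : ℝ × ℝ) (a b c : ℝ) : ℝ := n.2 ^ 2 * a - 2 * (n.1 * n.2 * b) + n.1 ^ 2 * c

lemma qf_diff {n : ℝ × ℝ} (h1 : |n.1| ≤ 1) (h2 : |n.2| ≤ 1) {a b c a' b' c' E : ℝ}
    (ha : |a - a'| ≤ E) (hb : |b - b'| ≤ E) (hc : |c - c'| ≤ E) :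
    |qf n a b c - qf n a' b' c'| ≤ 4 * E := by
  have e : qf n a b c - qf n a' b' c'
      = n.2 ^ 2 * (a - a') + (-(2 * (n.1 * n.2))) * (b - b') + n.1 ^ 2 * (c - c') := by
    unfold qf; ring
  rw [e]
  refine (abs_add_three _ _ _).trans ?_
  rw [abs_mul, abs_mul, abs_mul]
  have p1 : |n.2 ^ 2| ≤ 1 := by rw [abs_pow]; exact pow_le_one₀ (abs_nonneg _) h2
  have p3 : |n.1 ^ 2| ≤ 1 := by rw [abs_pow]; exact pow_le_one₀ (abs_nonneg _) h1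
  have p2 : |(-(2 * (n.1 * n.2)))| ≤ 2 := by
    rw [abs_neg, abs_mul, abs_mul, abs_two]
    have := mul_le_one₀ h1 (abs_nonneg _) h2
    linarith
  have m1 := mul_le_mul p1 ha (abs_nonneg _) zero_le_one
  have m2 := mul_le_mul p2 hb (abs_nonneg _) zero_le_two
  have m3 := mul_le_mul p3 hc (abs_nonneg _) zero_le_one
  linarith

lemma qf_coef {n n' : ℝ × ℝ} (h1 : |n.1| ≤ 1) (h2 : |n.2| ≤ 1) (h1' : |n'.1| ≤ 1)
    (h2' : |n'.2| ≤ 1) {a b c M : ℝ} (ha : |a| ≤ M) (hb : |b| ≤ M) (hc : |c| ≤ M) :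
    |qf n a b c - qf n' a b c| ≤ 8 * dist n n' * M := by
  have d1 := abs_fst_sub_le n' n
  have d2 := abs_snd_sub_le n' n
  rw [dist_comm n' n] at d1 d2
  have hM : 0 ≤ M := (abs_nonneg _).trans ha
  have hd : 0 ≤ dist n n' := dist_nonneg
  have e : qf n a b c - qf n' a b c
      = ((n.2 - n'.2) * (n.2 + n'.2)) * a
        + (-(2 * ((n.1 - n'.1) * n.2 + n'.1 * (n.2 - n'.2)))) * b
        + ((n.1 - n'.1) * (n.1 + n'.1)) * c := by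
    unfold qf; ring
  rw [e]
  refine (abs_add_three _ _ _).trans ?_
  rw [abs_mul _ a, abs_mul _ b, abs_mul _ c]
  have s1 : |n.1 + n'.1| ≤ 2 := (abs_add_le _ _).trans (by linarith)
  have s2 : |n.2 + n'.2| ≤ 2 := (abs_add_le _ _).trans (by linarith)
  have p1 : |(n.2 - n'.2) * (n.2 + n'.2)| ≤ dist n n' * 2 := by
    rw [abs_mul]; exact mul_le_mul d2 s2 (abs_nonneg _) hd
  have p3 : |(n.1 - n'.1) * (n.1 + n'.1)| ≤ dist n n' * 2 := by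
    rw [abs_mul]; exact mul_le_mul d1 s1 (abs_nonneg _) hd
  have p2 : |(-(2 * ((n.1 - n'.1) * n.2 + n'.1 * (n.2 - n'.2))))| ≤ dist n n' * 4 := by
    rw [abs_neg, abs_mul, abs_two]
    have q1 : |(n.1 - n'.1) * n.2| ≤ dist n n' * 1 := by
      rw [abs_mul]; exact mul_le_mul d1 h2 (abs_nonneg _) hd
    have q2 : |n'.1 * (n.2 - n'.2)| ≤ 1 * dist n n' := by
      rw [abs_mul]; exact mul_le_mul h1' d2 (abs_nonneg _) zero_le_one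
    have := abs_add_le ((n.1 - n'.1) * n.2) (n'.1 * (n.2 - n'.2))
    linarith
  have m1 := mul_le_mul p1 ha (abs_nonneg _) (by positivity)
  have m2 := mul_le_mul p2 hb (abs_nonneg _) (by positivity)
  have m3 := mul_le_mul p3 hc (abs_nonneg _) (by positivity)
  linarith

lemma abs_le_of_disc {x : ℝ × ℝ} (hx : x ∈ Disc) : |x.1| ≤ 1 ∧ |x.2| ≤ 1 := by
  simp only [Disc, Set.mem_ofPred_eq] at hx
  constructor <;> rw [abs_le] <;> constructor <;> nlinarith [sq_nonneg x.1, sq_nonneg x.2]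

lemma mem_disc_of_circle {x : ℝ × ℝ} (hx : x.1 ^ 2 + x.2 ^ 2 = 1) : x ∈ Disc := hx.le

lemma lip_of_bd {f : ℝ × ℝ → ℝ} (hf : ContDiff ℝ 1 f) {N : ℝ} (h1 : Bd N (D1 f)) (h2 : Bd N (D2 f))
    {p q : ℝ × ℝ} (hp : p ∈ Disc) (hq : q ∈ Disc) : |f p - f q| ≤ 2 * N * dist p q := by
  have hm : ∀ t ∈ Icc (0 : ℝ) 1, q + t • (p - q) ∈ Disc := by
    intro t ht
    have := disc_convex hq hp (a := 1 - t) (b := t) (by linarith [ht.2]) ht.1 (by ring)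
    have e : (1 - t) • q + t • p = q + t • (p - q) := by
      rw [sub_smul, one_smul, smul_sub]; abel
    rwa [e] at this
  have := taylor1 hf (p := q) (q := p) (a := 0) (b := 0) (E := N)
    (fun t ht => by rw [sub_zero]; exact h1 _ (hm t ht))
    (fun t ht => by rw [sub_zero]; exact h2 _ (hm t ht))
  rw [zero_mul, zero_mul, add_zero, sub_zero, dist_comm] at this
  exact this

lemma bdry_q {u : ℝ × ℝ → ℝ} (hu : ContDiff ℝ 2 u)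
    (hb : ∀ x : ℝ × ℝ, x.1 ^ 2 + x.2 ^ 2 = 1 → u x = 0) {N : ℝ}
    (hN : Bd N (D1 u) ∧ Bd N (D2 u) ∧ Bd N (D1 (D1 u)) ∧ Bd N (D1 (D2 u)) ∧ Bd N (D2 (D2 u)))
    {X Z Z' : ℝ × ℝ} (hX : X ∈ Disc) (hZ : Z.1 ^ 2 + Z.2 ^ 2 = 1) (hZ' : Z'.1 ^ 2 + Z'.2 ^ 2 = 1) :
    |qf Z (D1 (D1 u) Z - D1 (D1 u) X) (D1 (D2 u) Z - D1 (D2 u) X) (D2 (D2 u) Z - D2 (D2 u) X)
      - qf Z' (D1 (D1 u) Z' - D1 (D1 u) X) (D1 (D2 u) Z' - D1 (D2 u) X)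
        (D2 (D2 u) Z' - D2 (D2 u) X)| ≤ 14 * N * dist Z Z' := by
  obtain ⟨n1, n2, n11, n12, n22⟩ := hN
  have c1 : ContDiff ℝ 1 (D1 u) := cd_D1 (n := 1) (by simpa using hu)
  have c2 : ContDiff ℝ 1 (D2 u) := cd_D2 (n := 1) (by simpa using hu)
  have hc : D2 (D1 u) = D1 (D2 u) := D12_comm_fun hu
  have i1 := circle_id hu hb hZ
  have i2 := circle_id hu hb hZ'
  have mZ := mem_disc_of_circle hZ
  have mZ' := mem_disc_of_circle hZ'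
  obtain ⟨a1, a2⟩ := abs_le_of_disc mZ
  obtain ⟨b1, b2⟩ := abs_le_of_disc mZ'
  have d1 := abs_fst_sub_le Z' Z
  have d2 := abs_snd_sub_le Z' Z
  rw [dist_comm Z' Z] at d1 d2
  have hd : 0 ≤ dist Z Z' := dist_nonneg
  have hN0 : 0 ≤ N := (abs_nonneg _).trans (n1 _ mZ)
  have l1 := lip_of_bd c1 n11 (by rw [hc]; exact n12) mZ mZ'
  have l2 := lip_of_bd c2 n12 n22 mZ mZ'
  have co := qf_coef a1 a2 b1 b2 (n11 X hX) (n12 X hX) (n22 X hX)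
  have e : qf Z (D1 (D1 u) Z - D1 (D1 u) X) (D1 (D2 u) Z - D1 (D2 u) X)
        (D2 (D2 u) Z - D2 (D2 u) X)
      - qf Z' (D1 (D1 u) Z' - D1 (D1 u) X) (D1 (D2 u) Z' - D1 (D2 u) X)
        (D2 (D2 u) Z' - D2 (D2 u) X)
      = ((Z.1 - Z'.1) * D1 u Z + Z'.1 * (D1 u Z - D1 u Z')
        + (Z.2 - Z'.2) * D2 u Z + Z'.2 * (D2 u Z - D2 u Z'))
        - (qf Z (D1 (D1 u) X) (D1 (D2 u) X) (D2 (D2 u) X)
          - qf Z' (D1 (D1 u) X) (D1 (D2 u) X) (D2 (D2 u) X)) := by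
    unfold qf
    linear_combination i1 - i2
  rw [e]
  have f1 : |(Z.1 - Z'.1) * D1 u Z| ≤ dist Z Z' * N := by
    rw [abs_mul]; exact mul_le_mul d1 (n1 _ mZ) (abs_nonneg _) hd
  have f2 : |Z'.1 * (D1 u Z - D1 u Z')| ≤ 1 * (2 * N * dist Z Z') := by
    rw [abs_mul]; exact mul_le_mul b1 l1 (abs_nonneg _) zero_le_one
  have f3 : |(Z.2 - Z'.2) * D2 u Z| ≤ dist Z Z' * N := by
    rw [abs_mul]; exact mul_le_mul d2 (n2 _ mZ) (abs_nonneg _) hd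
  have f4 : |Z'.2 * (D2 u Z - D2 u Z')| ≤ 1 * (2 * N * dist Z Z') := by
    rw [abs_mul]; exact mul_le_mul b2 l2 (abs_nonneg _) zero_le_one
  rw [abs_le] at f1 f2 f3 f4 co ⊢
  constructor <;> linarith [f1.1, f1.2, f2.1, f2.2, f3.1, f3.2, f4.1, f4.2, co.1, co.2]

/-- the boundary condition at a fixed level -/
lemma bdry_level {u : ℝ × ℝ → ℝ} (hu : ContDiff ℝ 2 u)
    (hb : ∀ x : ℝ × ℝ, x.1 ^ 2 + x.2 ^ 2 = 1 → u x = 0) {N : ℝ}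
    (hN : Bd N (D1 u) ∧ Bd N (D2 u) ∧ Bd N (D1 (D1 u)) ∧ Bd N (D1 (D2 u)) ∧ Bd N (D2 (D2 u)))
    {α S ρ : ℝ} (hS : 0 < S) (hρ : 0 < ρ)
    (h11 : Hol α S (D1 (D1 u))) (h12 : Hol α S (D1 (D2 u))) (h22 : Hol α S (D2 (D2 u)))
    {X n z z' ζ ζ' : ℝ × ℝ} (hn : n ∈ Disc) (hX : X ∈ Disc)
    (hz : X + ρ • z ∈ Disc) (hz' : X + ρ • z' ∈ Disc)
    (hζ : (X + ρ • ζ).1 ^ 2 + (X + ρ • ζ).2 ^ 2 = 1)
    (hζ' : (X + ρ • ζ').1 ^ 2 + (X + ρ • ζ').2 ^ 2 = 1) :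
    |qf n (rs (D1 (D1 u)) X ρ (S * ρ ^ α) z) (rs (D1 (D2 u)) X ρ (S * ρ ^ α) z)
        (rs (D2 (D2 u)) X ρ (S * ρ ^ α) z)
      - qf n (rs (D1 (D1 u)) X ρ (S * ρ ^ α) z') (rs (D1 (D2 u)) X ρ (S * ρ ^ α) z')
        (rs (D2 (D2 u)) X ρ (S * ρ ^ α) z')|
    ≤ 4 * dist z ζ ^ α + 4 * dist z' ζ' ^ α
      + 8 * dist n (X + ρ • ζ) * dist ζ 0 ^ α + 8 * dist n (X + ρ • ζ') * dist ζ' 0 ^ α
      + 14 * (N * ρ / (S * ρ ^ α)) * dist ζ ζ' := by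
  have hT : 0 < S * ρ ^ α := mul_pos hS (Real.rpow_pos_of_pos hρ α)
  set T := S * ρ ^ α with hTd
  obtain ⟨n1, n2⟩ := abs_le_of_disc hn
  have mζ := mem_disc_of_circle hζ
  have mζ' := mem_disc_of_circle hζ'
  obtain ⟨z1, z2⟩ := abs_le_of_disc mζ
  obtain ⟨w1, w2⟩ := abs_le_of_disc mζ'
  -- step 1
  have s1 := qf_diff n1 n2 (rs_hol hS hρ h11 hz mζ) (rs_hol hS hρ h12 hz mζ)
    (rs_hol hS hρ h22 hz mζ)
  have s1' := qf_diff n1 n2 (rs_hol hS hρ h11 hz' mζ') (rs_hol hS hρ h12 hz' mζ')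
    (rs_hol hS hρ h22 hz' mζ')
  -- step 2
  have s2 := qf_coef n1 n2 z1 z2 (rs_bd hS hρ h11 hX mζ) (rs_bd hS hρ h12 hX mζ)
    (rs_bd hS hρ h22 hX mζ)
  have s2' := qf_coef n1 n2 w1 w2 (rs_bd hS hρ h11 hX mζ') (rs_bd hS hρ h12 hX mζ')
    (rs_bd hS hρ h22 hX mζ')
  -- step 3
  have s3 := bdry_q hu hb hN hX hζ hζ'
  rw [dist_resc X ζ ζ' hρ] at s3
  have s4 : |qf (X + ρ • ζ) (rs (D1 (D1 u)) X ρ T ζ) (rs (D1 (D2 u)) X ρ T ζ)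
        (rs (D2 (D2 u)) X ρ T ζ)
      - qf (X + ρ • ζ') (rs (D1 (D1 u)) X ρ T ζ') (rs (D1 (D2 u)) X ρ T ζ')
        (rs (D2 (D2 u)) X ρ T ζ')| ≤ 14 * (N * ρ / T) * dist ζ ζ' := by
    have e : qf (X + ρ • ζ) (rs (D1 (D1 u)) X ρ T ζ) (rs (D1 (D2 u)) X ρ T ζ)
        (rs (D2 (D2 u)) X ρ T ζ)
      - qf (X + ρ • ζ') (rs (D1 (D1 u)) X ρ T ζ') (rs (D1 (D2 u)) X ρ T ζ')
        (rs (D2 (D2 u)) X ρ T ζ')
      = (qf (X + ρ • ζ) (D1 (D1 u) (X + ρ • ζ) - D1 (D1 u) X)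
          (D1 (D2 u) (X + ρ • ζ) - D1 (D2 u) X) (D2 (D2 u) (X + ρ • ζ) - D2 (D2 u) X)
        - qf (X + ρ • ζ') (D1 (D1 u) (X + ρ • ζ') - D1 (D1 u) X)
          (D1 (D2 u) (X + ρ • ζ') - D1 (D2 u) X) (D2 (D2 u) (X + ρ • ζ') - D2 (D2 u) X)) / T := by
      unfold qf rs
      field_simp
    rw [e, abs_div, abs_of_pos hT, div_le_iff₀ hT]
    calc _ ≤ _ := s3
      _ = _ := by field_simp
  rw [abs_le] at s1 s1' s2 s2' s4 ⊢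
  constructor <;> linarith [s1.1, s1.2, s1'.1, s1'.2, s2.1, s2.2, s2'.1, s2'.2, s4.1, s4.2]

/-- radial projection -/
lemma exists_proj {X z : ℝ × ℝ} {ρ t : ℝ} (hρ : 0 < ρ)
    (h0 : (X + ρ • z).1 ^ 2 + (X + ρ • z).2 ^ 2 ≤ 1)
    (h1 : 0 < (X + ρ • z).1 ^ 2 + (X + ρ • z).2 ^ 2)
    (h2 : 1 - ((X + ρ • z).1 ^ 2 + (X + ρ • z).2 ^ 2) ≤ ρ * t) :
    ∃ ζ : ℝ × ℝ, (X + ρ • ζ).1 ^ 2 + (X + ρ • ζ).2 ^ 2 = 1 ∧ dist z ζ ≤ t := by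
  set p := X + ρ • z with hp
  set r := Real.sqrt (p.1 ^ 2 + p.2 ^ 2) with hr
  have hr0 : 0 < r := Real.sqrt_pos.2 h1
  have hr2 : r ^ 2 = p.1 ^ 2 + p.2 ^ 2 := Real.sq_sqrt h1.le
  have hr1 : r ≤ 1 := by
    rw [hr]; exact Real.sqrt_le_one.2 h0
  refine ⟨z + (ρ⁻¹ * (r⁻¹ - 1)) • p, ?_, ?_⟩
  · have e : X + ρ • (z + (ρ⁻¹ * (r⁻¹ - 1)) • p) = r⁻¹ • p := by
      rw [smul_add, smul_smul, ← mul_assoc, mul_inv_cancel₀ hρ.ne', one_mul, ← add_assoc, ← hp,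
        sub_smul, one_smul]
      abel
    rw [e]
    simp only [Prod.smul_fst, Prod.smul_snd, smul_eq_mul]
    rw [mul_pow, mul_pow, ← mul_add, ← hr2]
    field_simp
  · rw [dist_comm, dist_eq_norm, add_sub_cancel_left, norm_smul, Real.norm_eq_abs]
    have hinv : 1 ≤ r⁻¹ := (one_le_inv₀ hr0).2 hr1
    have hnn : 0 ≤ ρ⁻¹ * (r⁻¹ - 1) := mul_nonneg (inv_pos.2 hρ).le (by linarith)
    rw [abs_of_nonneg hnn]
    have hpn : ‖p‖ ≤ r := by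
      rw [Prod.norm_def, max_le_iff, Real.norm_eq_abs, Real.norm_eq_abs]
      constructor
      · exact abs_le_of_sq_le_sq (by rw [hr2]; nlinarith [sq_nonneg p.2]) hr0.le
      · exact abs_le_of_sq_le_sq (by rw [hr2]; nlinarith [sq_nonneg p.1]) hr0.le
    calc ρ⁻¹ * (r⁻¹ - 1) * ‖p‖ ≤ ρ⁻¹ * (r⁻¹ - 1) * r := mul_le_mul_of_nonneg_left hpn hnn
      _ = ρ⁻¹ * (1 - r) := by field_simp
      _ ≤ ρ⁻¹ * (ρ * t) := by
        refine mul_le_mul_of_nonneg_left ?_ (inv_pos.2 hρ).le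
        nlinarith
      _ = t := by field_simp

end Pool.Agent.Lib44.BU
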