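import Pool.Agent.Lib_helper42.AQ.Green

/-! Module F, part 1: the base identity for `C¹` functions. -/

namespace Pool.Agent.Lib44.EN

open Set Filter Topology MeasureTheory intervalIntegral Function

lemma rect_integrable {f : ℝ × ℝ → ℝ} (hf : Continuous f) (a b c d : ℝ) :
    IntegrableOn f (Ioc a b ×ˢ Ioc c d) volume := by
  have : IntegrableOn f (Icc a b ×ˢ Icc c d) volume :=
    hf.continuousOn.integrableOn_compact (isCompact_Icc.prod isCompact_Icc)
  exact this.mono_set (prod_mono Ioc_subset_Icc_self Ioc_subset_Icc_self)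

lemma nested_eq {f : ℝ → ℝ → ℝ} {a b c d : ℝ} (hab : a ≤ b) (hcd : c ≤ d)
    (hf : Continuous (uncurry f)) :
    ∫ x in a..b, ∫ y in c..d, f x y = ∫ z in Ioc a b ×ˢ Ioc c d, f z.1 z.2 := by
  rw [integral_of_le hab]
  simp_rw [integral_of_le hcd]
  have h := rect_integrable hf a b c d
  rw [Measure.volume_eq_prod] at h
  have := setIntegral_prod (uncurry f) h
  rw [← Measure.volume_eq_prod] at this
  simp only [uncurry] at this
  exact this.symm

lemma cont_avg {q2 : ℝ → ℝ → ℝ} (cq2 : Continuous (uncurry q2)) (h : ℝ) :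
    Continuous (uncurry fun x y => (∫ s in x..(x + h), q2 s y) / h) := by
  have e : (uncurry fun x y => (∫ s in x..(x + h), q2 s y) / h)
      = fun p : ℝ × ℝ => (∫ s in (0 : ℝ)..h, q2 (s + p.1) p.2) / h := by
    ext p
    simp only [uncurry]
    rw [intervalIntegral.integral_comp_add_right (fun s => q2 s p.2) p.1]
    rw [zero_add, add_comm h]
  rw [e]
  apply Continuous.div_const
  apply continuous_parametric_intervalIntegral_of_continuous'
  exact cq2.comp (by fun_prop : Continuous fun q : (ℝ × ℝ) × ℝ => (q.2 + q.1.1, q.1.2))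

lemma cont_quot {Q : ℝ → ℝ → ℝ} (cQ : Continuous (uncurry Q)) (h : ℝ) :
    Continuous (uncurry fun x y => (Q (x + h) y - Q x y) / h) := by
  apply Continuous.div_const
  exact (cQ.comp (by fun_prop : Continuous fun p : ℝ × ℝ => (p.1 + h, p.2))).sub cQ

/-- the step sizes -/
noncomputable def hn (n : ℕ) : ℝ := 1 / ((n : ℝ) + 1)

lemma hn_pos (n : ℕ) : 0 < hn n := by unfold hn; positivity

lemma hn_le (n : ℕ) : hn n ≤ 1 := by
  unfold hn
  rw [div_le_one (by positivity)]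
  have : (0 : ℝ) ≤ n := Nat.cast_nonneg n
  linarith

lemma hn_lim : Tendsto hn atTop (𝓝[≠] 0) := by
  rw [tendsto_nhdsWithin_iff]
  exact ⟨tendsto_one_div_add_atTop_nhds_zero_nat, Eventually.of_forall fun n => (hn_pos n).ne'⟩

lemma avg_lim {q2 : ℝ → ℝ → ℝ} (cq2 : Continuous (uncurry q2)) (x y : ℝ) :
    Tendsto (fun n => (∫ s in x..(x + hn n), q2 s y) / hn n) atTop (𝓝 (q2 x y)) := by
  have cy : Continuous fun s => q2 s y := cq2.comp (by fun_prop : Continuous fun x : ℝ => (x, y))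
  have d1 : HasDerivAt (fun u => ∫ s in x..u, q2 s y) (q2 x y) x :=
    intervalIntegral.integral_hasDerivAt_right (cy.intervalIntegrable _ _)
      cy.stronglyMeasurable.stronglyMeasurableAtFilter cy.continuousAt
  have h2 := d1.tendsto_slope_zero
  have h3 := h2.comp hn_lim
  refine h3.congr fun n => ?_
  simp only [Function.comp_apply, integral_same, sub_zero, smul_eq_mul]
  rw [div_eq_inv_mul]

lemma quot_lim {Q q1 : ℝ → ℝ → ℝ} (hQ1 : ∀ x y, HasDerivAt (fun x => Q x y) (q1 x y) x) (x y : ℝ) :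
    Tendsto (fun n => (Q (x + hn n) y - Q x y) / hn n) atTop (𝓝 (q1 x y)) := by
  have h2 := (hQ1 x y).tendsto_slope_zero
  have h3 := h2.comp hn_lim
  refine h3.congr fun n => ?_
  simp only [Function.comp_apply, smul_eq_mul]
  rw [div_eq_inv_mul]

/-- the base identity -/
theorem base {ζ ζ1 ζ2 Q q1 q2 : ℝ → ℝ → ℝ} {S κ T : ℝ} (hS : 0 < S) (hκT : κ ≤ T)
    (hζ1 : ∀ x y, HasDerivAt (fun x => ζ x y) (ζ1 x y) x)
    (hζ2 : ∀ x y, HasDerivAt (fun y => ζ x y) (ζ2 x y) y)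
    (hQ1 : ∀ x y, HasDerivAt (fun x => Q x y) (q1 x y) x)
    (hQ2 : ∀ x y, HasDerivAt (fun y => Q x y) (q2 x y) y)
    (cζ : Continuous (uncurry ζ)) (cζ1 : Continuous (uncurry ζ1)) (cζ2 : Continuous (uncurry ζ2))
    (cQ : Continuous (uncurry Q)) (cq1 : Continuous (uncurry q1)) (cq2 : Continuous (uncurry q2))
    (sup1 : ∀ x y, S ≤ |x| → ζ x y = 0) (supT : ∀ x, ζ x T = 0) :
    ∫ z in Ioc (-S) S ×ˢ Ioc κ T, (ζ1 z.1 z.2 * q2 z.1 z.2 - ζ2 z.1 z.2 * q1 z.1 z.2)
    = ∫ x in (-S)..S, ζ x κ * q1 x κ := by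
  have hSS : -S ≤ S := by linarith
  -- a common bound
  obtain ⟨M, hM⟩ : ∃ M : ℝ, ∀ z ∈ Icc (-S) (S + 1) ×ˢ Icc κ T,
      |q1 z.1 z.2| ≤ M ∧ |q2 z.1 z.2| ≤ M ∧ |ζ1 z.1 z.2| ≤ M ∧ |ζ2 z.1 z.2| ≤ M
        ∧ |ζ z.1 z.2| ≤ M := by
    have hK : IsCompact (Icc (-S) (S + 1) ×ˢ Icc κ T) := isCompact_Icc.prod isCompact_Icc
    obtain ⟨M1, h1⟩ := hK.exists_bound_of_continuousOn cq1.continuousOn
    obtain ⟨M2, h2⟩ := hK.exists_bound_of_continuousOn cq2.continuousOn
    obtain ⟨M3, h3⟩ := hK.exists_bound_of_continuousOn cζ1.continuousOn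
    obtain ⟨M4, h4⟩ := hK.exists_bound_of_continuousOn cζ2.continuousOn
    obtain ⟨M5, h5⟩ := hK.exists_bound_of_continuousOn cζ.continuousOn
    refine ⟨|M1| + |M2| + |M3| + |M4| + |M5|, fun z hz => ?_⟩
    have a1 := h1 z hz
    have a2 := h2 z hz
    have a3 := h3 z hz
    have a4 := h4 z hz
    have a5 := h5 z hz
    rw [Real.norm_eq_abs] at a1 a2 a3 a4 a5
    have b1 := le_abs_self M1
    have b2 := le_abs_self M2
    have b3 := le_abs_self M3
    have b4 := le_abs_self M4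
    have b5 := le_abs_self M5
    have c1 := abs_nonneg M1
    have c2 := abs_nonneg M2
    have c3 := abs_nonneg M3
    have c4 := abs_nonneg M4
    have c5 := abs_nonneg M5
    simp only [uncurry] at a1 a2 a3 a4 a5
    refine ⟨?_, ?_, ?_, ?_, ?_⟩ <;> linarith
  -- bounds for the averages
  have hA : ∀ n x y, x ∈ Icc (-S) S → y ∈ Icc κ T →
      |(∫ s in x..(x + hn n), q2 s y) / hn n| ≤ M := by
    intro n x y hx hy
    have h0 := hn_pos n
    have h1 := hn_le n
    have : ‖∫ s in x..(x + hn n), q2 s y‖ ≤ M * |x + hn n - x| := by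
      apply intervalIntegral.norm_integral_le_of_norm_le_const
      intro s hs
      rw [uIoc_of_le (by linarith)] at hs
      rw [Real.norm_eq_abs]
      exact (hM (s, y) ⟨⟨by linarith [hx.1, hs.1], by linarith [hx.2, hs.2]⟩, hy⟩).2.1
    rw [add_sub_cancel_left, abs_of_pos h0, Real.norm_eq_abs] at this
    rw [abs_div, abs_of_pos h0, div_le_iff₀ h0]
    exact this
  have hD : ∀ n x y, x ∈ Icc (-S) S → y ∈ Icc κ T →
      |(Q (x + hn n) y - Q x y) / hn n| ≤ M := by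
    intro n x y hx hy
    have h0 := hn_pos n
    have h1 := hn_le n
    have : ‖Q (x + hn n) y - Q x y‖ ≤ M * ‖x + hn n - x‖ := by
      refine (convex_Icc (-S) (S + 1)).norm_image_sub_le_of_norm_hasDerivWithin_le
        (f := fun x => Q x y) (f' := fun x => q1 x y) (fun s _ => (hQ1 s y).hasDerivWithinAt)
        (fun s hs => ?_) ⟨hx.1, by linarith [hx.2]⟩ ⟨by linarith [hx.1], by linarith [hx.2]⟩
      rw [Real.norm_eq_abs]
      exact (hM (s, y) ⟨hs, hy⟩).1
    rw [add_sub_cancel_left, Real.norm_eq_abs, Real.norm_eq_abs, abs_of_pos h0] at this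
    rw [abs_div, abs_of_pos h0, div_le_iff₀ h0]
    exact this
  have hM0 : 0 ≤ M := by
    have := (hM (0, κ) ⟨⟨by linarith, by linarith⟩, ⟨le_refl _, hκT⟩⟩).1
    exact (abs_nonneg _).trans this
  have hav := fun n => AQ.averaged (ζ := ζ) (ζ1 := ζ1) (ζ2 := ζ2) (Q := Q) (q1 := q1) (q2 := q2) hS hκT
    (hn_pos n) hζ1 hζ2 hQ2 cζ cζ1 cζ2 cQ cq2 sup1 supT
  have hcF : ∀ n, Continuous (uncurry fun x y => ζ1 x y * ((∫ s in x..(x + hn n), q2 s y) / hn n)
      - ζ2 x y * ((Q (x + hn n) y - Q x y) / hn n)) := fun n =>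
    (cζ1.mul (cont_avg cq2 _)).sub (cζ2.mul (cont_quot cQ _))
  have hL : Tendsto (fun n => ∫ z in Ioc (-S) S ×ˢ Ioc κ T,
      (ζ1 z.1 z.2 * ((∫ s in z.1..(z.1 + hn n), q2 s z.2) / hn n)
      - ζ2 z.1 z.2 * ((Q (z.1 + hn n) z.2 - Q z.1 z.2) / hn n))) atTop
      (𝓝 (∫ z in Ioc (-S) S ×ˢ Ioc κ T, (ζ1 z.1 z.2 * q2 z.1 z.2 - ζ2 z.1 z.2 * q1 z.1 z.2))) := by
    refine MeasureTheory.tendsto_integral_of_dominated_convergence (fun _ => M * M + M * M)
      (fun n => (hcF n).aestronglyMeasurable) ?_ ?_ ?_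
    · exact rect_integrable continuous_const _ _ _ _
    · intro n
      refine (ae_restrict_iff' (measurableSet_Ioc.prod measurableSet_Ioc)).2
        (Eventually.of_forall fun z hz => ?_)
      have hz1 : z.1 ∈ Icc (-S) S := Ioc_subset_Icc_self hz.1
      have hz2 : z.2 ∈ Icc κ T := Ioc_subset_Icc_self hz.2
      have hb := hM z ⟨⟨hz1.1, by linarith [hz1.2]⟩, hz2⟩
      rw [Real.norm_eq_abs]
      refine (abs_sub _ _).trans ?_
      rw [abs_mul, abs_mul]
      exact add_le_add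
        (mul_le_mul hb.2.2.1 (hA n _ _ hz1 hz2) (abs_nonneg _) hM0)
        (mul_le_mul hb.2.2.2.1 (hD n _ _ hz1 hz2) (abs_nonneg _) hM0)
    · refine Eventually.of_forall fun z => ?_
      exact (tendsto_const_nhds.mul (avg_lim cq2 _ _)).sub
        (tendsto_const_nhds.mul (quot_lim hQ1 _ _))
  have hR : Tendsto (fun n => ∫ x in (-S)..S, ζ x κ * ((Q (x + hn n) κ - Q x κ) / hn n)) atTop
      (𝓝 (∫ x in (-S)..S, ζ x κ * q1 x κ)) := by
    refine intervalIntegral.tendsto_integral_filter_of_dominated_convergence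
      (fun _ => M * M) ?_ ?_ ?_ ?_
    · refine Eventually.of_forall fun n => Continuous.aestronglyMeasurable ?_
      exact (cζ.comp (by fun_prop : Continuous fun x : ℝ => (x, κ))).mul
        ((cont_quot cQ (hn n)).comp (by fun_prop : Continuous fun x : ℝ => (x, κ)))
    · refine Eventually.of_forall fun n => Eventually.of_forall fun x hx => ?_
      rw [uIoc_of_le hSS] at hx
      have hx1 : x ∈ Icc (-S) S := Ioc_subset_Icc_self hx
      have hκ : κ ∈ Icc κ T := ⟨le_refl _, hκT⟩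
      have hb := hM (x, κ) ⟨⟨hx1.1, by linarith [hx1.2]⟩, hκ⟩
      rw [Real.norm_eq_abs, abs_mul]
      exact mul_le_mul hb.2.2.2.2 (hD n _ _ hx1 hκ) (abs_nonneg _) hM0
    · exact intervalIntegrable_const
    · refine Eventually.of_forall fun x _ => ?_
      exact tendsto_const_nhds.mul (quot_lim hQ1 _ _)
  have heq : ∀ n, ∫ z in Ioc (-S) S ×ˢ Ioc κ T,
      (ζ1 z.1 z.2 * ((∫ s in z.1..(z.1 + hn n), q2 s z.2) / hn n)
      - ζ2 z.1 z.2 * ((Q (z.1 + hn n) z.2 - Q z.1 z.2) / hn n))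
      = ∫ x in (-S)..S, ζ x κ * ((Q (x + hn n) κ - Q x κ) / hn n) := by
    intro n
    rw [← hav n]
    exact (nested_eq hSS hκT (hcF n)).symm
  simp_rw [heq] at hL
  exact tendsto_nhds_unique hL hR

end Pool.Agent.Lib44.EN
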