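import Pool.Agent.Lib_helper44.AQ.F1

/-! Module F, part 2: cutoff function and the energy inequality. -/

namespace Pool.Agent.Lib44.EN

open Set Filter Topology MeasureTheory intervalIntegral Function

structure Cut (χ χ' : ℝ → ℝ) (c1 : ℝ) : Prop where
  nn : ∀ t, 0 ≤ χ t
  le1 : ∀ t, χ t ≤ 1
  one : ∀ t, |t| ≤ 1 → χ t = 1
  zero : ∀ t, 2 ≤ |t| → χ t = 0
  der : ∀ t, HasDerivAt χ (χ' t) t
  cont : Continuous χ'
  bd : ∀ t, |χ' t| ≤ c1
  dzero : ∀ t, |t| ≤ 1 → χ' t = 0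

lemma exists_cut : ∃ χ χ' : ℝ → ℝ, ∃ c1, Cut χ χ' c1 := by
  set χ : ℝ → ℝ := fun t => Real.smoothTransition (2 - t) * Real.smoothTransition (2 + t) with hχ
  have hcd : ContDiff ℝ 1 χ :=
    ((Real.smoothTransition.contDiff (n := 1)).comp (contDiff_const.sub contDiff_id)).mul
      ((Real.smoothTransition.contDiff (n := 1)).comp (contDiff_const.add contDiff_id))
  have hder : ∀ t, HasDerivAt χ (deriv χ t) t := fun t =>
    (hcd.differentiable (by norm_num) t).hasDerivAt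
  have hcont : Continuous (deriv χ) := hcd.continuous_deriv (by norm_num)
  have nn : ∀ t, 0 ≤ χ t := fun t =>
    mul_nonneg (Real.smoothTransition.nonneg _) (Real.smoothTransition.nonneg _)
  have le1 : ∀ t, χ t ≤ 1 := fun t =>
    mul_le_one₀ (Real.smoothTransition.le_one _) (Real.smoothTransition.nonneg _)
      (Real.smoothTransition.le_one _)
  have one : ∀ t, |t| ≤ 1 → χ t = 1 := by
    intro t ht
    rw [abs_le] at ht
    simp only [hχ]
    rw [Real.smoothTransition.one_of_one_le (by linarith),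
      Real.smoothTransition.one_of_one_le (by linarith), one_mul]
  have zero : ∀ t, 2 ≤ |t| → χ t = 0 := by
    intro t ht
    simp only [hχ]
    rcases le_abs.1 ht with h | h
    · rw [Real.smoothTransition.zero_of_nonpos (by linarith), zero_mul]
    · rw [Real.smoothTransition.zero_of_nonpos (x := 2 + t) (by linarith), mul_zero]
  have dzero : ∀ t, |t| ≤ 1 → deriv χ t = 0 := by
    intro t ht
    have : IsLocalMax χ t := by
      filter_upwards with s
      rw [one t ht]; exact le1 s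
    exact this.deriv_eq_zero
  have dzero2 : ∀ t, 2 ≤ |t| → deriv χ t = 0 := by
    intro t ht
    have : IsLocalMin χ t := by
      filter_upwards with s
      rw [zero t ht]; exact nn s
    exact this.deriv_eq_zero
  obtain ⟨M, hM⟩ := (isCompact_Icc (a := (-2 : ℝ)) (b := 2)).exists_bound_of_continuousOn
    hcont.continuousOn
  refine ⟨χ, deriv χ, |M|, nn, le1, one, zero, hder, hcont, ?_, dzero⟩
  intro t
  by_cases ht : |t| ≤ 2
  · have := hM t (abs_le.1 ht)
    rw [Real.norm_eq_abs] at this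
    exact this.trans (le_abs_self _)
  · rw [dzero2 t (by linarith [not_le.1 ht]), abs_zero]
    exact abs_nonneg _

section energy

variable {χ χ' : ℝ → ℝ} {c1 : ℝ} {P Q p1 p2 q1 q2 : ℝ → ℝ → ℝ} {B c R a b s β0 : ℝ}

/-- the energy inequality -/
theorem energy_ineq (hχ : Cut χ χ' c1) (hc : 0 < c) (hR : 0 < R) (hs : 0 < s)
    (hab : a ≤ b) (ha : -(2 * R) ≤ a) (hb : -R ≤ b) (hbR : b ≤ R)
    (hP1 : ∀ x y, HasDerivAt (fun x => P x y) (p1 x y) x)
    (hP2 : ∀ x y, HasDerivAt (fun y => P x y) (p2 x y) y)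
    (hQ1 : ∀ x y, HasDerivAt (fun x => Q x y) (q1 x y) x)
    (hQ2 : ∀ x y, HasDerivAt (fun y => Q x y) (q2 x y) y)
    (cP : Continuous (uncurry P)) (cp1 : Continuous (uncurry p1)) (cp2 : Continuous (uncurry p2))
    (cQ : Continuous (uncurry Q)) (cq1 : Continuous (uncurry q1)) (cq2 : Continuous (uncurry q2))
    (bP : ∀ x y, a ≤ y → |P x y| ≤ B)
    (J : ∀ x y, a ≤ y → c * (p1 x y ^ 2 + p2 x y ^ 2 + q1 x y ^ 2 + q2 x y ^ 2)
      ≤ p1 x y * q2 x y - p2 x y * q1 x y)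
    (hβ : ∀ x, χ (a / R) * |P x a * q1 x a| ≤ β0) :
    ∃ E : ℝ, (∫ z in Ioc (-R) R ×ˢ Ioc b R, (p1 z.1 z.2 * q2 z.1 z.2 - p2 z.1 z.2 * q1 z.1 z.2)) ≤ E ∧
      E ≤ (∫ z in Ioc (-(2 * R)) (2 * R) ×ˢ Ioc a (2 * R),
        (p1 z.1 z.2 * q2 z.1 z.2 - p2 z.1 z.2 * q1 z.1 z.2)) ∧
      E ≤ 4 * R * β0 + 16 * B ^ 2 * c1 ^ 2 * s + 2 / (c * s) *
        (E - ∫ z in Ioc (-R) R ×ˢ Ioc b R, (p1 z.1 z.2 * q2 z.1 z.2 - p2 z.1 z.2 * q1 z.1 z.2)) := by
  set η : ℝ → ℝ → ℝ := fun x y => χ (x / R) * χ (y / R) with hη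
  set η1 : ℝ → ℝ → ℝ := fun x y => (χ' (x / R) / R) * χ (y / R) with hη1
  set η2 : ℝ → ℝ → ℝ := fun x y => χ (x / R) * (χ' (y / R) / R) with hη2
  have cχ : Continuous χ := by
    rw [continuous_iff_continuousAt]; exact fun t => (hχ.der t).continuousAt
  have cη : Continuous (uncurry η) := by
    have : uncurry η = fun z : ℝ × ℝ => χ (z.1 / R) * χ (z.2 / R) := by ext z; rfl
    rw [this]; exact (cχ.comp (by fun_prop)).mul (cχ.comp (by fun_prop))
  have cη1 : Continuous (uncurry η1) := by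
    have : uncurry η1 = fun z : ℝ × ℝ => (χ' (z.1 / R) / R) * χ (z.2 / R) := by ext z; rfl
    rw [this]; exact ((hχ.cont.comp (by fun_prop)).div_const R).mul (cχ.comp (by fun_prop))
  have cη2 : Continuous (uncurry η2) := by
    have : uncurry η2 = fun z : ℝ × ℝ => χ (z.1 / R) * (χ' (z.2 / R) / R) := by ext z; rfl
    rw [this]; exact (cχ.comp (by fun_prop)).mul ((hχ.cont.comp (by fun_prop)).div_const R)
  have dχ : ∀ t, HasDerivAt (fun t => χ (t / R)) (χ' (t / R) / R) t := by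
    intro t
    have h1 := (hχ.der (t / R)).comp t ((hasDerivAt_id t).div_const R)
    have h2 : χ' (t / R) * (1 / R) = χ' (t / R) / R := by ring
    rw [h2] at h1
    exact h1
  have dη1 : ∀ x y, HasDerivAt (fun x => η x y) (η1 x y) x := fun x y =>
    (dχ x).mul_const (χ (y / R))
  have dη2 : ∀ x y, HasDerivAt (fun y => η x y) (η2 x y) y := fun x y =>
    (dχ y).const_mul (χ (x / R))
  have η0 : ∀ x y, 0 ≤ η x y := fun x y => mul_nonneg (hχ.nn _) (hχ.nn _)
  have ηle : ∀ x y, η x y ≤ 1 := fun x y => mul_le_one₀ (hχ.le1 _) (hχ.nn _) (hχ.le1 _)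
  have hc1 : 0 ≤ c1 := (abs_nonneg _).trans (hχ.bd 0)
  have bη1 : ∀ x y, |η1 x y| ≤ c1 / R := by
    intro x y
    simp only [hη1]
    rw [abs_mul, abs_div, abs_of_pos hR, abs_of_nonneg (hχ.nn _)]
    calc |χ' (x / R)| / R * χ (y / R) ≤ c1 / R * 1 := by
          refine mul_le_mul ?_ (hχ.le1 _) (hχ.nn _) (by positivity)
          exact div_le_div_of_nonneg_right (hχ.bd _) hR.le
      _ = c1 / R := mul_one _
  have bη2 : ∀ x y, |η2 x y| ≤ c1 / R := by
    intro x y
    simp only [hη2]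
    rw [abs_mul, abs_div, abs_of_pos hR, abs_of_nonneg (hχ.nn _)]
    calc χ (x / R) * (|χ' (y / R)| / R) ≤ 1 * (c1 / R) := by
          refine mul_le_mul (hχ.le1 _) ?_ (by positivity) zero_le_one
          exact div_le_div_of_nonneg_right (hχ.bd _) hR.le
      _ = c1 / R := one_mul _
  -- the test function
  set ζ : ℝ → ℝ → ℝ := fun x y => η x y ^ 2 * P x y with hζ
  set ζ1 : ℝ → ℝ → ℝ := fun x y => (2 * η x y * η1 x y) * P x y + η x y ^ 2 * p1 x y with hζ1
  set ζ2 : ℝ → ℝ → ℝ := fun x y => (2 * η x y * η2 x y) * P x y + η x y ^ 2 * p2 x y with hζ2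
  have dζ1 : ∀ x y, HasDerivAt (fun x => ζ x y) (ζ1 x y) x := by
    intro x y
    have := ((dη1 x y).fun_pow 2).fun_mul (hP1 x y)
    refine this.congr_deriv ?_
    simp only [hζ1]
    norm_num
  have dζ2 : ∀ x y, HasDerivAt (fun y => ζ x y) (ζ2 x y) y := by
    intro x y
    have := ((dη2 x y).fun_pow 2).fun_mul (hP2 x y)
    refine this.congr_deriv ?_
    simp only [hζ2]
    norm_num
  have cζ : Continuous (uncurry ζ) := (cη.pow 2).mul cP
  have cζ1 : Continuous (uncurry ζ1) :=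
    (((continuous_const.mul cη).mul cη1).mul cP).add ((cη.pow 2).mul cp1)
  have cζ2 : Continuous (uncurry ζ2) :=
    (((continuous_const.mul cη).mul cη2).mul cP).add ((cη.pow 2).mul cp2)
  have sup1 : ∀ x y, 2 * R ≤ |x| → ζ x y = 0 := by
    intro x y hx
    have : χ (x / R) = 0 := by
      apply hχ.zero
      rw [abs_div, abs_of_pos hR, le_div_iff₀ hR]; exact hx
    simp only [hζ, hη, this]; ring
  have supT : ∀ x, ζ x (2 * R) = 0 := by
    intro x
    have : χ (2 * R / R) = 0 := by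
      apply hχ.zero
      rw [mul_div_assoc, div_self hR.ne', mul_one, abs_two]
    simp only [hζ, hη, this]; ring
  have hbase := base (S := 2 * R) (κ := a) (T := 2 * R) (by linarith) (by linarith) dζ1 dζ2
    hQ1 hQ2 cζ cζ1 cζ2 cQ cq1 cq2 sup1 supT
  -- notation
  set J0 : ℝ × ℝ → ℝ := fun z => p1 z.1 z.2 * q2 z.1 z.2 - p2 z.1 z.2 * q1 z.1 z.2 with hJ0
  set g : ℝ × ℝ → ℝ := fun z => η z.1 z.2 ^ 2 * J0 z with hg
  set f : ℝ × ℝ → ℝ := fun z => 2 * η z.1 z.2 * P z.1 z.2 *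
    (η1 z.1 z.2 * q2 z.1 z.2 - η2 z.1 z.2 * q1 z.1 z.2) with hf
  set Ω : Set (ℝ × ℝ) := Ioc (-(2 * R)) (2 * R) ×ˢ Ioc a (2 * R) with hΩ
  set I : Set (ℝ × ℝ) := Ioc (-R) R ×ˢ Ioc b R with hI
  have cJ0 : Continuous J0 := (cp1.mul cq2).sub (cp2.mul cq1)
  have cg : Continuous g := (cη.pow 2).mul cJ0
  have cf : Continuous f := ((continuous_const.mul cη).mul cP).mul ((cη1.mul cq2).sub (cη2.mul cq1))
  have hIΩ : I ⊆ Ω := by
    rintro z ⟨h1, h2⟩
    exact ⟨⟨by linarith [h1.1], by linarith [h1.2]⟩, ⟨by linarith [h2.1], by linarith [h2.2]⟩⟩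
  have mI : MeasurableSet I := measurableSet_Ioc.prod measurableSet_Ioc
  have mΩ : MeasurableSet Ω := measurableSet_Ioc.prod measurableSet_Ioc
  have ig : IntegrableOn g Ω := rect_integrable cg _ _ _ _
  have if' : IntegrableOn f Ω := rect_integrable cf _ _ _ _
  have iJ : IntegrableOn J0 Ω := rect_integrable cJ0 _ _ _ _
  have hJnn : ∀ z ∈ Ω, 0 ≤ J0 z := by
    intro z hz
    have := J z.1 z.2 hz.2.1.le
    have h2 : 0 ≤ c * (p1 z.1 z.2 ^ 2 + p2 z.1 z.2 ^ 2 + q1 z.1 z.2 ^ 2 + q2 z.1 z.2 ^ 2) := by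
      positivity
    exact h2.trans this
  -- values on `I`
  have ηI : ∀ z ∈ I, η z.1 z.2 = 1 ∧ η1 z.1 z.2 = 0 ∧ η2 z.1 z.2 = 0 := by
    rintro z ⟨h1, h2⟩
    have e1 : |z.1 / R| ≤ 1 := by
      rw [abs_div, abs_of_pos hR, div_le_one hR, abs_le]; exact ⟨h1.1.le, h1.2⟩
    have e2 : |z.2 / R| ≤ 1 := by
      rw [abs_div, abs_of_pos hR, div_le_one hR, abs_le]; exact ⟨by linarith [h2.1], h2.2⟩
    simp only [hη, hη1, hη2]
    rw [hχ.one _ e1, hχ.one _ e2, hχ.dzero _ e1, hχ.dzero _ e2]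
    norm_num
  have hgI : ∫ z in I, g z = ∫ z in I, J0 z := by
    refine setIntegral_congr_fun mI fun z hz => ?_
    simp only [hg, (ηI z hz).1]; ring
  have hfI : ∫ z in I, f z = 0 := by
    rw [setIntegral_congr_fun (g := fun _ => 0) mI]
    · simp
    · intro z hz
      simp only [hf, (ηI z hz).2.1, (ηI z hz).2.2]; ring
  -- the identity
  have hid : (∫ z in Ω, g z) + ∫ z in Ω, f z = ∫ x in (-(2 * R))..(2 * R), ζ x a * q1 x a := by
    rw [← hbase, ← MeasureTheory.integral_add ig if']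
    refine setIntegral_congr_fun mΩ fun z _ => ?_
    simp only [hg, hf, hζ1, hζ2, hJ0]; ring
  -- the boundary term
  have hbdry : ∫ x in (-(2 * R))..(2 * R), ζ x a * q1 x a ≤ 4 * R * β0 := by
    have h1 : ∀ x, |ζ x a * q1 x a| ≤ β0 := by
      intro x
      have e : ζ x a * q1 x a = (χ (x / R) ^ 2 * χ (a / R)) * (χ (a / R) * (P x a * q1 x a)) := by
        simp only [hζ, hη]; ring
      rw [e, abs_mul]
      have k1 : |χ (x / R) ^ 2 * χ (a / R)| ≤ 1 := by
        rw [abs_of_nonneg (mul_nonneg (sq_nonneg _) (hχ.nn _))]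
        exact mul_le_one₀ (pow_le_one₀ (hχ.nn _) (hχ.le1 _)) (hχ.nn _) (hχ.le1 _)
      have k2 : |χ (a / R) * (P x a * q1 x a)| ≤ β0 := by
        rw [abs_mul, abs_of_nonneg (hχ.nn _)]; exact hβ x
      calc _ ≤ 1 * β0 := mul_le_mul k1 k2 (abs_nonneg _) zero_le_one
        _ = β0 := one_mul _
    have h2 := intervalIntegral.norm_integral_le_of_norm_le_const (a := -(2 * R)) (b := 2 * R)
      (f := fun x => ζ x a * q1 x a) (C := β0) (fun x _ => by rw [Real.norm_eq_abs]; exact h1 x)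
    rw [Real.norm_eq_abs] at h2
    have h3 : |2 * R - -(2 * R)| = 4 * R := by
      rw [show 2 * R - -(2 * R) = 4 * R by ring]; exact abs_of_pos (by linarith)
    rw [h3] at h2
    have := le_abs_self (∫ x in (-(2 * R))..(2 * R), ζ x a * q1 x a)
    linarith
  -- pointwise estimate of `f`
  have hfp : ∀ z ∈ Ω, -f z ≤ s * (B * c1 / R) ^ 2 + 2 / (c * s) * g z := by
    intro z hz
    have hzy : a ≤ z.2 := hz.2.1.le
    have b1 := bP z.1 z.2 hzy
    have hJz := J z.1 z.2 hzy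
    have hB0 : 0 ≤ B := (abs_nonneg _).trans b1
    have n1 := bη1 z.1 z.2
    have n2 := bη2 z.1 z.2
    have η00 := η0 z.1 z.2
    have k1 : |η1 z.1 z.2 * q2 z.1 z.2 - η2 z.1 z.2 * q1 z.1 z.2|
        ≤ c1 / R * (|q1 z.1 z.2| + |q2 z.1 z.2|) := by
      refine (abs_sub _ _).trans ?_
      rw [abs_mul (η1 z.1 z.2), abs_mul (η2 z.1 z.2)]
      have m1 := mul_le_mul_of_nonneg_right n1 (abs_nonneg (q2 z.1 z.2))
      have m2 := mul_le_mul_of_nonneg_right n2 (abs_nonneg (q1 z.1 z.2))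
      linarith
    have k2 : |f z| ≤ 2 * (B * c1 / R) * (η z.1 z.2 * (|q1 z.1 z.2| + |q2 z.1 z.2|)) := by
      simp only [hf]
      rw [abs_mul, abs_mul, abs_mul, abs_two, abs_of_nonneg η00]
      calc 2 * η z.1 z.2 * |P z.1 z.2| * |η1 z.1 z.2 * q2 z.1 z.2 - η2 z.1 z.2 * q1 z.1 z.2|
          ≤ 2 * η z.1 z.2 * B * (c1 / R * (|q1 z.1 z.2| + |q2 z.1 z.2|)) := by
            refine mul_le_mul ?_ k1 (abs_nonneg _) (by positivity)
            exact mul_le_mul_of_nonneg_left b1 (by positivity)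
        _ = _ := by ring
    set A := B * c1 / R with hA
    set D := η z.1 z.2 * (|q1 z.1 z.2| + |q2 z.1 z.2|) with hD
    have k3 : 2 * A * D ≤ s * A ^ 2 + D ^ 2 / s := by
      have : 0 ≤ (s * A - D) ^ 2 / s := by positivity
      have e : (s * A - D) ^ 2 / s = s * A ^ 2 + D ^ 2 / s - 2 * A * D := by
        field_simp; ring
      linarith
    have k4 : D ^ 2 ≤ 2 / c * g z := by
      have l1 : (|q1 z.1 z.2| + |q2 z.1 z.2|) ^ 2 ≤ 2 * (q1 z.1 z.2 ^ 2 + q2 z.1 z.2 ^ 2) := by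
        have a1 := sq_abs (q1 z.1 z.2)
        have a2 := sq_abs (q2 z.1 z.2)
        nlinarith [sq_nonneg (|q1 z.1 z.2| - |q2 z.1 z.2|)]
      have l2 : q1 z.1 z.2 ^ 2 + q2 z.1 z.2 ^ 2 ≤ J0 z / c := by
        rw [le_div_iff₀ hc]
        have : 0 ≤ c * (p1 z.1 z.2 ^ 2 + p2 z.1 z.2 ^ 2) := by positivity
        simp only [hJ0]
        linarith
      calc D ^ 2 = η z.1 z.2 ^ 2 * (|q1 z.1 z.2| + |q2 z.1 z.2|) ^ 2 := by rw [hD]; ring
        _ ≤ η z.1 z.2 ^ 2 * (2 * (J0 z / c)) := by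
            refine mul_le_mul_of_nonneg_left ?_ (sq_nonneg _)
            linarith
        _ = 2 / c * g z := by simp only [hg]; ring
    have k5 : D ^ 2 / s ≤ 2 / (c * s) * g z := by
      rw [div_le_iff₀ hs]
      calc D ^ 2 ≤ 2 / c * g z := k4
        _ = 2 / (c * s) * g z * s := by field_simp
    have := neg_le_abs (f z)
    linarith
  refine ⟨∫ z in Ω, g z, ?_, ?_, ?_⟩
  · rw [← hgI]
    refine setIntegral_mono_set ig ?_ hIΩ.eventuallyLE
    refine (ae_restrict_iff' mΩ).2 (Eventually.of_forall fun z hz => ?_)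
    exact mul_nonneg (sq_nonneg _) (hJnn z hz)
  · refine setIntegral_mono_on ig iJ mΩ fun z hz => ?_
    simp only [hg]
    exact mul_le_of_le_one_left (hJnn z hz) (pow_le_one₀ (η0 _ _) (ηle _ _))
  · have hB0 : 0 ≤ B := (abs_nonneg _).trans (bP 0 a le_rfl)
    have h1 : ∫ z in Ω, f z = ∫ z in Ω \ I, f z := by
      rw [setIntegral_sdiff mI if' hIΩ, hfI, sub_zero]
    have h2 : (∫ z in Ω, g z) - ∫ z in I, J0 z = ∫ z in Ω \ I, g z := by
      rw [setIntegral_sdiff mI ig hIΩ, hgI]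
    have i1 : IntegrableOn (fun z => s * (B * c1 / R) ^ 2 + 2 / (c * s) * g z) Ω :=
      (rect_integrable continuous_const _ _ _ _).add (ig.const_mul _)
    have h3 : ∫ z in Ω \ I, (-f z) ≤ ∫ z in Ω \ I, (s * (B * c1 / R) ^ 2 + 2 / (c * s) * g z) := by
      refine setIntegral_mono_on (if'.neg.mono_set sdiff_subset) (i1.mono_set sdiff_subset)
        (mΩ.diff mI) fun z hz => hfp z hz.1
    have h4 : ∫ z in Ω \ I, (s * (B * c1 / R) ^ 2 + 2 / (c * s) * g z)
        = (∫ _z in Ω \ I, s * (B * c1 / R) ^ 2) + 2 / (c * s) * ∫ z in Ω \ I, g z := by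
      rw [MeasureTheory.integral_add]
      · rw [MeasureTheory.integral_const_mul (2 / (c * s)) g]
      · exact ((rect_integrable (f := fun _ => s * (B * c1 / R) ^ 2) continuous_const _ _ _ _).mono_set
          (sdiff_subset : Ω \ I ⊆ Ω))
      · exact (ig.mono_set sdiff_subset).const_mul _
    have h5 : (∫ _z in Ω \ I, s * (B * c1 / R) ^ 2) ≤ 16 * B ^ 2 * c1 ^ 2 * s := by
      have l1 : (∫ _z in Ω \ I, s * (B * c1 / R) ^ 2) ≤ ∫ _z in Ω, s * (B * c1 / R) ^ 2 := by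
        refine setIntegral_mono_set (rect_integrable continuous_const _ _ _ _) ?_
          (sdiff_subset : Ω \ I ⊆ Ω).eventuallyLE
        exact Eventually.of_forall fun z => by positivity
      have l2 : (∫ _z in Ω, s * (B * c1 / R) ^ 2)
          = (4 * R * (2 * R - a)) * (s * (B * c1 / R) ^ 2) := by
        have hn := nested_eq (f := fun _ _ => s * (B * c1 / R) ^ 2) (a := -(2 * R)) (b := 2 * R)
          (c := a) (d := 2 * R) (by linarith) (by linarith) continuous_const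
        rw [← hn]
        simp only [intervalIntegral.integral_const, smul_eq_mul]
        ring
      have l3 : (4 * R * (2 * R - a)) * (s * (B * c1 / R) ^ 2)
          ≤ (4 * R * (4 * R)) * (s * (B * c1 / R) ^ 2) := by
        refine mul_le_mul_of_nonneg_right ?_ (by positivity)
        refine mul_le_mul_of_nonneg_left ?_ (by positivity)
        linarith
      have l4 : (4 * R * (4 * R)) * (s * (B * c1 / R) ^ 2) = 16 * B ^ 2 * c1 ^ 2 * s := by
        field_simp; ring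
      linarith
    have h6 : ∫ z in Ω \ I, (-f z) = - ∫ z in Ω \ I, f z := integral_neg _
    rw [h2]
    linarith

end energy

end Pool.Agent.Lib44.EN
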