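import Pool.Agent.Lib_helper44.AQ.F2

/-! Module F, part 3: the two-dimensional energy Liouville theorems. -/

namespace Pool.Agent.Lib44.EN

open Set Filter Topology MeasureTheory intervalIntegral Function

/-- hole filling -/
lemma iter {G : ℕ → ℝ} {b D θ M : ℝ} {N : ℕ} (hmono : ∀ j, G 0 ≤ G j)
    (h : ∀ j < N, G j ≤ b + D + θ * (G (j + 1) - G j)) (hM : G N ≤ M) (h0 : 0 ≤ G 0)
    (hθ : 0 ≤ θ) : N * G 0 ≤ N * (b + D) + θ * M := by
  have key : ∀ n : ℕ, n ≤ N → n * G 0 ≤ n * (b + D) + θ * (G n - G 0) := by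
    intro n
    induction n with
    | zero => intro _; simp
    | succ n ih =>
      intro hn
      have h1 := ih (by omega)
      have h2 := h n (by omega)
      have h3 := hmono n
      push_cast
      linarith
  have h1 := key N le_rfl
  have h2 : θ * (G N - G 0) ≤ θ * M := mul_le_mul_of_nonneg_left (by linarith) hθ
  linarith

/-- from vanishing integrals to vanishing function -/
lemma eq_zero_of_int {J : ℝ × ℝ → ℝ} {a b c d : ℝ} (hc : ContinuousOn J (Ioo a b ×ˢ Ioo c d))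
    (hi : IntegrableOn J (Ioc a b ×ˢ Ioc c d)) (hn : ∀ z ∈ Ioc a b ×ˢ Ioc c d, 0 ≤ J z)
    (h0 : ∫ z in Ioc a b ×ˢ Ioc c d, J z ≤ 0) : ∀ z ∈ Ioo a b ×ˢ Ioo c d, J z = 0 := by
  have m : MeasurableSet (Ioc a b ×ˢ Ioc c d : Set (ℝ × ℝ)) :=
    measurableSet_Ioc.prod measurableSet_Ioc
  have hnn : 0 ≤ᵐ[volume.restrict (Ioc a b ×ˢ Ioc c d)] J :=
    (ae_restrict_iff' m).2 (Eventually.of_forall hn)
  have h1 : ∫ z in Ioc a b ×ˢ Ioc c d, J z = 0 :=
    le_antisymm h0 (setIntegral_nonneg m hn)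
  have h2 := (setIntegral_eq_zero_iff_of_nonneg_ae hnn hi).1 h1
  have h3 : J =ᵐ[volume.restrict (Ioo a b ×ˢ Ioo c d)] fun _ => 0 :=
    ae_restrict_of_ae_restrict_of_subset (prod_mono Ioo_subset_Ioc_self Ioo_subset_Ioc_self) h2
  exact MeasureTheory.Measure.eqOn_open_of_ae_eq h3 (isOpen_Ioo.prod isOpen_Ioo) hc
    continuousOn_const

section plane

/-- the energy Liouville theorem in the plane -/
theorem energy_plane {P Q p1 p2 q1 q2 : ℝ → ℝ → ℝ} {B c K : ℝ} (hc : 0 < c)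
    (hP1 : ∀ x y, HasDerivAt (fun s => P s y) (p1 x y) x)
    (hP2 : ∀ x y, HasDerivAt (fun s => P x s) (p2 x y) y)
    (hQ1 : ∀ x y, HasDerivAt (fun s => Q s y) (q1 x y) x)
    (hQ2 : ∀ x y, HasDerivAt (fun s => Q x s) (q2 x y) y)
    (cP : Continuous (uncurry P)) (cQ : Continuous (uncurry Q))
    (cp1 : Continuous (uncurry p1)) (cp2 : Continuous (uncurry p2))
    (cq1 : Continuous (uncurry q1)) (cq2 : Continuous (uncurry q2))
    (bP : ∀ x y, |P x y| ≤ B) (_bq : ∀ x y, |q1 x y| ≤ K ∧ |q2 x y| ≤ K)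
    (J : ∀ x y, c * (p1 x y ^ 2 + p2 x y ^ 2 + q1 x y ^ 2 + q2 x y ^ 2)
      ≤ p1 x y * q2 x y - p2 x y * q1 x y) :
    ∀ x y, p1 x y = 0 ∧ p2 x y = 0 ∧ q1 x y = 0 ∧ q2 x y = 0 := by
  obtain ⟨χ, χ', c1, hχ⟩ := exists_cut
  set J0 : ℝ × ℝ → ℝ := fun z => p1 z.1 z.2 * q2 z.1 z.2 - p2 z.1 z.2 * q1 z.1 z.2 with hJ0
  have cJ0 : Continuous J0 := (cp1.mul cq2).sub (cp2.mul cq1)
  have hJnn : ∀ z, 0 ≤ J0 z := by
    intro z
    have := J z.1 z.2
    have h2 : 0 ≤ c * (p1 z.1 z.2 ^ 2 + p2 z.1 z.2 ^ 2 + q1 z.1 z.2 ^ 2 + q2 z.1 z.2 ^ 2) := by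
      positivity
    exact h2.trans this
  set D : ℝ := 16 * B ^ 2 * c1 ^ 2 with hD
  have hD0 : 0 ≤ D := by rw [hD]; positivity
  set F : ℝ → ℝ := fun R => ∫ z in Ioc (-R) R ×ˢ Ioc (-R) R, J0 z with hF
  have hFnn : ∀ R, 0 ≤ F R := fun R =>
    setIntegral_nonneg (measurableSet_Ioc.prod measurableSet_Ioc) fun z _ => hJnn z
  have hen : ∀ R, 0 < R → ∀ s, 0 < s → ∃ E, F R ≤ E ∧ E ≤ F (2 * R) ∧
      E ≤ D * s + 2 / (c * s) * (E - F R) := by
    intro R hR s hs
    obtain ⟨E, h1, h2, h3⟩ := energy_ineq (R := R) (s := s) (a := -(2 * R)) (b := -R) (β0 := 0)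
      hχ hc hR hs (by linarith) le_rfl le_rfl (by linarith) hP1 hP2 hQ1 hQ2 cP cp1 cp2 cQ cq1 cq2
      (fun x y _ => bP x y) (fun x y _ => J x y) (by
        intro x
        rw [hχ.zero, zero_mul]
        rw [neg_div, mul_div_assoc, div_self hR.ne', mul_one, abs_neg, abs_two])
    refine ⟨E, h1, h2, ?_⟩
    rw [mul_zero, zero_add] at h3
    exact h3
  have hFmono : ∀ R R', 0 < R → R ≤ R' → F R ≤ F R' := by
    intro R R' hR hRR'
    refine setIntegral_mono_set (rect_integrable cJ0 _ _ _ _) (Eventually.of_forall hJnn) ?_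
    exact (prod_mono (Ioc_subset_Ioc (by linarith) hRR')
      (Ioc_subset_Ioc (by linarith) hRR')).eventuallyLE
  have hFbd : ∀ R, 0 < R → F R ≤ 8 * D / c := by
    intro R hR
    obtain ⟨E, h1, -, h3⟩ := hen R hR (4 / c) (by positivity)
    have e : 2 / (c * (4 / c)) = 1 / 2 := by field_simp; norm_num
    rw [e] at h3
    have := hFnn R
    have e2 : D * (4 / c) = 4 * D / c := by ring
    have e3 : 8 * D / c = 2 * (4 * D / c) := by ring
    rw [e3]
    linarith
  -- iteration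
  have hzero : ∀ r, 0 < r → F r ≤ 0 := by
    intro r hr
    have hs : ∀ s, 0 < s → F r ≤ D * s := by
      intro s hs
      have hN : ∀ N : ℕ, F r ≤ D * s + 2 / (c * s) * (8 * D / c) * (1 / ((N : ℝ) + 1)) := by
        intro N
        have := iter (G := fun j => F (2 ^ j * r)) (b := 0) (D := D * s) (θ := 2 / (c * s))
          (M := 8 * D / c) (N := N + 1)
          (fun j => hFmono _ _ (by positivity) (by
            have : (1 : ℝ) ≤ 2 ^ j := one_le_pow₀ (by norm_num)
            rw [pow_zero]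
            exact mul_le_mul_of_nonneg_right this hr.le))
          (fun j _ => by
            obtain ⟨E, h1, h2, h3⟩ := hen (2 ^ j * r) (by positivity) s hs
            have e : 2 * (2 ^ j * r) = 2 ^ (j + 1) * r := by ring
            rw [e] at h2
            have h4 : 2 / (c * s) * (E - F (2 ^ j * r))
                ≤ 2 / (c * s) * (F (2 ^ (j + 1) * r) - F (2 ^ j * r)) :=
              mul_le_mul_of_nonneg_left (by linarith) (by positivity)
            linarith)
          (hFbd _ (by positivity)) (hFnn _) (by positivity)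
        rw [pow_zero, one_mul] at this
        push_cast at this
        have hpos : (0 : ℝ) < (N : ℝ) + 1 := by positivity
        have h5 : F r * ((N : ℝ) + 1) ≤ (D * s + 2 / (c * s) * (8 * D / c) * (1 / ((N : ℝ) + 1)))
            * ((N : ℝ) + 1) := by
          have e : (D * s + 2 / (c * s) * (8 * D / c) * (1 / ((N : ℝ) + 1))) * ((N : ℝ) + 1)
              = ((N : ℝ) + 1) * (0 + D * s) + 2 / (c * s) * (8 * D / c) := by
            field_simp; ring
          rw [e]; linarith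
        exact le_of_mul_le_mul_right h5 hpos
      have hlim : Tendsto (fun N : ℕ => D * s + 2 / (c * s) * (8 * D / c) * (1 / ((N : ℝ) + 1)))
          atTop (𝓝 (D * s + 2 / (c * s) * (8 * D / c) * 0)) :=
        tendsto_const_nhds.add (tendsto_const_nhds.mul tendsto_one_div_add_atTop_nhds_zero_nat)
      have := ge_of_tendsto' hlim hN
      rwa [mul_zero, add_zero] at this
    have hlim : Tendsto (fun N : ℕ => D * (1 / ((N : ℝ) + 1))) atTop (𝓝 (D * 0)) :=
      tendsto_const_nhds.mul tendsto_one_div_add_atTop_nhds_zero_nat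
    have := ge_of_tendsto' hlim fun N => hs _ (by positivity)
    rwa [mul_zero] at this
  intro x y
  set r := |x| + |y| + 1 with hr
  have hr0 : 0 < r := by positivity
  have hz : J0 (x, y) = 0 := by
    refine eq_zero_of_int (a := -r) (b := r) (c := -r) (d := r) cJ0.continuousOn
      (rect_integrable cJ0 _ _ _ _) (fun z _ => hJnn z) (hzero r hr0) (x, y) ?_
    have h1 := abs_nonneg x
    have h2 := abs_nonneg y
    refine ⟨?_, ?_⟩
    · show x ∈ Ioo (-r) r
      rw [mem_Ioo, ← abs_lt]; linarith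
    · show y ∈ Ioo (-r) r
      rw [mem_Ioo, ← abs_lt]; linarith
  have h1 := J x y
  simp only [hJ0] at hz
  rw [hz] at h1
  have h2 : p1 x y ^ 2 + p2 x y ^ 2 + q1 x y ^ 2 + q2 x y ^ 2 ≤ 0 := by
    by_contra h
    push Not at h
    have := mul_pos hc h
    linarith
  have e1 := sq_nonneg (p1 x y)
  have e2 := sq_nonneg (p2 x y)
  have e3 := sq_nonneg (q1 x y)
  have e4 := sq_nonneg (q2 x y)
  refine ⟨?_, ?_, ?_, ?_⟩ <;> refine pow_eq_zero_iff two_ne_zero |>.1 ?_ <;> linarith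

end plane

end Pool.Agent.Lib44.EN
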