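import Pool.Agent.Lib_helper44.AQ.F3

/-! Module F, part 4: the energy Liouville theorem in the half plane. -/

namespace Pool.Agent.Lib44.EN

open Set Filter Topology MeasureTheory intervalIntegral Function

/-- a `C¹` reparametrisation which is the identity above `κ` and positive everywhere -/
lemma exists_psi {κ : ℝ} (hκ : 0 < κ) : ∃ ψ ψ' : ℝ → ℝ, (∀ y, HasDerivAt ψ (ψ' y) y) ∧
    Continuous ψ' ∧ (∀ y, 0 < ψ y) ∧ (∀ y, κ ≤ y → ψ y = y) ∧ ∀ y, κ ≤ y → ψ' y = 1 := by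
  set g : ℝ → ℝ := fun s => min 1 (Real.exp ((s - κ) / κ)) with hg
  have cg : Continuous g := by fun_prop
  have ig : ∀ a b, IntervalIntegrable g volume a b := fun a b => cg.intervalIntegrable a b
  refine ⟨fun y => κ + ∫ s in κ..y, g s, g, ?_, cg, ?_, ?_, ?_⟩
  · intro y
    have := intervalIntegral.integral_hasDerivAt_right (ig κ y)
      cg.stronglyMeasurable.stronglyMeasurableAtFilter cg.continuousAt
    exact this.const_add κ
  · intro y
    rcases le_total κ y with h | h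
    · have : 0 ≤ ∫ s in κ..y, g s := by
        apply intervalIntegral.integral_nonneg h
        intro s _
        exact le_min zero_le_one (Real.exp_pos _).le
      linarith
    · have h1 : ∫ s in y..κ, g s ≤ ∫ s in y..κ, Real.exp ((s - κ) / κ) := by
        apply intervalIntegral.integral_mono_on h (ig _ _)
        · exact Continuous.intervalIntegrable (by fun_prop) _ _
        · intro s _; exact min_le_right _ _
      have h2 : ∫ s in y..κ, Real.exp ((s - κ) / κ) = κ - κ * Real.exp ((y - κ) / κ) := by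
        have := intervalIntegral.integral_eq_sub_of_hasDerivAt
          (f := fun s => κ * Real.exp ((s - κ) / κ)) (f' := fun s => Real.exp ((s - κ) / κ))
          (a := y) (b := κ) (fun s _ => by
            have h1 := (((hasDerivAt_id s).sub_const κ).div_const κ).exp.const_mul κ
            refine h1.congr_deriv ?_
            simp only [id]
            field_simp)
          (Continuous.intervalIntegrable (by fun_prop) _ _)
        rw [this, sub_self, zero_div, Real.exp_zero, mul_one]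
      have h3 : ∫ s in κ..y, g s = - ∫ s in y..κ, g s := intervalIntegral.integral_symm _ _
      have h4 : 0 < κ * Real.exp ((y - κ) / κ) := by positivity
      show 0 < κ + ∫ s in κ..y, g s
      rw [h3]; linarith
  · intro y hy
    have h1 : ∫ s in κ..y, g s = ∫ _s in κ..y, (1 : ℝ) := by
      apply intervalIntegral.integral_congr
      intro s hs
      rw [uIcc_of_le hy] at hs
      simp only [hg]
      apply min_eq_left
      rw [Real.one_le_exp_iff]
      exact div_nonneg (by linarith [hs.1]) hκ.le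
    show κ + ∫ s in κ..y, g s = y
    rw [h1]
    simp
  · intro y hy
    simp only [hg]
    apply min_eq_left
    rw [Real.one_le_exp_iff]
    exact div_nonneg (by linarith) hκ.le

section half

variable {P Q p1 p2 q1 q2 : ℝ → ℝ → ℝ} {B c K α : ℝ}

/-- the energy inequality in the half plane -/
lemma energy_half_ineq {χ χ' : ℝ → ℝ} {c1 : ℝ} (hχ : Cut χ χ' c1) (hc : 0 < c)
    (hP1 : ∀ x y, 0 < y → HasDerivAt (fun s => P s y) (p1 x y) x)
    (hP2 : ∀ x y, 0 < y → HasDerivAt (fun s => P x s) (p2 x y) y)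
    (hQ1 : ∀ x y, 0 < y → HasDerivAt (fun s => Q s y) (q1 x y) x)
    (hQ2 : ∀ x y, 0 < y → HasDerivAt (fun s => Q x s) (q2 x y) y)
    (cP : ContinuousOn (uncurry P) {z : ℝ × ℝ | 0 < z.2})
    (cQ : ContinuousOn (uncurry Q) {z : ℝ × ℝ | 0 < z.2})
    (cp1 : ContinuousOn (uncurry p1) {z : ℝ × ℝ | 0 < z.2})
    (cp2 : ContinuousOn (uncurry p2) {z : ℝ × ℝ | 0 < z.2})
    (cq1 : ContinuousOn (uncurry q1) {z : ℝ × ℝ | 0 < z.2})
    (cq2 : ContinuousOn (uncurry q2) {z : ℝ × ℝ | 0 < z.2})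
    (bP : ∀ x y, 0 < y → |P x y| ≤ B)
    (bq : ∀ x y, 0 < y → |q1 x y| ≤ K ∧ |q2 x y| ≤ K)
    (bd : ∀ x y, 0 < y → |P x y| ≤ K * y ^ α)
    (J : ∀ x y, 0 < y → c * (p1 x y ^ 2 + p2 x y ^ 2 + q1 x y ^ 2 + q2 x y ^ 2)
      ≤ p1 x y * q2 x y - p2 x y * q1 x y) {κ R s : ℝ} (hκ : 0 < κ) (hR : 0 < R) (hs : 0 < s)
    (hκR : κ ≤ R) :
    ∃ E : ℝ, (∫ z in Ioc (-R) R ×ˢ Ioc κ R, (p1 z.1 z.2 * q2 z.1 z.2 - p2 z.1 z.2 * q1 z.1 z.2)) ≤ E ∧
      E ≤ (∫ z in Ioc (-(2 * R)) (2 * R) ×ˢ Ioc κ (2 * R),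
        (p1 z.1 z.2 * q2 z.1 z.2 - p2 z.1 z.2 * q1 z.1 z.2)) ∧
      E ≤ 4 * R * (K ^ 2 * κ ^ α) + 16 * B ^ 2 * c1 ^ 2 * s + 2 / (c * s) *
        (E - ∫ z in Ioc (-R) R ×ˢ Ioc κ R, (p1 z.1 z.2 * q2 z.1 z.2 - p2 z.1 z.2 * q1 z.1 z.2)) := by
  obtain ⟨ψ, ψ', dψ, cψ', ψpos, ψid, ψ1⟩ := exists_psi hκ
  have cψ : Continuous ψ := by
    rw [continuous_iff_continuousAt]; exact fun t => (dψ t).continuousAt
  have hcomp : ∀ {f : ℝ → ℝ → ℝ}, ContinuousOn (uncurry f) {z : ℝ × ℝ | 0 < z.2} →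
      Continuous (uncurry fun x y => f x (ψ y)) := by
    intro f hf
    have : Continuous fun z : ℝ × ℝ => (z.1, ψ z.2) := by fun_prop
    exact hf.comp_continuous this fun z => ψpos z.2
  have cψ2 : Continuous (uncurry fun (_ : ℝ) y => ψ' y) := cψ'.comp continuous_snd
  have key := energy_ineq (P := fun x y => P x (ψ y)) (Q := fun x y => Q x (ψ y))
    (p1 := fun x y => p1 x (ψ y)) (p2 := fun x y => p2 x (ψ y) * ψ' y)
    (q1 := fun x y => q1 x (ψ y)) (q2 := fun x y => q2 x (ψ y) * ψ' y)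
    (R := R) (s := s) (a := κ) (b := κ) (β0 := K ^ 2 * κ ^ α) (B := B) (c := c)
    hχ hc hR hs le_rfl (by linarith) (by linarith) hκR
    (fun x y => hP1 x (ψ y) (ψpos y))
    (fun x y => (hP2 x (ψ y) (ψpos y)).comp y (dψ y))
    (fun x y => hQ1 x (ψ y) (ψpos y))
    (fun x y => (hQ2 x (ψ y) (ψpos y)).comp y (dψ y))
    (hcomp cP) (hcomp cp1) ((hcomp cp2).mul cψ2) (hcomp cQ) (hcomp cq1) ((hcomp cq2).mul cψ2)
    (fun x y _ => bP x (ψ y) (ψpos y))
    (fun x y hy => by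
      have hy0 : 0 < y := by linarith
      simp only [ψid y hy, ψ1 y hy, mul_one]
      exact J x y hy0)
    (by
      intro x
      simp only [ψid κ le_rfl]
      have e1 := bd x κ hκ
      have e2 := (bq x κ hκ).1
      have e3 : 0 ≤ K := (abs_nonneg _).trans e2
      rw [abs_mul]
      have e4 : |P x κ| * |q1 x κ| ≤ K * κ ^ α * K :=
        mul_le_mul e1 e2 (abs_nonneg _) (mul_nonneg e3 (Real.rpow_nonneg hκ.le _))
      calc χ (κ / R) * (|P x κ| * |q1 x κ|) ≤ 1 * (K * κ ^ α * K) :=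
            mul_le_mul (hχ.le1 _) e4 (by positivity) zero_le_one
        _ = K ^ 2 * κ ^ α := by ring)
  have hcong : ∀ a b d : ℝ, ∫ z in Ioc a b ×ˢ Ioc κ d,
      (p1 z.1 (ψ z.2) * (q2 z.1 (ψ z.2) * ψ' z.2) - p2 z.1 (ψ z.2) * ψ' z.2 * q1 z.1 (ψ z.2))
      = ∫ z in Ioc a b ×ˢ Ioc κ d, (p1 z.1 z.2 * q2 z.1 z.2 - p2 z.1 z.2 * q1 z.1 z.2) := by
    intro a b d
    refine setIntegral_congr_fun (measurableSet_Ioc.prod measurableSet_Ioc) fun z hz => ?_
    have hz2 : κ ≤ z.2 := hz.2.1.le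
    simp only [ψid _ hz2, ψ1 _ hz2, mul_one]
  simp only [hcong] at key
  exact key

/-- the energy Liouville theorem in the half plane -/
theorem energy_half {P Q p1 p2 q1 q2 : ℝ → ℝ → ℝ} {B c K α : ℝ} (hα : 0 < α) (hc : 0 < c)
    (hP1 : ∀ x y, 0 < y → HasDerivAt (fun s => P s y) (p1 x y) x)
    (hP2 : ∀ x y, 0 < y → HasDerivAt (fun s => P x s) (p2 x y) y)
    (hQ1 : ∀ x y, 0 < y → HasDerivAt (fun s => Q s y) (q1 x y) x)
    (hQ2 : ∀ x y, 0 < y → HasDerivAt (fun s => Q x s) (q2 x y) y)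
    (cP : ContinuousOn (uncurry P) {z : ℝ × ℝ | 0 < z.2})
    (cQ : ContinuousOn (uncurry Q) {z : ℝ × ℝ | 0 < z.2})
    (cp1 : ContinuousOn (uncurry p1) {z : ℝ × ℝ | 0 < z.2})
    (cp2 : ContinuousOn (uncurry p2) {z : ℝ × ℝ | 0 < z.2})
    (cq1 : ContinuousOn (uncurry q1) {z : ℝ × ℝ | 0 < z.2})
    (cq2 : ContinuousOn (uncurry q2) {z : ℝ × ℝ | 0 < z.2})
    (bP : ∀ x y, 0 < y → |P x y| ≤ B)
    (bq : ∀ x y, 0 < y → |q1 x y| ≤ K ∧ |q2 x y| ≤ K)
    (bd : ∀ x y, 0 < y → |P x y| ≤ K * y ^ α)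
    (J : ∀ x y, 0 < y → c * (p1 x y ^ 2 + p2 x y ^ 2 + q1 x y ^ 2 + q2 x y ^ 2)
      ≤ p1 x y * q2 x y - p2 x y * q1 x y) :
    ∀ x y, 0 < y → p1 x y = 0 ∧ p2 x y = 0 ∧ q1 x y = 0 ∧ q2 x y = 0 := by
  obtain ⟨χ, χ', c1, hχ⟩ := exists_cut
  set J0 : ℝ × ℝ → ℝ := fun z => p1 z.1 z.2 * q2 z.1 z.2 - p2 z.1 z.2 * q1 z.1 z.2 with hJ0
  have cJ0 : ContinuousOn J0 {z : ℝ × ℝ | 0 < z.2} := (cp1.mul cq2).sub (cp2.mul cq1)
  have hJnn : ∀ z : ℝ × ℝ, 0 < z.2 → 0 ≤ J0 z := by
    intro z hz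
    have := J z.1 z.2 hz
    have h2 : 0 ≤ c * (p1 z.1 z.2 ^ 2 + p2 z.1 z.2 ^ 2 + q1 z.1 z.2 ^ 2 + q2 z.1 z.2 ^ 2) := by
      positivity
    exact h2.trans this
  have iJ0 : ∀ a b κ d : ℝ, 0 < κ → IntegrableOn J0 (Ioc a b ×ˢ Ioc κ d) := by
    intro a b κ d hκ
    have h1 : ContinuousOn J0 (Icc a b ×ˢ Icc κ d) :=
      cJ0.mono fun z hz => lt_of_lt_of_le hκ hz.2.1
    exact (h1.integrableOn_compact (isCompact_Icc.prod isCompact_Icc)).mono_set
      (prod_mono Ioc_subset_Icc_self Ioc_subset_Icc_self)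
  set D : ℝ := 16 * B ^ 2 * c1 ^ 2 with hD
  have hD0 : 0 ≤ D := by rw [hD]; positivity
  set F : ℝ → ℝ → ℝ := fun κ R => ∫ z in Ioc (-R) R ×ˢ Ioc κ R, J0 z with hF
  have hFnn : ∀ κ R, 0 < κ → 0 ≤ F κ R := fun κ R hκ =>
    setIntegral_nonneg (measurableSet_Ioc.prod measurableSet_Ioc) fun z hz =>
      hJnn z (hκ.trans hz.2.1)
  have hen : ∀ κ R, 0 < κ → 0 < R → κ ≤ R → ∀ s, 0 < s → ∃ E, F κ R ≤ E ∧ E ≤ F κ (2 * R) ∧
      E ≤ 4 * R * (K ^ 2 * κ ^ α) + D * s + 2 / (c * s) * (E - F κ R) := by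
    intro κ R hκ hR hκR s hs
    exact energy_half_ineq hχ hc hP1 hP2 hQ1 hQ2 cP cQ cp1 cp2 cq1 cq2 bP bq bd J hκ hR hs hκR
  have hFmono : ∀ κ κ' R R', 0 < κ' → κ' ≤ κ → 0 < R → R ≤ R' → F κ R ≤ F κ' R' := by
    intro κ κ' R R' hκ' hκ hR hRR'
    refine setIntegral_mono_set (iJ0 _ _ _ _ hκ') ?_ ?_
    · exact (ae_restrict_iff' (measurableSet_Ioc.prod measurableSet_Ioc)).2
        (Eventually.of_forall fun z hz => hJnn z (hκ'.trans hz.2.1))
    · exact (prod_mono (Ioc_subset_Ioc (by linarith) hRR')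
        (Ioc_subset_Ioc hκ hRR')).eventuallyLE
  have hFbd : ∀ κ R, 0 < κ → 0 < R → κ ≤ R → F κ R ≤ 2 * (4 * R * (K ^ 2 * κ ^ α)) + 8 * D / c := by
    intro κ R hκ hR hκR
    obtain ⟨E, h1, -, h3⟩ := hen κ R hκ hR hκR (4 / c) (by positivity)
    have e : 2 / (c * (4 / c)) = 1 / 2 := by field_simp; norm_num
    rw [e] at h3
    have := hFnn κ R hκ
    have e2 : D * (4 / c) = 4 * D / c := by ring
    have e3 : 8 * D / c = 2 * (4 * D / c) := by ring
    rw [e3]
    linarith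
  -- iteration
  have hzero : ∀ κ0 r, 0 < κ0 → κ0 ≤ r → F κ0 r ≤ 0 := by
    intro κ0 r hκ0 hκr
    have hr : 0 < r := hκ0.trans_le hκr
    have hs : ∀ s, 0 < s → F κ0 r ≤ D * s := by
      intro s hs
      have hN : ∀ N : ℕ, F κ0 r ≤ D * s + 2 / (c * s) * (8 * D / c) * (1 / ((N : ℝ) + 1)) := by
        intro N
        have hpos : (0 : ℝ) < (N : ℝ) + 1 := by positivity
        set L : ℝ := 4 * (2 ^ (N + 1) * r) * K ^ 2 with hL
        have hL0 : 0 ≤ L := by rw [hL]; positivity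
        have hκ : ∀ κ, 0 < κ → κ ≤ κ0 → F κ0 r ≤ L * κ ^ α + D * s
            + 2 / (c * s) * (2 * (L * κ ^ α) + 8 * D / c) * (1 / ((N : ℝ) + 1)) := by
          intro κ hκ hκκ0
          have hκα : 0 ≤ κ ^ α := Real.rpow_nonneg hκ.le _
          have hpow : ∀ j : ℕ, κ ≤ 2 ^ j * r := by
            intro j
            have : (1 : ℝ) ≤ 2 ^ j := one_le_pow₀ (by norm_num)
            have := mul_le_mul_of_nonneg_right this hr.le
            linarith
          have := iter (G := fun j => F κ (2 ^ j * r)) (b := L * κ ^ α) (D := D * s)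
            (θ := 2 / (c * s)) (M := 2 * (L * κ ^ α) + 8 * D / c) (N := N + 1)
            (fun j => hFmono _ _ _ _ hκ le_rfl (by positivity) (by
              have : (1 : ℝ) ≤ 2 ^ j := one_le_pow₀ (by norm_num)
              rw [pow_zero]
              exact mul_le_mul_of_nonneg_right this hr.le))
            (fun j hj => by
              obtain ⟨E, h1, h2, h3⟩ := hen κ (2 ^ j * r) hκ (by positivity) (hpow j) s hs
              have e : 2 * (2 ^ j * r) = 2 ^ (j + 1) * r := by ring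
              rw [e] at h2
              have h4 : 2 / (c * s) * (E - F κ (2 ^ j * r))
                  ≤ 2 / (c * s) * (F κ (2 ^ (j + 1) * r) - F κ (2 ^ j * r)) :=
                mul_le_mul_of_nonneg_left (by linarith) (by positivity)
              have h5 : 4 * (2 ^ j * r) * (K ^ 2 * κ ^ α) ≤ L * κ ^ α := by
                have h6 : (2 : ℝ) ^ j ≤ 2 ^ (N + 1) :=
                  pow_le_pow_right₀ (by norm_num) (by omega)
                have h7 : (2 : ℝ) ^ j * r ≤ 2 ^ (N + 1) * r := mul_le_mul_of_nonneg_right h6 hr.le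
                have h8 : 0 ≤ K ^ 2 * κ ^ α := by positivity
                calc 4 * (2 ^ j * r) * (K ^ 2 * κ ^ α)
                    ≤ 4 * (2 ^ (N + 1) * r) * (K ^ 2 * κ ^ α) := by
                      refine mul_le_mul_of_nonneg_right ?_ h8
                      linarith
                  _ = L * κ ^ α := by rw [hL]; ring
              linarith)
            (by
              have h1 := hFbd κ (2 ^ (N + 1) * r) hκ (by positivity) (hpow _)
              have e : 4 * (2 ^ (N + 1) * r) * (K ^ 2 * κ ^ α) = L * κ ^ α := by rw [hL]; ring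
              rw [e] at h1
              exact h1)
            (hFnn _ _ hκ) (by positivity)
          rw [pow_zero, one_mul] at this
          push_cast at this
          have h0 : F κ0 r ≤ F κ r := hFmono _ _ _ _ hκ hκκ0 hr le_rfl
          have h5 : F κ r * ((N : ℝ) + 1) ≤ (L * κ ^ α + D * s
              + 2 / (c * s) * (2 * (L * κ ^ α) + 8 * D / c) * (1 / ((N : ℝ) + 1)))
              * ((N : ℝ) + 1) := by
            have e : (L * κ ^ α + D * s + 2 / (c * s) * (2 * (L * κ ^ α) + 8 * D / c)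
                * (1 / ((N : ℝ) + 1))) * ((N : ℝ) + 1)
                = ((N : ℝ) + 1) * (L * κ ^ α + D * s)
                  + 2 / (c * s) * (2 * (L * κ ^ α) + 8 * D / c) := by
              field_simp
            rw [e]; linarith
          exact h0.trans (le_of_mul_le_mul_right h5 hpos)
        -- let `κ → 0`
        have hlim0 : Tendsto (fun κ : ℝ => κ ^ α) (𝓝[>] 0) (𝓝 0) := by
          have := (Real.continuousAt_rpow_const 0 α (Or.inr hα.le)).tendsto
          rw [Real.zero_rpow hα.ne'] at this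
          exact this.mono_left nhdsWithin_le_nhds
        have hlim : Tendsto (fun κ : ℝ => L * κ ^ α + D * s
            + 2 / (c * s) * (2 * (L * κ ^ α) + 8 * D / c) * (1 / ((N : ℝ) + 1))) (𝓝[>] 0)
            (𝓝 (L * 0 + D * s
            + 2 / (c * s) * (2 * (L * 0) + 8 * D / c) * (1 / ((N : ℝ) + 1)))) :=
          ((hlim0.const_mul L).add_const _).add
            (((((hlim0.const_mul L).const_mul 2).add_const _).const_mul _).mul_const _)
        have hev : ∀ᶠ κ : ℝ in 𝓝[>] 0, F κ0 r ≤ L * κ ^ α + D * s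
            + 2 / (c * s) * (2 * (L * κ ^ α) + 8 * D / c) * (1 / ((N : ℝ) + 1)) := by
          filter_upwards [Ioc_mem_nhdsGT hκ0] with κ h1
          exact hκ κ h1.1 h1.2
        have := ge_of_tendsto hlim hev
        simpa using this
      have hlim : Tendsto (fun N : ℕ => D * s + 2 / (c * s) * (8 * D / c) * (1 / ((N : ℝ) + 1)))
          atTop (𝓝 (D * s + 2 / (c * s) * (8 * D / c) * 0)) :=
        tendsto_const_nhds.add (tendsto_const_nhds.mul tendsto_one_div_add_atTop_nhds_zero_nat)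
      have := ge_of_tendsto' hlim hN
      rwa [mul_zero, add_zero] at this
    have hlim : Tendsto (fun N : ℕ => D * (1 / ((N : ℝ) + 1))) atTop (𝓝 (D * 0)) :=
      tendsto_const_nhds.mul tendsto_one_div_add_atTop_nhds_zero_nat
    have := ge_of_tendsto' hlim fun N => hs _ (by positivity)
    rwa [mul_zero] at this
  intro x y hy
  set r := |x| + |y| + 1 with hr
  have hr0 : 0 < r := by positivity
  have h1x := abs_nonneg x
  have h2y := le_abs_self y
  have hz : J0 (x, y) = 0 := by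
    refine eq_zero_of_int (a := -r) (b := r) (c := y / 2) (d := r)
      (cJ0.mono fun z hz => lt_trans (half_pos hy) hz.2.1)
      (iJ0 _ _ _ _ (half_pos hy)) (fun z hz => hJnn z (lt_trans (half_pos hy) hz.2.1))
      (hzero (y / 2) r (half_pos hy) (by rw [hr]; linarith)) (x, y) ?_
    refine ⟨?_, ?_⟩
    · show x ∈ Ioo (-r) r
      rw [mem_Ioo, ← abs_lt]
      have := abs_nonneg y
      linarith
    · show y ∈ Ioo (y / 2) r
      exact ⟨by linarith, by linarith⟩
  have h1 := J x y hy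
  simp only [hJ0] at hz
  rw [hz] at h1
  have h2 : p1 x y ^ 2 + p2 x y ^ 2 + q1 x y ^ 2 + q2 x y ^ 2 ≤ 0 := by
    by_contra h
    push Not at h
    have := mul_pos hc h
    linarith
  have e1 := sq_nonneg (p1 x y)
  have e2 := sq_nonneg (p2 x y)
  have e3 := sq_nonneg (q1 x y)
  have e4 := sq_nonneg (q2 x y)
  refine ⟨?_, ?_, ?_, ?_⟩ <;> refine pow_eq_zero_iff two_ne_zero |>.1 ?_ <;> linarith

end half

end Pool.Agent.Lib44.EN
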