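import Pool.Agent.Lib_helper44.AQ.F4
import Pool.Agent.Lib_helper42.AQ.Defs

/-! Module G: Liouville theorems for limit objects. -/

namespace Pool.Agent.Lib44.EN

open AQ Set Filter Topology Function

/-- the two energy theorems in one statement -/
theorem energy_I {P Q p1 p2 q1 q2 : ℝ → ℝ → ℝ} {B c K α : ℝ} {I : Set ℝ} (hα : 0 < α) (hc : 0 < c)
    (hI : I = univ ∨ (I = Ioi 0 ∧ ∀ x y, 0 < y → |P x y| ≤ K * y ^ α))
    (hP1 : ∀ x, ∀ y ∈ I, HasDerivAt (fun s => P s y) (p1 x y) x)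
    (hP2 : ∀ x, ∀ y ∈ I, HasDerivAt (fun s => P x s) (p2 x y) y)
    (hQ1 : ∀ x, ∀ y ∈ I, HasDerivAt (fun s => Q s y) (q1 x y) x)
    (hQ2 : ∀ x, ∀ y ∈ I, HasDerivAt (fun s => Q x s) (q2 x y) y)
    (cP : ContinuousOn (uncurry P) {z : ℝ × ℝ | z.2 ∈ I})
    (cQ : ContinuousOn (uncurry Q) {z : ℝ × ℝ | z.2 ∈ I})
    (cp1 : ContinuousOn (uncurry p1) {z : ℝ × ℝ | z.2 ∈ I})
    (cp2 : ContinuousOn (uncurry p2) {z : ℝ × ℝ | z.2 ∈ I})
    (cq1 : ContinuousOn (uncurry q1) {z : ℝ × ℝ | z.2 ∈ I})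
    (cq2 : ContinuousOn (uncurry q2) {z : ℝ × ℝ | z.2 ∈ I})
    (bP : ∀ x, ∀ y ∈ I, |P x y| ≤ B) (bq : ∀ x, ∀ y ∈ I, |q1 x y| ≤ K ∧ |q2 x y| ≤ K)
    (J : ∀ x, ∀ y ∈ I, c * (p1 x y ^ 2 + p2 x y ^ 2 + q1 x y ^ 2 + q2 x y ^ 2)
      ≤ p1 x y * q2 x y - p2 x y * q1 x y) :
    ∀ x, ∀ y ∈ I, p1 x y = 0 ∧ p2 x y = 0 ∧ q1 x y = 0 ∧ q2 x y = 0 := by
  rcases hI with rfl | ⟨rfl, bd⟩
  · have e : {z : ℝ × ℝ | z.2 ∈ (univ : Set ℝ)} = univ := by ext z; simp
    rw [e] at cP cQ cp1 cp2 cq1 cq2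
    rw [continuousOn_univ] at cP cQ cp1 cp2 cq1 cq2
    intro x y _
    exact energy_plane hc (fun x y => hP1 x y (mem_univ _)) (fun x y => hP2 x y (mem_univ _))
      (fun x y => hQ1 x y (mem_univ _)) (fun x y => hQ2 x y (mem_univ _)) cP cQ cp1 cp2 cq1 cq2
      (fun x y => bP x y (mem_univ _)) (fun x y => bq x y (mem_univ _))
      (fun x y => J x y (mem_univ _)) x y
  · intro x y hy
    exact energy_half hα hc hP1 hP2 hQ1 hQ2 cP cQ cp1 cp2 cq1 cq2 bP bq bd J x y hy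

lemma rpow_tendsto_zero {α : ℝ} (hα : 0 < α) {X : Type*} [PseudoMetricSpace X] (x : X) :
    Tendsto (fun y => dist y x ^ α) (𝓝 x) (𝓝 0) := by
  have h1 : Tendsto (fun y => dist y x) (𝓝 x) (𝓝 0) := by
    have := (continuous_id.dist (continuous_const (y := x))).tendsto x
    simpa using this
  have h2 := (Real.continuousAt_rpow_const 0 α (Or.inr hα.le)).tendsto
  rw [Real.zero_rpow hα.ne'] at h2
  exact h2.comp h1

lemma cont_of_hol {H : Set (ℝ × ℝ)} {f : ℝ × ℝ → ℝ} {C α : ℝ} (hα : 0 < α)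
    (h : ∀ x ∈ H, ∀ y ∈ H, |f x - f y| ≤ C * dist x y ^ α) : ContinuousOn f H := by
  intro x hx
  rw [ContinuousWithinAt, tendsto_iff_dist_tendsto_zero]
  have h1 : Tendsto (fun y => C * dist y x ^ α) (𝓝[H] x) (𝓝 (C * 0)) :=
    ((rpow_tendsto_zero hα x).mono_left nhdsWithin_le_nhds).const_mul C
  rw [mul_zero] at h1
  refine squeeze_zero' (Eventually.of_forall fun _ => dist_nonneg) ?_ h1
  filter_upwards [self_mem_nhdsWithin] with y hy
  rw [Real.dist_eq]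
  exact h y hy x hx

lemma hasDerivAt_of_taylor {f : ℝ → ℝ} {d C α x : ℝ} (hα : 0 < α)
    (h : ∀ᶠ y in 𝓝 x, |f y - f x - d * (y - x)| ≤ C * dist x y ^ (1 + α)) : HasDerivAt f d x := by
  rw [hasDerivAt_iff_tendsto]
  have h1 : Tendsto (fun y => |C| * dist y x ^ α) (𝓝 x) (𝓝 (|C| * 0)) :=
    (rpow_tendsto_zero hα x).const_mul _
  rw [mul_zero] at h1
  refine squeeze_zero' (Eventually.of_forall fun _ => by positivity) ?_ h1
  filter_upwards [h] with y hy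
  have e : f y - f x - (y - x) • d = f y - f x - d * (y - x) := by
    rw [smul_eq_mul, mul_comm]
  rw [e, Real.norm_eq_abs, Real.norm_eq_abs]
  rw [dist_comm x y] at hy
  rcases eq_or_lt_of_le (abs_nonneg (y - x)) with h0 | h0
  · rw [← h0, inv_zero, zero_mul]; positivity
  · have e1 : dist y x = |y - x| := Real.dist_eq y x
    rw [e1, Real.rpow_add h0, Real.rpow_one] at hy
    rw [e1, inv_mul_le_iff₀ h0]
    calc |f y - f x - d * (y - x)| ≤ C * (|y - x| * |y - x| ^ α) := hy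
      _ ≤ |C| * (|y - x| * |y - x| ^ α) :=
          mul_le_mul_of_nonneg_right (le_abs_self C) (by positivity)
      _ = |y - x| * (|C| * |y - x| ^ α) := by ring

section slices

variable {α C : ℝ} {I : Set ℝ} {g a b : ℝ × ℝ → ℝ}

lemma slice1 (hα : 0 < α)
    (ht : ∀ x ∈ {z : ℝ × ℝ | z.2 ∈ I}, ∀ y ∈ {z : ℝ × ℝ | z.2 ∈ I},
      |g y - g x - (a x * (y.1 - x.1) + b x * (y.2 - x.2))| ≤ C * dist x y ^ (1 + α))
    (x y : ℝ) (hy : y ∈ I) : HasDerivAt (fun s => g (s, y)) (a (x, y)) x := by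
  apply hasDerivAt_of_taylor (C := C) hα
  refine Eventually.of_forall fun s => ?_
  have := ht (x, y) hy (s, y) hy
  have e : dist (x, y) (s, y) = dist x s := by
    rw [Prod.dist_eq, dist_self]; exact max_eq_left dist_nonneg
  rw [e] at this
  simpa using this

lemma slice2 (hα : 0 < α) (hI : IsOpen I)
    (ht : ∀ x ∈ {z : ℝ × ℝ | z.2 ∈ I}, ∀ y ∈ {z : ℝ × ℝ | z.2 ∈ I},
      |g y - g x - (a x * (y.1 - x.1) + b x * (y.2 - x.2))| ≤ C * dist x y ^ (1 + α))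
    (x y : ℝ) (hy : y ∈ I) : HasDerivAt (fun s => g (x, s)) (b (x, y)) y := by
  apply hasDerivAt_of_taylor (C := C) hα
  filter_upwards [hI.mem_nhds hy] with s hs
  have := ht (x, y) hy (x, s) hs
  have e : dist (x, y) (x, s) = dist y s := by
    rw [Prod.dist_eq, dist_self]; exact max_eq_right dist_nonneg
  rw [e] at this
  simpa using this

lemma cont_of_taylor (hα : 0 < α)
    (ht : ∀ x ∈ {z : ℝ × ℝ | z.2 ∈ I}, ∀ y ∈ {z : ℝ × ℝ | z.2 ∈ I},
      |g y - g x - (a x * (y.1 - x.1) + b x * (y.2 - x.2))| ≤ C * dist x y ^ (1 + α)) :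
    ContinuousOn g {z : ℝ × ℝ | z.2 ∈ I} := by
  intro x hx
  rw [ContinuousWithinAt]
  have hle : 𝓝[{z : ℝ × ℝ | z.2 ∈ I}] x ≤ 𝓝 x := nhdsWithin_le_nhds
  have h1 : Tendsto (fun y : ℝ × ℝ => C * dist y x ^ (1 + α)) (𝓝[{z : ℝ × ℝ | z.2 ∈ I}] x)
      (𝓝 (C * 0)) := ((rpow_tendsto_zero (by linarith) x).mono_left hle).const_mul C
  rw [mul_zero] at h1
  have h2 : Tendsto (fun y : ℝ × ℝ => g y - g x - (a x * (y.1 - x.1) + b x * (y.2 - x.2)))
      (𝓝[{z : ℝ × ℝ | z.2 ∈ I}] x) (𝓝 0) := by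
    rw [tendsto_zero_iff_abs_tendsto_zero]
    refine squeeze_zero' (Eventually.of_forall fun _ => abs_nonneg _) ?_ h1
    filter_upwards [self_mem_nhdsWithin] with y hy
    simp only [Function.comp_apply]
    rw [dist_comm]
    exact ht x hx y hy
  have h3 : Tendsto (fun y : ℝ × ℝ => g x + (a x * (y.1 - x.1) + b x * (y.2 - x.2)))
      (𝓝[{z : ℝ × ℝ | z.2 ∈ I}] x) (𝓝 (g x)) := by
    have : Continuous fun y : ℝ × ℝ => g x + (a x * (y.1 - x.1) + b x * (y.2 - x.2)) := by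
      fun_prop
    have h4 := (this.tendsto x).mono_left hle
    simpa using h4
  have h5 := h2.add h3
  rw [zero_add] at h5
  refine h5.congr fun y => ?_
  ring

end slices

/-- if `h` depends only on `y` then `h11`, `h12` are constant -/
lemma const_of_horizontal {α C : ℝ} {I : Set ℝ} {G1 G2 h11 h12 h22 : ℝ × ℝ → ℝ} (hα : 0 < α)
    (hI : IsOpen I) (hIp : IsPreconnected I)
    (hL : LO {z : ℝ × ℝ | z.2 ∈ I} α C G1 G2 h11 h12 h22)
    (h1 : ∀ x x' y : ℝ, y ∈ I → h11 (x, y) = h11 (x', y))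
    (h2 : ∀ x x' y : ℝ, y ∈ I → h12 (x, y) = h12 (x', y))
    (h3 : ∀ x x' y : ℝ, y ∈ I → h22 (x, y) = h22 (x', y)) :
    ∀ x y : ℝ × ℝ, x.2 ∈ I → y.2 ∈ I → h11 x = h11 y ∧ h12 x = h12 y := by
  have main : ∀ (g a b : ℝ × ℝ → ℝ),
      (∀ x ∈ {z : ℝ × ℝ | z.2 ∈ I}, ∀ y ∈ {z : ℝ × ℝ | z.2 ∈ I},
        |g y - g x - (a x * (y.1 - x.1) + b x * (y.2 - x.2))| ≤ C * dist x y ^ (1 + α)) →
      (∀ x x' y : ℝ, y ∈ I → a (x, y) = a (x', y)) → (∀ x x' y : ℝ, y ∈ I → b (x, y) = b (x', y)) →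
      ∀ x y : ℝ × ℝ, x.2 ∈ I → y.2 ∈ I → a x = a y := by
    intro g a b ht ha hb
    -- `g (1,y) - g (0,y) = a (0,y)`
    have e1 : ∀ y ∈ I, g (1, y) - g (0, y) = a (0, y) := by
      intro y hy
      have hd : ∀ s : ℝ, HasDerivAt (fun s => g (s, y) - s * a (0, y)) 0 s := by
        intro s
        have k1 := slice1 hα ht s y hy
        have k2 := (hasDerivAt_id s).mul_const (a (0, y))
        have k3 := k1.sub k2
        rw [ha s 0 y hy, one_mul, sub_self] at k3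
        exact k3
      have := is_const_of_deriv_eq_zero (fun s => (hd s).differentiableAt)
        (fun s => (hd s).deriv) 1 0
      simp only [one_mul, zero_mul, sub_zero] at this
      linarith
    have e2 : ∀ y ∈ I, ∀ y' ∈ I, a (0, y) = a (0, y') := by
      intro y hy y' hy'
      rw [← e1 y hy, ← e1 y' hy']
      have hd : ∀ s ∈ I, HasDerivAt (fun s => g (1, s) - g (0, s)) 0 s := by
        intro s hs
        have k1 := slice2 hα hI ht 1 s hs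
        have k2 := slice2 hα hI ht 0 s hs
        have k3 := k1.sub k2
        rw [hb 1 0 s hs, sub_self] at k3
        exact k3
      exact hI.is_const_of_deriv_eq_zero hIp
        (fun s hs => (hd s hs).differentiableAt.differentiableWithinAt)
        (fun s hs => (hd s hs).deriv) hy hy'
    intro x y hx hy
    have k1 : a x = a (0, x.2) := ha x.1 0 x.2 hx
    have k2 : a y = a (0, y.2) := ha y.1 0 y.2 hy
    rw [k1, k2]
    exact e2 _ hx _ hy
  intro x y hx hy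
  exact ⟨main G1 h11 h12 hL.t1 h1 h2 x y hx hy, main G2 h12 h22 hL.t2 h2 h3 x y hx hy⟩

end Pool.Agent.Lib44.EN
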