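import Pool.Agent.Lib_helper44.AQ.G1

/-! Module G, part 2: the linear and the nonlinear Liouville theorem. -/

namespace Pool.Agent.Lib44.EN

open AQ Set Filter Topology Function

/-- second horizontal difference -/
def dd (s t : ℝ) (f : ℝ × ℝ → ℝ) (x y : ℝ) : ℝ :=
  (f (x + s + t, y) - f (x + s, y)) - (f (x + t, y) - f (x, y))

section dd

variable {I : Set ℝ} {f f' : ℝ × ℝ → ℝ} {s t : ℝ}

lemma dd_der1 (h : ∀ x, ∀ y ∈ I, HasDerivAt (fun s => f (s, y)) (f' (x, y)) x) (x y : ℝ)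
    (hy : y ∈ I) : HasDerivAt (fun u => dd s t f u y) (dd s t f' x y) x := by
  have k1 : HasDerivAt (fun u => f (u + s + t, y)) (f' (x + s + t, y)) x := by
    have := ((h (x + s + t) y hy).comp_add_const (x + s) t).comp_add_const x s
    exact this
  have k2 : HasDerivAt (fun u => f (u + s, y)) (f' (x + s, y)) x :=
    (h (x + s) y hy).comp_add_const x s
  have k3 : HasDerivAt (fun u => f (u + t, y)) (f' (x + t, y)) x :=
    (h (x + t) y hy).comp_add_const x t
  exact (k1.sub k2).sub (k3.sub (h x y hy))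

lemma dd_der2 (h : ∀ x, ∀ y ∈ I, HasDerivAt (fun s => f (x, s)) (f' (x, y)) y) (x y : ℝ)
    (hy : y ∈ I) : HasDerivAt (fun u => dd s t f x u) (dd s t f' x y) y :=
  ((h (x + s + t) y hy).sub (h (x + s) y hy)).sub ((h (x + t) y hy).sub (h x y hy))

lemma shift_cont (h : ContinuousOn f {z : ℝ × ℝ | z.2 ∈ I}) (a : ℝ) :
    ContinuousOn (fun z : ℝ × ℝ => f (z.1 + a, z.2)) {z : ℝ × ℝ | z.2 ∈ I} := by
  have h2 : Continuous fun z : ℝ × ℝ => (z.1 + a, z.2) := by fun_prop
  exact h.comp h2.continuousOn (fun z hz => hz)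

lemma dd_cont (h : ContinuousOn f {z : ℝ × ℝ | z.2 ∈ I}) :
    ContinuousOn (uncurry (dd s t f)) {z : ℝ × ℝ | z.2 ∈ I} := by
  have e : uncurry (dd s t f) = fun z : ℝ × ℝ =>
      (f (z.1 + (s + t), z.2) - f (z.1 + s, z.2)) - (f (z.1 + t, z.2) - f (z.1, z.2)) := by
    ext z
    simp only [uncurry, dd]
    rw [add_assoc]
  rw [e]
  exact ((shift_cont h _).sub (shift_cont h _)).sub ((shift_cont h _).sub h)

end dd

/-- a function with vanishing second differences and a sublinear modulus is constant -/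
lemma const_of_dd {f : ℝ → ℝ} {C α : ℝ} (hα1 : α < 1)
    (h : ∀ x s t, (f (x + s + t) - f (x + s)) - (f (x + t) - f x) = 0)
    (hC : ∀ x y, |f x - f y| ≤ C * |x - y| ^ α) (x y : ℝ) : f x = f y := by
  set t := y - x with ht
  have hn : ∀ n : ℕ, f (x + n * t) - f x = n * (f (x + t) - f x) := by
    intro n
    induction n with
    | zero => simp
    | succ n ih =>
      have := h x (n * t) t
      have e : x + (↑(n + 1) : ℝ) * t = x + n * t + t := by push_cast; ring
      rw [e]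
      push_cast
      linarith
  have hb : ∀ n : ℕ, |f y - f x| ≤ C * |t| ^ α * ((n : ℝ) + 1) ^ (α - 1) := by
    intro n
    have h1 := hn (n + 1)
    have h2 := hC (x + ((n + 1 : ℕ) : ℝ) * t) x
    rw [h1] at h2
    have hp : (0 : ℝ) < (n : ℝ) + 1 := by positivity
    push_cast at h2
    rw [add_sub_cancel_left, abs_mul, abs_mul, abs_of_pos hp, Real.mul_rpow hp.le (abs_nonneg _)]
      at h2
    have e : x + t = y := by rw [ht]; ring
    rw [e] at h2
    rw [Real.rpow_sub_one hp.ne', mul_div_assoc', le_div_iff₀ hp]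
    linarith
  have hlim : Tendsto (fun n : ℕ => C * |t| ^ α * ((n : ℝ) + 1) ^ (α - 1)) atTop
      (𝓝 (C * |t| ^ α * 0)) := by
    refine Tendsto.const_mul _ ?_
    have h1 : Tendsto (fun x : ℝ => x ^ (-(1 - α))) atTop (𝓝 0) :=
      tendsto_rpow_neg_atTop (by linarith)
    have h2 : Tendsto (fun n : ℕ => (n : ℝ) + 1) atTop atTop :=
      tendsto_atTop_add_const_right _ _ tendsto_natCast_atTop_atTop
    have h3 := h1.comp h2
    refine h3.congr fun n => ?_
    simp only [Function.comp_apply]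
    congr 1; ring
  rw [mul_zero] at hlim
  have := ge_of_tendsto' hlim hb
  have h0 : |f y - f x| = 0 := le_antisymm this (abs_nonneg _)
  have := abs_eq_zero.1 h0
  linarith

lemma mvt_shift {f f' : ℝ → ℝ} {M : ℝ} (h : ∀ x, HasDerivAt f (f' x) x) (hM : ∀ x, |f' x| ≤ M)
    (x s : ℝ) : |f (x + s) - f x| ≤ M * |s| := by
  have := convex_univ.norm_image_sub_le_of_norm_hasDerivWithin_le (f := f) (f' := f') (C := M)
    (fun x _ => (h x).hasDerivWithinAt) (fun x _ => by rw [Real.norm_eq_abs]; exact hM x)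
    (mem_univ x) (mem_univ (x + s))
  rw [add_sub_cancel_left, Real.norm_eq_abs, Real.norm_eq_abs] at this
  exact this

lemma J_lin {a11 a12 a22 m11 m12 m22 : ℝ} (ha : 0 < a11) (hdet : 0 < a11 * a22 - a12 ^ 2)
    (h : a11 * m11 + 2 * (a12 * m12) + a22 * m22 = 0) :
    (a11 * a22 - a12 ^ 2) / (a11 + a22) ^ 2 * ((-m11) ^ 2 + (-m12) ^ 2 + m12 ^ 2 + m22 ^ 2)
      ≤ (-m11) * m22 - (-m12) * m12 := by
  have ha22 : 0 < a22 := by
    by_contra hn
    push Not at hn
    nlinarith [mul_nonneg ha.le (neg_nonneg.2 hn), sq_nonneg a12]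
  have hT : 0 < (a11 + a22) ^ 2 := by positivity
  rw [div_mul_eq_mul_div, div_le_iff₀ hT]
  have key : ((-m11) * m22 - (-m12) * m12) * (a11 + a22) ^ 2
      - (a11 * a22 - a12 ^ 2) * ((-m11) ^ 2 + (-m12) ^ 2 + m12 ^ 2 + m22 ^ 2)
      = (a11 * m11 + a12 * m12) ^ 2 + (a12 * m11 + a22 * m12) ^ 2 + (a11 * m12 + a12 * m22) ^ 2
        + (a12 * m12 + a22 * m22) ^ 2 := by
    linear_combination (-(a11 + a22) * (m11 + m22)) * h
  nlinarith [sq_nonneg (a11 * m11 + a12 * m12), sq_nonneg (a12 * m11 + a22 * m12),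
    sq_nonneg (a11 * m12 + a12 * m22), sq_nonneg (a12 * m12 + a22 * m22)]

end Pool.Agent.Lib44.EN
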