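import Pool.Agent.Lib_helper44.AQ.G2

/-! Module G, part 3: the linear Liouville theorems. -/

namespace Pool.Agent.Lib44.EN

open AQ Set Filter Topology Function

theorem lin_I {α C : ℝ} {G1 G2 h11 h12 h22 : ℝ × ℝ → ℝ} {I : Set ℝ} (hα0 : 0 < α) (hα1 : α < 1)
    (hI : I = univ ∨ (I = Ioi 0 ∧ ∀ x y : ℝ × ℝ, 0 < x.2 → 0 < y.2 →
      |h11 x - h11 y| ≤ C * (x.2 ^ α + y.2 ^ α)))
    (hL : LO {z : ℝ × ℝ | z.2 ∈ I} α C G1 G2 h11 h12 h22)
    {a11 a12 a22 : ℝ} (ha : 0 < a11) (hdet : 0 < a11 * a22 - a12 ^ 2)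
    (heq : ∀ x : ℝ × ℝ, x.2 ∈ I → a11 * h11 x + 2 * (a12 * h12 x) + a22 * h22 x = 0) :
    ∀ x y : ℝ × ℝ, x.2 ∈ I → y.2 ∈ I → h11 x = h11 y ∧ h12 x = h12 y ∧ h22 x = h22 y := by
  have hIo : IsOpen I := by
    rcases hI with rfl | ⟨rfl, -⟩
    · exact isOpen_univ
    · exact isOpen_Ioi
  have hIp : IsPreconnected I := by
    rcases hI with rfl | ⟨rfl, -⟩
    · exact isPreconnected_univ
    · exact isPreconnected_Ioi
  have h1I : (1 : ℝ) ∈ I := by
    rcases hI with rfl | ⟨rfl, -⟩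
    · exact mem_univ _
    · exact mem_Ioi.2 one_pos
  have hC : 0 ≤ C := by
    have := hL.l11 (0, 1) h1I (1, 1) h1I
    have e : dist ((0 : ℝ), (1 : ℝ)) (1, 1) = 1 := by simp [Prod.dist_eq]
    rw [e, Real.one_rpow, mul_one] at this
    exact (abs_nonneg _).trans this
  have ha22 : 0 < a22 := by
    by_contra hn
    push Not at hn
    nlinarith [mul_nonneg ha.le (neg_nonneg.2 hn), sq_nonneg a12]
  -- horizontal differences
  have hhor : ∀ f : ℝ × ℝ → ℝ, (∀ x ∈ {z : ℝ × ℝ | z.2 ∈ I}, ∀ y ∈ {z : ℝ × ℝ | z.2 ∈ I},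
      |f x - f y| ≤ C * dist x y ^ α) → ∀ x t y : ℝ, y ∈ I →
      |f (x + t, y) - f (x, y)| ≤ C * |t| ^ α := by
    intro f hf x t y hy
    have := hf (x + t, y) hy (x, y) hy
    have e : dist (x + t, y) (x, y) = |t| := by
      rw [Prod.dist_eq, dist_self, Real.dist_eq, add_sub_cancel_left]
      exact max_eq_left (abs_nonneg _)
    rwa [e] at this
  have c11 := cont_of_hol hα0 hL.l11
  have c12 := cont_of_hol hα0 hL.l12
  have c22 := cont_of_hol hα0 hL.l22
  have cG1 := cont_of_taylor hα0 hL.t1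
  have cG2 := cont_of_taylor hα0 hL.t2
  have d11 := slice1 hα0 hL.t1
  have d12 := slice2 hα0 hIo hL.t1
  have d21 := slice1 hα0 hL.t2
  have d22 := slice2 hα0 hIo hL.t2
  -- second differences vanish
  have hdd : ∀ s t x y : ℝ, y ∈ I → dd s t h11 x y = 0 ∧ dd s t h12 x y = 0 ∧
      dd s t h22 x y = 0 := by
    intro s t
    set K : ℝ := 2 * C * |t| ^ α + 2 * C * |s| with hK
    have hb : ∀ f : ℝ × ℝ → ℝ, (∀ x ∈ {z : ℝ × ℝ | z.2 ∈ I}, ∀ y ∈ {z : ℝ × ℝ | z.2 ∈ I},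
        |f x - f y| ≤ C * dist x y ^ α) → ∀ x y : ℝ, y ∈ I → |dd s t f x y| ≤ K := by
      intro f hf x y hy
      have e1 := hhor f hf (x + s) t y hy
      have e2 := hhor f hf x t y hy
      have e3 : |dd s t f x y| ≤ |f (x + s + t, y) - f (x + s, y)| + |f (x + t, y) - f (x, y)| :=
        abs_sub _ _
      have e4 : 0 ≤ 2 * C * |s| := by positivity
      rw [hK]; linarith
    -- the first component
    have hP : ∀ x y M : ℝ, y ∈ I → (∀ u, |h11 (u + t, y) - h11 (u, y)| ≤ M) →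
        |dd s t G1 x y| ≤ M * |s| := by
      intro x y M hy hM
      have := mvt_shift (f := fun u => G1 (u + t, y) - G1 (u, y))
        (f' := fun u => h11 (u + t, y) - h11 (u, y)) (M := M)
        (fun u => ((d11 (u + t) y hy).comp_add_const u t).sub (d11 u y hy)) hM x s
      exact this
    have key := energy_I (P := fun x y => -dd s t G1 x y) (Q := fun x y => dd s t G2 x y)
      (p1 := fun x y => -dd s t h11 x y) (p2 := fun x y => -dd s t h12 x y)
      (q1 := fun x y => dd s t h12 x y) (q2 := fun x y => dd s t h22 x y)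
      (B := C * |t| ^ α * |s|) (c := (a11 * a22 - a12 ^ 2) / (a11 + a22) ^ 2) (K := K) (α := α)
      (I := I) hα0 (by positivity)
      (by
        rcases hI with h | ⟨h, hbd⟩
        · exact Or.inl h
        · refine Or.inr ⟨h, fun x y hy => ?_⟩
          have hyI : y ∈ I := by rw [h]; exact hy
          have hM : ∀ u, |h11 (u + t, y) - h11 (u, y)| ≤ 2 * C * y ^ α := by
            intro u
            have := hbd (u + t, y) (u, y) hy hy
            linarith
          have h1 := hP x y _ hyI hM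
          rw [abs_neg]
          have h2 : 0 ≤ y ^ α := Real.rpow_nonneg hy.le _
          have h3 : 0 ≤ 2 * C * |t| ^ α * y ^ α := by positivity
          rw [hK]
          linarith)
      (fun x y hy => (dd_der1 d11 x y hy).neg) (fun x y hy => (dd_der2 d12 x y hy).neg)
      (fun x y hy => dd_der1 d21 x y hy) (fun x y hy => dd_der2 d22 x y hy)
      (dd_cont cG1).neg (dd_cont cG2) (dd_cont c11).neg (dd_cont c12).neg (dd_cont c12)
      (dd_cont c22)
      (fun x y hy => by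
        rw [abs_neg]
        exact hP x y _ hy fun u => hhor h11 hL.l11 u t y hy)
      (fun x y hy => ⟨hb h12 hL.l12 x y hy, hb h22 hL.l22 x y hy⟩)
      (fun x y hy => by
        apply J_lin ha hdet
        have e1 := heq (x + s + t, y) hy
        have e2 := heq (x + s, y) hy
        have e3 := heq (x + t, y) hy
        have e4 := heq (x, y) hy
        unfold dd
        linear_combination e1 - e2 - e3 + e4)
    intro x y hy
    obtain ⟨k1, -, k3, k4⟩ := key x y hy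
    exact ⟨neg_eq_zero.1 k1, k3, k4⟩
  have hconst : ∀ f : ℝ × ℝ → ℝ, (∀ x ∈ {z : ℝ × ℝ | z.2 ∈ I}, ∀ y ∈ {z : ℝ × ℝ | z.2 ∈ I},
      |f x - f y| ≤ C * dist x y ^ α) → (∀ s t x y : ℝ, y ∈ I → dd s t f x y = 0) →
      ∀ x x' y : ℝ, y ∈ I → f (x, y) = f (x', y) := by
    intro f hf hf0 x x' y hy
    refine const_of_dd (f := fun x => f (x, y)) (C := C) hα1 (fun x s t => hf0 s t x y hy)
      (fun x x' => ?_) x x'
    have := hf (x, y) hy (x', y) hy
    have e : dist (x, y) (x', y) = |x - x'| := by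
      rw [Prod.dist_eq, dist_self, Real.dist_eq]
      exact max_eq_left (abs_nonneg _)
    rwa [e] at this
  have k1 := hconst h11 hL.l11 fun s t x y hy => (hdd s t x y hy).1
  have k2 := hconst h12 hL.l12 fun s t x y hy => (hdd s t x y hy).2.1
  have k3 := hconst h22 hL.l22 fun s t x y hy => (hdd s t x y hy).2.2
  intro x y hx hy
  obtain ⟨f1, f2⟩ := const_of_horizontal hα0 hIo hIp hL k1 k2 k3 x y hx hy
  refine ⟨f1, f2, ?_⟩
  have e1 := heq x hx
  have e2 := heq y hy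
  rw [f1, f2] at e1
  have : a22 * (h22 x - h22 y) = 0 := by linear_combination e1 - e2
  rcases mul_eq_zero.1 this with h | h
  · exact absurd h ha22.ne'
  · linarith

theorem liouville_lin_half {α C : ℝ} {G1 G2 h11 h12 h22 : ℝ × ℝ → ℝ} (hα0 : 0 < α) (hα1 : α < 1)
    (hL : LO {x : ℝ × ℝ | 0 < x.2} α C G1 G2 h11 h12 h22)
    (hb : ∀ x y : ℝ × ℝ, 0 < x.2 → 0 < y.2 → |h11 x - h11 y| ≤ C * (x.2 ^ α + y.2 ^ α))
    {a11 a12 a22 : ℝ} (ha : 0 < a11) (hdet : 0 < a11 * a22 - a12 ^ 2)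
    (heq : ∀ x : ℝ × ℝ, 0 < x.2 → a11 * h11 x + 2 * (a12 * h12 x) + a22 * h22 x = 0) :
    ∀ x y : ℝ × ℝ, 0 < x.2 → 0 < y.2 → h11 x = h11 y ∧ h12 x = h12 y ∧ h22 x = h22 y :=
  lin_I (I := Ioi 0) hα0 hα1 (Or.inr ⟨rfl, hb⟩) hL ha hdet heq

theorem liouville_lin_plane {α C : ℝ} {G1 G2 h11 h12 h22 : ℝ × ℝ → ℝ} (hα0 : 0 < α) (hα1 : α < 1)
    (hL : LO univ α C G1 G2 h11 h12 h22)
    {a11 a12 a22 : ℝ} (ha : 0 < a11) (hdet : 0 < a11 * a22 - a12 ^ 2)
    (heq : ∀ x : ℝ × ℝ, a11 * h11 x + 2 * (a12 * h12 x) + a22 * h22 x = 0) :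
    ∀ x y : ℝ × ℝ, h11 x = h11 y ∧ h12 x = h12 y ∧ h22 x = h22 y := by
  have e : {z : ℝ × ℝ | z.2 ∈ (univ : Set ℝ)} = univ := by ext z; simp
  intro x y
  exact lin_I (I := univ) hα0 hα1 (Or.inl rfl) (by rw [e]; exact hL) ha hdet
    (fun x _ => heq x) x y (mem_univ _) (mem_univ _)

end Pool.Agent.Lib44.EN
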