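import Pool.Agent.Lib_helper44.AQ.Bdry

/-! Module H1: the blow-up limit. -/

namespace Pool.Agent.Lib44.BU

open AP AQ Set Filter Topology

variable {U : Ultrafilter ℕ} {α : ℝ} {u : ℕ → ℝ × ℝ → ℝ} {S ρ N : ℕ → ℝ} {X Y : ℕ → ℝ × ℝ}

/-- rescaled distance to the circle -/
noncomputable def kap (X : ℝ × ℝ) (ρ : ℝ) : ℝ := (1 - (X.1 ^ 2 + X.2 ^ 2)) / ρ

lemma one_sub_sq {X z : ℝ × ℝ} {ρ : ℝ} (hρ : 0 < ρ) :
    1 - ((X + ρ • z).1 ^ 2 + (X + ρ • z).2 ^ 2)
      = ρ * (kap X ρ - 2 * (X.1 * z.1 + X.2 * z.2) - ρ * (z.1 ^ 2 + z.2 ^ 2)) := by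
  unfold kap
  simp only [Prod.fst_add, Prod.snd_add, Prod.smul_fst, Prod.smul_snd, smul_eq_mul]
  field_simp
  ring

lemma mem_disc_iff {X z : ℝ × ℝ} {ρ : ℝ} (hρ : 0 < ρ) :
    X + ρ • z ∈ Disc ↔
      0 ≤ kap X ρ - 2 * (X.1 * z.1 + X.2 * z.2) - ρ * (z.1 ^ 2 + z.2 ^ 2) := by
  have h := one_sub_sq (X := X) (z := z) hρ
  constructor
  · intro h1
    simp only [Disc, Set.mem_ofPred_eq] at h1
    have h2 : 0 ≤ ρ * (kap X ρ - 2 * (X.1 * z.1 + X.2 * z.2) - ρ * (z.1 ^ 2 + z.2 ^ 2)) := by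
      rw [← h]; linarith
    exact (mul_nonneg_iff_of_pos_left hρ).1 h2
  · intro h1
    have h2 := mul_nonneg hρ.le h1
    rw [← h] at h2
    show (X + ρ • z).1 ^ 2 + (X + ρ • z).2 ^ 2 ≤ 1
    linarith

lemma kap_nonneg {X : ℝ × ℝ} {ρ : ℝ} (hρ : 0 < ρ) (hX : X ∈ Disc) : 0 ≤ kap X ρ := by
  unfold kap
  have : X.1 ^ 2 + X.2 ^ 2 ≤ 1 := hX
  exact div_nonneg (by linarith) hρ.le

/-- the normalised second point -/
noncomputable def zk (X Y : ℝ × ℝ) (ρ : ℝ) : ℝ × ℝ := ρ⁻¹ • (Y - X)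

lemma zk_eq {X Y : ℝ × ℝ} {ρ : ℝ} (hρ : 0 < ρ) : X + ρ • zk X Y ρ = Y := by
  unfold zk
  rw [smul_smul, mul_inv_cancel₀ hρ.ne', one_smul]; abel

lemma zk_dist {X Y : ℝ × ℝ} {ρ : ℝ} (hρ : 0 < ρ) (h : ρ = dist X Y) : dist (zk X Y ρ) 0 = 1 := by
  unfold zk
  rw [dist_zero_right, norm_smul, ← dist_eq_norm, dist_comm, ← h, Real.norm_eq_abs,
    abs_of_pos (inv_pos.2 hρ), inv_mul_cancel₀ hρ.ne']

/-- the limit is not constant -/
lemma nonconst (h : BU U α u S ρ N X Y) {z : ℝ × ℝ}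
    (hz : Tendsto (fun k => zk (X k) (Y k) (ρ k)) U (𝓝 z)) {a b : ℝ × ℝ} {δ : ℝ} (hδ : 0 < δ)
    (hδα : δ ^ α ≤ 1 / 100) (ha : dist a z ≤ δ) (hb : dist b 0 ≤ δ)
    (hma : ∀ᶠ k in U, X k + ρ k • a ∈ Disc) (hmb : ∀ᶠ k in U, X k + ρ k • b ∈ Disc)
    {m11 m12 m22 : ℝ}
    (a11 : Tendsto (fun k => rs (D1 (D1 (u k))) (X k) (ρ k) (S k * ρ k ^ α) a) U (𝓝 m11))
    (a12 : Tendsto (fun k => rs (D1 (D2 (u k))) (X k) (ρ k) (S k * ρ k ^ α) a) U (𝓝 m12))
    (a22 : Tendsto (fun k => rs (D2 (D2 (u k))) (X k) (ρ k) (S k * ρ k ^ α) a) U (𝓝 m22))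
    (b11 : Tendsto (fun k => rs (D1 (D1 (u k))) (X k) (ρ k) (S k * ρ k ^ α) b) U (𝓝 m11))
    (b12 : Tendsto (fun k => rs (D1 (D2 (u k))) (X k) (ρ k) (S k * ρ k ^ α) b) U (𝓝 m12))
    (b22 : Tendsto (fun k => rs (D2 (D2 (u k))) (X k) (ρ k) (S k * ρ k ^ α) b) U (𝓝 m22)) :
    False := by
  have hbm : ∀ (f : ℕ → ℝ × ℝ → ℝ) (m : ℝ), (∀ k, Hol α (S k) (f k)) →
      Tendsto (fun k => rs (f k) (X k) (ρ k) (S k * ρ k ^ α) b) U (𝓝 m) → |m| ≤ 1 / 100 := by
    intro f m hf hm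
    refine le_of_tendsto hm.abs ?_
    filter_upwards [hmb] with k hk
    exact ((rs_bd (h.Spos k) (h.ρ_pos k) (hf k) (h.X_mem k) hk).trans
      (Real.rpow_le_rpow dist_nonneg hb h.α0.le)).trans hδα
  have e11 := hbm (fun k => D1 (D1 (u k))) m11 h.hol11 b11
  have e12 := hbm (fun k => D1 (D2 (u k))) m12 h.hol12 b12
  have e22 := hbm (fun k => D2 (D2 (u k))) m22 h.hol22 b22
  -- lower bound at `z_k`
  have hzm : ∀ k, X k + ρ k • zk (X k) (Y k) (ρ k) ∈ Disc := fun k => by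
    rw [zk_eq (h.ρ_pos k)]; exact h.Y_mem k
  have hlow : ∀ k, 1 / 2 ≤ |rs (D1 (D1 (u k))) (X k) (ρ k) (S k * ρ k ^ α) (zk (X k) (Y k) (ρ k))|
      + |rs (D1 (D2 (u k))) (X k) (ρ k) (S k * ρ k ^ α) (zk (X k) (Y k) (ρ k))|
      + |rs (D2 (D2 (u k))) (X k) (ρ k) (S k * ρ k ^ α) (zk (X k) (Y k) (ρ k))| := by
    intro k
    have hT : 0 < S k * ρ k ^ α := mul_pos (h.Spos k) (Real.rpow_pos_of_pos (h.ρ_pos k) α)
    have hbig := h.big k
    unfold rs
    rw [zk_eq (h.ρ_pos k), abs_div, abs_div, abs_div, abs_of_pos hT, ← add_div, ← add_div,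
      le_div_iff₀ hT]
    rw [abs_sub_comm (D1 (D1 (u k)) (Y k)), abs_sub_comm (D1 (D2 (u k)) (Y k)),
      abs_sub_comm (D2 (D2 (u k)) (Y k))]
    linarith
  have hup : ∀ᶠ k in U, 1 / 2 ≤ |rs (D1 (D1 (u k))) (X k) (ρ k) (S k * ρ k ^ α) a|
      + |rs (D1 (D2 (u k))) (X k) (ρ k) (S k * ρ k ^ α) a|
      + |rs (D2 (D2 (u k))) (X k) (ρ k) (S k * ρ k ^ α) a|
      + 3 * (dist (zk (X k) (Y k) (ρ k)) z + δ) ^ α := by
    filter_upwards [hma] with k hk
    have hc : ∀ f : ℝ × ℝ → ℝ, Hol α (S k) f →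
        |rs f (X k) (ρ k) (S k * ρ k ^ α) (zk (X k) (Y k) (ρ k))|
        ≤ |rs f (X k) (ρ k) (S k * ρ k ^ α) a| + (dist (zk (X k) (Y k) (ρ k)) z + δ) ^ α := by
      intro f hf
      have k1 := rs_hol (h.Spos k) (h.ρ_pos k) hf (hzm k) hk
      have k2 : dist (zk (X k) (Y k) (ρ k)) a ^ α ≤ (dist (zk (X k) (Y k) (ρ k)) z + δ) ^ α := by
        refine Real.rpow_le_rpow dist_nonneg ?_ h.α0.le
        refine (dist_triangle _ z _).trans ?_
        rw [dist_comm z a]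
        linarith
      have k3 := abs_sub_abs_le_abs_sub (rs f (X k) (ρ k) (S k * ρ k ^ α) (zk (X k) (Y k) (ρ k)))
        (rs f (X k) (ρ k) (S k * ρ k ^ α) a)
      linarith
    have l := hlow k
    have c1 := hc _ (h.hol11 k)
    have c2 := hc _ (h.hol12 k)
    have c3 := hc _ (h.hol22 k)
    linarith
  have hlim : Tendsto (fun k => |rs (D1 (D1 (u k))) (X k) (ρ k) (S k * ρ k ^ α) a|
      + |rs (D1 (D2 (u k))) (X k) (ρ k) (S k * ρ k ^ α) a|
      + |rs (D2 (D2 (u k))) (X k) (ρ k) (S k * ρ k ^ α) a|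
      + 3 * (dist (zk (X k) (Y k) (ρ k)) z + δ) ^ α) U
      (𝓝 (|m11| + |m12| + |m22| + 3 * (0 + δ) ^ α)) := by
    refine ((a11.abs.add a12.abs).add a22.abs).add (Tendsto.const_mul 3 ?_)
    refine Tendsto.rpow_const ?_ (Or.inr h.α0.le)
    refine Tendsto.add_const δ ?_
    have := hz.dist (tendsto_const_nhds (x := z))
    rwa [dist_self] at this
  have := ge_of_tendsto hlim hup
  rw [zero_add] at this
  linarith

theorem blowup_limit (h : BU U α u S ρ N X Y) :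
    ∃ (H : Set (ℝ × ℝ)) (T : ℝ × ℝ → ℝ × ℝ) (n1 n2 C : ℝ) (G1 G2 h11 h12 h22 : ℝ × ℝ → ℝ),
      n1 ^ 2 + n2 ^ 2 = 1 ∧ LO H α C G1 G2 h11 h12 h22 ∧
      (H = univ ∨ (H = {x : ℝ × ℝ | 0 < x.2} ∧ ∀ x y : ℝ × ℝ, 0 < x.2 → 0 < y.2 →
        |h11 x - h11 y| ≤ C * (x.2 ^ α + y.2 ^ α))) ∧
      (∀ x ∈ H, ∀ᶠ k in U, X k + ρ k • T x ∈ Disc) ∧
      (∀ x ∈ H, ∃ m11 m12 m22 : ℝ,
        Tendsto (fun k => rs (D1 (D1 (u k))) (X k) (ρ k) (S k * ρ k ^ α) (T x)) U (𝓝 m11) ∧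
        Tendsto (fun k => rs (D1 (D2 (u k))) (X k) (ρ k) (S k * ρ k ^ α) (T x)) U (𝓝 m12) ∧
        Tendsto (fun k => rs (D2 (D2 (u k))) (X k) (ρ k) (S k * ρ k ^ α) (T x)) U (𝓝 m22) ∧
        h11 x = n2 ^ 2 * m11 - 2 * (n1 * n2 * m12) + n1 ^ 2 * m22 ∧
        h12 x = n1 * n2 * m11 + (n2 ^ 2 - n1 ^ 2) * m12 - n1 * n2 * m22 ∧
        h22 x = n1 ^ 2 * m11 + 2 * (n1 * n2 * m12) + n2 ^ 2 * m22) ∧
      ∃ x ∈ H, ∃ y ∈ H, ¬ (h11 x = h11 y ∧ h12 x = h12 y ∧ h22 x = h22 y) := by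
  -- the limit of `z_k`
  obtain ⟨z, -, hz⟩ : ∃ z ∈ Metric.closedBall (0 : ℝ × ℝ) 1,
      Tendsto (fun k => zk (X k) (Y k) (ρ k)) U (𝓝 z) := by
    refine exists_ulim_compact (isCompact_closedBall _ _) ?_
    filter_upwards with k
    rw [Metric.mem_closedBall, zk_dist (h.ρ_pos k) (h.ρ_def k)]
  obtain ⟨n, hnD, hn⟩ : ∃ n ∈ Disc, Tendsto X U (𝓝 n) :=
    exists_ulim_compact disc_compact (by filter_upwards with k; exact h.X_mem k)
  have hn1 : Tendsto (fun k => (X k).1) U (𝓝 n.1) := (continuous_fst.tendsto n).comp hn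
  have hn2 : Tendsto (fun k => (X k).2) U (𝓝 n.2) := (continuous_snd.tendsto n).comp hn
  -- a small number
  obtain ⟨δ, hδ, hδα⟩ : ∃ δ : ℝ, 0 < δ ∧ δ ^ α ≤ 1 / 100 := by
    refine ⟨(1 / 100 : ℝ) ^ (1 / α), Real.rpow_pos_of_pos (by norm_num) _, ?_⟩
    rw [← Real.rpow_mul (by norm_num), one_div_mul_cancel h.α0.ne', Real.rpow_one]
  by_cases hk : ∀ B : ℝ, ∀ᶠ k in U, B ≤ kap (X k) (ρ k)
  · -- interior case
    have hmem : ∀ z : ℝ × ℝ, ∀ᶠ k in U, X k + ρ k • z ∈ Disc := by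
      intro z
      have hlim : Tendsto (fun k => 2 * ((X k).1 * z.1 + (X k).2 * z.2) + ρ k * (z.1 ^ 2 + z.2 ^ 2))
          U (𝓝 (2 * (n.1 * z.1 + n.2 * z.2) + 0 * (z.1 ^ 2 + z.2 ^ 2))) :=
        (((hn1.mul_const _).add (hn2.mul_const _)).const_mul 2).add (h.ρ_lim.mul_const _)
      have e := hlim.eventually (gt_mem_nhds (lt_add_one _))
      filter_upwards [e, hk (2 * (n.1 * z.1 + n.2 * z.2) + 0 * (z.1 ^ 2 + z.2 ^ 2) + 1)] with k h1 h2
      rw [mem_disc_iff (h.ρ_pos k)]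
      linarith
    obtain ⟨Γ1, Γ2, m11, m12, m22, hm, hLO⟩ := limit_LO h (c := 0) (τ := ((1 : ℝ), (0 : ℝ)))
      (ν := ((0 : ℝ), (1 : ℝ))) (by simp) (by simp) (by simp) (by simp) (H := univ) (T := id)
      (by intro x; ext <;> simp) (fun x _ => hmem _)
    refine ⟨univ, id, 0, 1, 16, _, _, _, _, _, by norm_num, hLO, Or.inl rfl, fun x _ => hmem _,
      ?_, z, mem_univ _, 0, mem_univ _, ?_⟩
    · intro x hx
      obtain ⟨e1, e2, e3⟩ := hm x hx
      refine ⟨m11 x, m12 x, m22 x, e1, e2, e3, ?_, ?_, ?_⟩ <;> ring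
    · rintro ⟨f1, f2, f3⟩
      have g1 : m11 z = m11 0 := by linarith
      have g2 : m12 z = m12 0 := by linarith
      have g3 : m22 z = m22 0 := by linarith
      obtain ⟨a1, a2, a3⟩ := hm z (mem_univ _)
      obtain ⟨b1, b2, b3⟩ := hm 0 (mem_univ _)
      rw [← g1] at b1
      rw [← g2] at b2
      rw [← g3] at b3
      exact nonconst h hz (a := z) (b := 0) hδ hδα (by rw [dist_self]; exact hδ.le)
        (by rw [dist_self]; exact hδ.le) (hmem _) (hmem _) a1 a2 a3 b1 b2 b3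
  · -- boundary case
    obtain ⟨B, hB⟩ := not_forall.1 hk
    rw [Ultrafilter.eventually_not.symm.trans Iff.rfl] at hB
    obtain ⟨κ, hκ⟩ : ∃ κ, Tendsto (fun k => kap (X k) (ρ k)) U (𝓝 κ) := by
      refine exists_ulim (B := B) ?_
      filter_upwards [hB] with k h1
      push Not at h1
      rw [abs_of_nonneg (kap_nonneg (h.ρ_pos k) (h.X_mem k))]
      exact h1.le
    have hκ0 : 0 ≤ κ := by
      refine ge_of_tendsto hκ ?_
      filter_upwards with k
      exact kap_nonneg (h.ρ_pos k) (h.X_mem k)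
    have hnn : n.1 ^ 2 + n.2 ^ 2 = 1 := by
      have e1 : Tendsto (fun k => kap (X k) (ρ k) * ρ k) U (𝓝 (κ * 0)) := hκ.mul h.ρ_lim
      have e2 : Tendsto (fun k => 1 - ((X k).1 ^ 2 + (X k).2 ^ 2)) U
          (𝓝 (1 - (n.1 ^ 2 + n.2 ^ 2))) :=
        tendsto_const_nhds.sub ((hn1.pow 2).add (hn2.pow 2))
      have e3 : (fun k => kap (X k) (ρ k) * ρ k) = fun k => 1 - ((X k).1 ^ 2 + (X k).2 ^ 2) := by
        funext k
        unfold kap
        rw [div_mul_cancel₀ _ (h.ρ_pos k).ne']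
      rw [e3] at e1
      have := tendsto_nhds_unique e1 e2
      linarith
    have hlim : ∀ z : ℝ × ℝ, Tendsto (fun k => kap (X k) (ρ k)
        - 2 * ((X k).1 * z.1 + (X k).2 * z.2) - ρ k * (z.1 ^ 2 + z.2 ^ 2))
          U (𝓝 (κ - 2 * (n.1 * z.1 + n.2 * z.2))) := by
      intro z
      have := (hκ.sub (((hn1.mul_const z.1).add (hn2.mul_const z.2)).const_mul 2)).sub
        (h.ρ_lim.mul_const (z.1 ^ 2 + z.2 ^ 2))
      rwa [zero_mul, sub_zero] at this
    have hmemz : ∀ z : ℝ × ℝ, 0 < κ - 2 * (n.1 * z.1 + n.2 * z.2) →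
        ∀ᶠ k in U, X k + ρ k • z ∈ Disc := by
      intro z hz0
      filter_upwards [(hlim z).eventually (lt_mem_nhds hz0)] with k hk1
      rw [mem_disc_iff (h.ρ_pos k)]
      exact hk1.le
    obtain ⟨n1b, n2b⟩ := abs_le_of_disc hnD
    set T : ℝ × ℝ → ℝ × ℝ := fun x => (κ / 2) • n + x.1 • (-n.2, n.1) + x.2 • (-n.1, -n.2) with hT
    have hTn : ∀ x, κ - 2 * (n.1 * (T x).1 + n.2 * (T x).2) = 2 * x.2 := by
      intro x
      simp only [hT, Prod.fst_add, Prod.snd_add, Prod.smul_fst, Prod.smul_snd, smul_eq_mul]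
      linear_combination (-κ + 2 * x.2) * hnn
    have hmemT : ∀ x ∈ {x : ℝ × ℝ | 0 < x.2}, ∀ᶠ k in U, X k + ρ k • T x ∈ Disc := by
      intro x hx
      refine hmemz _ ?_
      rw [hTn]
      have : 0 < x.2 := hx
      linarith
    obtain ⟨Γ1, Γ2, m11, m12, m22, hm, hLO⟩ := limit_LO h (c := (κ / 2) • n) (τ := (-n.2, n.1))
      (ν := (-n.1, -n.2)) (by simpa using n2b) (by simpa using n1b) (by simpa using n1b)
      (by simpa using n2b) (H := {x : ℝ × ℝ | 0 < x.2}) (T := T) (fun x => rfl) hmemT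
    refine ⟨{x : ℝ × ℝ | 0 < x.2}, T, n.1, n.2, 16, _, _, _, _, _, hnn, hLO, Or.inr ⟨rfl, ?_⟩,
      hmemT, ?_, ?_⟩
    · -- boundary condition
      intro x y hx hy
      obtain ⟨x1, x2, x3⟩ := hm x hx
      obtain ⟨y1, y2, y3⟩ := hm y hy
      -- projections
      have hproj : ∀ x : ℝ × ℝ, 0 < x.2 → ∃ ζ : ℕ → ℝ × ℝ, ∀ᶠ k in U,
          (X k + ρ k • ζ k).1 ^ 2 + (X k + ρ k • ζ k).2 ^ 2 = 1 ∧ dist (T x) (ζ k) ≤ 3 * x.2 := by
        intro x hx
        have hcont : Tendsto (fun k => (X k + ρ k • T x).1 ^ 2 + (X k + ρ k • T x).2 ^ 2) U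
            (𝓝 1) := by
          have e : Tendsto (fun k => X k + ρ k • T x) U (𝓝 (n + (0 : ℝ) • T x)) :=
            hn.add (h.ρ_lim.smul_const _)
          rw [zero_smul, add_zero] at e
          have e1 : Tendsto (fun k => (X k + ρ k • T x).1) U (𝓝 n.1) :=
            (continuous_fst.tendsto n).comp e
          have e2 : Tendsto (fun k => (X k + ρ k • T x).2) U (𝓝 n.2) :=
            (continuous_snd.tendsto n).comp e
          have := (e1.pow 2).add (e2.pow 2)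
          rwa [hnn] at this
        have l1 : κ - 2 * (n.1 * (T x).1 + n.2 * (T x).2) < 3 * x.2 := by
          rw [hTn]; linarith
        have hev : ∀ᶠ k in U, ∃ ζ : ℝ × ℝ,
            (X k + ρ k • ζ).1 ^ 2 + (X k + ρ k • ζ).2 ^ 2 = 1 ∧ dist (T x) ζ ≤ 3 * x.2 := by
          filter_upwards [hmemT x hx, hcont.eventually (lt_mem_nhds zero_lt_one),
            (hlim (T x)).eventually (gt_mem_nhds l1)] with k k1 k2 k3
          refine exists_proj (h.ρ_pos k) k1 k2 ?_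
          rw [one_sub_sq (h.ρ_pos k)]
          exact mul_le_mul_of_nonneg_left k3.le (h.ρ_pos k).le
        have : ∀ k, ∃ ζ : ℝ × ℝ, (∃ ζ : ℝ × ℝ,
            (X k + ρ k • ζ).1 ^ 2 + (X k + ρ k • ζ).2 ^ 2 = 1 ∧ dist (T x) ζ ≤ 3 * x.2) →
            (X k + ρ k • ζ).1 ^ 2 + (X k + ρ k • ζ).2 ^ 2 = 1 ∧ dist (T x) ζ ≤ 3 * x.2 := by
          intro k
          by_cases hc : ∃ ζ : ℝ × ℝ,
            (X k + ρ k • ζ).1 ^ 2 + (X k + ρ k • ζ).2 ^ 2 = 1 ∧ dist (T x) ζ ≤ 3 * x.2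
          · obtain ⟨ζ, hζ⟩ := hc
            exact ⟨ζ, fun _ => hζ⟩
          · exact ⟨0, fun hc' => absurd hc' hc⟩
        choose ζ hζ using this
        refine ⟨ζ, ?_⟩
        filter_upwards [hev] with k hk1 using hζ k hk1
      obtain ⟨ζ, hζ⟩ := hproj x hx
      obtain ⟨ζ', hζ'⟩ := hproj y hy
      set R := dist (T x) 0 + 3 * x.2 + (dist (T y) 0 + 3 * y.2) with hR
      have hR0 : 0 ≤ R := by positivity
      -- level inequality
      have hlev : ∀ᶠ k in U,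
          |qf n (rs (D1 (D1 (u k))) (X k) (ρ k) (S k * ρ k ^ α) (T x))
              (rs (D1 (D2 (u k))) (X k) (ρ k) (S k * ρ k ^ α) (T x))
              (rs (D2 (D2 (u k))) (X k) (ρ k) (S k * ρ k ^ α) (T x))
            - qf n (rs (D1 (D1 (u k))) (X k) (ρ k) (S k * ρ k ^ α) (T y))
              (rs (D1 (D2 (u k))) (X k) (ρ k) (S k * ρ k ^ α) (T y))
              (rs (D2 (D2 (u k))) (X k) (ρ k) (S k * ρ k ^ α) (T y))|
          ≤ 4 * (3 * x.2) ^ α + 4 * (3 * y.2) ^ α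
            + 16 * (dist n (X k) + ρ k * R) * R ^ α
            + 14 * (N k * ρ k / (S k * ρ k ^ α)) * R := by
        filter_upwards [hmemT x hx, hmemT y hy, hζ, hζ'] with k k1 k2 k3 k4
        have base := bdry_level (h.cd k) (h.bc k) (h.N_bd k) (h.Spos k) (h.ρ_pos k) (h.hol11 k)
          (h.hol12 k) (h.hol22 k) hnD (h.X_mem k) k1 k2 k3.1 k4.1
        have hN0 : 0 ≤ N k := (abs_nonneg _).trans ((h.N_bd k).1 _ (h.X_mem k))
        have hT0 : 0 < S k * ρ k ^ α := mul_pos (h.Spos k) (Real.rpow_pos_of_pos (h.ρ_pos k) α)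
        have dζ : dist (ζ k) 0 ≤ dist (T x) 0 + 3 * x.2 := by
          refine (dist_triangle _ (T x) _).trans ?_
          rw [dist_comm (ζ k)]; linarith [k3.2]
        have dζ' : dist (ζ' k) 0 ≤ dist (T y) 0 + 3 * y.2 := by
          refine (dist_triangle _ (T y) _).trans ?_
          rw [dist_comm (ζ' k)]; linarith [k4.2]
        have p1 : 0 ≤ dist (T x) 0 := dist_nonneg
        have p2 : 0 ≤ dist (T y) 0 := dist_nonneg
        have y0 : 0 < y.2 := hy
        have x0 : 0 < x.2 := hx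
        have rζ : dist (ζ k) 0 ≤ R := by rw [hR]; linarith
        have rζ' : dist (ζ' k) 0 ≤ R := by rw [hR]; linarith
        have rr : dist (ζ k) (ζ' k) ≤ R := by
          refine (dist_triangle _ 0 _).trans ?_
          rw [dist_comm 0 (ζ' k), hR]; linarith
        have t1 : dist (T x) (ζ k) ^ α ≤ (3 * x.2) ^ α :=
          Real.rpow_le_rpow dist_nonneg k3.2 h.α0.le
        have t2 : dist (T y) (ζ' k) ^ α ≤ (3 * y.2) ^ α :=
          Real.rpow_le_rpow dist_nonneg k4.2 h.α0.le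
        have w : ∀ w : ℝ × ℝ, dist w 0 ≤ R → dist n (X k + ρ k • w) ≤ dist n (X k) + ρ k * R := by
          intro w hw
          refine (dist_triangle _ (X k) _).trans ?_
          have : dist (X k) (X k + ρ k • w) = ρ k * dist w 0 := by
            have := dist_resc (X k) 0 w (h.ρ_pos k)
            rwa [smul_zero, add_zero, dist_comm 0 w] at this
          rw [this]
          have := mul_le_mul_of_nonneg_left hw (h.ρ_pos k).le
          linarith
        have t3 : dist n (X k + ρ k • ζ k) * dist (ζ k) 0 ^ α ≤ (dist n (X k) + ρ k * R) * R ^ α :=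
          mul_le_mul (w _ rζ) (Real.rpow_le_rpow dist_nonneg rζ h.α0.le)
            (Real.rpow_nonneg dist_nonneg _)
            (add_nonneg dist_nonneg (mul_nonneg (h.ρ_pos k).le hR0))
        have t4 : dist n (X k + ρ k • ζ' k) * dist (ζ' k) 0 ^ α
            ≤ (dist n (X k) + ρ k * R) * R ^ α :=
          mul_le_mul (w _ rζ') (Real.rpow_le_rpow dist_nonneg rζ' h.α0.le)
            (Real.rpow_nonneg dist_nonneg _)
            (add_nonneg dist_nonneg (mul_nonneg (h.ρ_pos k).le hR0))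
        have t5 : (N k * ρ k / (S k * ρ k ^ α)) * dist (ζ k) (ζ' k)
            ≤ (N k * ρ k / (S k * ρ k ^ α)) * R :=
          mul_le_mul_of_nonneg_left rr (div_nonneg (mul_nonneg hN0 (h.ρ_pos k).le) hT0.le)
        linarith
      have hL : Tendsto (fun k =>
          |qf n (rs (D1 (D1 (u k))) (X k) (ρ k) (S k * ρ k ^ α) (T x))
              (rs (D1 (D2 (u k))) (X k) (ρ k) (S k * ρ k ^ α) (T x))
              (rs (D2 (D2 (u k))) (X k) (ρ k) (S k * ρ k ^ α) (T x))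
            - qf n (rs (D1 (D1 (u k))) (X k) (ρ k) (S k * ρ k ^ α) (T y))
              (rs (D1 (D2 (u k))) (X k) (ρ k) (S k * ρ k ^ α) (T y))
              (rs (D2 (D2 (u k))) (X k) (ρ k) (S k * ρ k ^ α) (T y))|) U
          (𝓝 |qf n (m11 x) (m12 x) (m22 x) - qf n (m11 y) (m12 y) (m22 y)|) := by
        unfold qf
        exact ((((x1.const_mul _).sub ((x2.const_mul _).const_mul 2)).add (x3.const_mul _)).sub
          (((y1.const_mul _).sub ((y2.const_mul _).const_mul 2)).add (y3.const_mul _))).abs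
      have hRlim : Tendsto (fun k => 4 * (3 * x.2) ^ α + 4 * (3 * y.2) ^ α
            + 16 * (dist n (X k) + ρ k * R) * R ^ α
            + 14 * (N k * ρ k / (S k * ρ k ^ α)) * R) U
          (𝓝 (4 * (3 * x.2) ^ α + 4 * (3 * y.2) ^ α
            + 16 * (dist n n + 0 * R) * R ^ α + 14 * 0 * R)) := by
        refine (Tendsto.add tendsto_const_nhds ?_).add ?_
        · exact ((((tendsto_const_nhds (x := n)).dist hn).add
            (h.ρ_lim.mul_const R)).const_mul 16).mul_const _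
        · exact (h.N_lim.const_mul 14).mul_const R
      have hfin := le_of_tendsto_of_tendsto hL hRlim hlev
      rw [dist_self] at hfin
      have x0 : 0 < x.2 := hx
      have y0 : 0 < y.2 := hy
      have three : ∀ t : ℝ, 0 < t → (3 * t) ^ α ≤ 3 * t ^ α := by
        intro t ht
        rw [Real.mul_rpow (by norm_num) ht.le]
        refine mul_le_mul_of_nonneg_right ?_ (Real.rpow_nonneg ht.le _)
        calc (3 : ℝ) ^ α ≤ 3 ^ (1 : ℝ) :=
              Real.rpow_le_rpow_of_exponent_le (by norm_num) h.α1.le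
          _ = 3 := by norm_num
      have c1 := three _ x0
      have c2 := three _ y0
      have r1 : 0 ≤ x.2 ^ α := Real.rpow_nonneg x0.le _
      have r2 : 0 ≤ y.2 ^ α := Real.rpow_nonneg y0.le _
      have e : (-n.2) ^ 2 * m11 x + 2 * (-n.2 * n.1 * m12 x) + n.1 ^ 2 * m22 x
          - ((-n.2) ^ 2 * m11 y + 2 * (-n.2 * n.1 * m12 y) + n.1 ^ 2 * m22 y)
          = qf n (m11 x) (m12 x) (m22 x) - qf n (m11 y) (m12 y) (m22 y) := by
        unfold qf; ring
      show |(-n.2) ^ 2 * m11 x + 2 * (-n.2 * n.1 * m12 x) + n.1 ^ 2 * m22 x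
          - ((-n.2) ^ 2 * m11 y + 2 * (-n.2 * n.1 * m12 y) + n.1 ^ 2 * m22 y)| ≤ _
      rw [e]
      linarith
    · intro x hx
      obtain ⟨e1, e2, e3⟩ := hm x hx
      refine ⟨m11 x, m12 x, m22 x, e1, e2, e3, ?_, ?_, ?_⟩ <;> ring
    · -- non-constancy
      have hzκ : 0 ≤ κ - 2 * (n.1 * z.1 + n.2 * z.2) := by
        have hz1 : Tendsto (fun k => (zk (X k) (Y k) (ρ k)).1) U (𝓝 z.1) :=
          (continuous_fst.tendsto z).comp hz
        have hz2 : Tendsto (fun k => (zk (X k) (Y k) (ρ k)).2) U (𝓝 z.2) :=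
          (continuous_snd.tendsto z).comp hz
        have e := (hκ.sub (((hn1.mul hz1).add (hn2.mul hz2)).const_mul 2)).sub
          (h.ρ_lim.mul ((hz1.pow 2).add (hz2.pow 2)))
        rw [zero_mul, sub_zero] at e
        refine ge_of_tendsto e ?_
        filter_upwards with k
        rw [← mem_disc_iff (h.ρ_pos k), zk_eq (h.ρ_pos k)]
        exact h.Y_mem k
      set p : ℝ × ℝ := (-n.2 * z.1 + n.1 * z.2, κ / 2 - (n.1 * z.1 + n.2 * z.2) + δ) with hp
      set q : ℝ × ℝ := (0, κ / 2 + δ) with hq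
      have hp2 : 0 < p.2 := by simp only [hp]; linarith
      have hq2 : 0 < q.2 := by simp only [hq]; linarith
      have hTp : T p = (z.1 - δ * n.1, z.2 - δ * n.2) := by
        simp only [hT, hp]
        ext
        · simp only [Prod.fst_add, Prod.smul_fst, smul_eq_mul]
          linear_combination (z.1) * hnn
        · simp only [Prod.snd_add, Prod.smul_snd, smul_eq_mul]
          linear_combination (z.2) * hnn
      have hTq : T q = (- (δ * n.1), - (δ * n.2)) := by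
        simp only [hT, hq]
        ext
        · simp only [Prod.fst_add, Prod.smul_fst, smul_eq_mul]; ring
        · simp only [Prod.snd_add, Prod.smul_snd, smul_eq_mul]; ring
      have hδn1 : |δ * n.1| ≤ δ := by
        rw [abs_mul, abs_of_pos hδ]; exact mul_le_of_le_one_right hδ.le n1b
      have hδn2 : |δ * n.2| ≤ δ := by
        rw [abs_mul, abs_of_pos hδ]; exact mul_le_of_le_one_right hδ.le n2b
      have da : dist (T p) z ≤ δ := by
        rw [hTp, Prod.dist_eq, max_le_iff, Real.dist_eq, Real.dist_eq]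
        constructor
        · show |z.1 - δ * n.1 - z.1| ≤ δ
          rw [sub_sub_cancel_left, abs_neg]; exact hδn1
        · show |z.2 - δ * n.2 - z.2| ≤ δ
          rw [sub_sub_cancel_left, abs_neg]; exact hδn2
      have db : dist (T q) 0 ≤ δ := by
        rw [hTq, Prod.dist_eq, max_le_iff, Real.dist_eq, Real.dist_eq]
        constructor
        · show |-(δ * n.1) - 0| ≤ δ
          rw [sub_zero, abs_neg]; exact hδn1
        · show |-(δ * n.2) - 0| ≤ δ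
          rw [sub_zero, abs_neg]; exact hδn2
      refine ⟨p, hp2, q, hq2, ?_⟩
      rintro ⟨f1, f2, f3⟩
      -- invert the rotation
      set A := m11 p - m11 q with hA
      set B' := m12 p - m12 q with hB'
      set C' := m22 p - m22 q with hC'
      have F1 : n.2 ^ 2 * A - 2 * (n.1 * n.2 * B') + n.1 ^ 2 * C' = 0 := by
        rw [hA, hB', hC']; linear_combination f1
      have F2 : n.1 * n.2 * A + (n.2 ^ 2 - n.1 ^ 2) * B' - n.1 * n.2 * C' = 0 := by
        rw [hA, hB', hC']; linear_combination f2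
      have F3 : n.1 ^ 2 * A + 2 * (n.1 * n.2 * B') + n.2 ^ 2 * C' = 0 := by
        rw [hA, hB', hC']; linear_combination f3
      have gA : A = 0 := by
        have : (n.1 ^ 2 + n.2 ^ 2) ^ 2 * A = 0 := by
          linear_combination n.2 ^ 2 * F1 + 2 * n.1 * n.2 * F2 + n.1 ^ 2 * F3
        rwa [hnn, one_pow, one_mul] at this
      have gC : C' = 0 := by
        have : (n.1 ^ 2 + n.2 ^ 2) ^ 2 * C' = 0 := by
          linear_combination n.1 ^ 2 * F1 - 2 * n.1 * n.2 * F2 + n.2 ^ 2 * F3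
        rwa [hnn, one_pow, one_mul] at this
      have gB : B' = 0 := by
        have : (n.1 ^ 2 + n.2 ^ 2) ^ 2 * B' = 0 := by
          linear_combination -(n.1 * n.2) * F1 + (n.2 ^ 2 - n.1 ^ 2) * F2 + n.1 * n.2 * F3
        rwa [hnn, one_pow, one_mul] at this
      obtain ⟨a1, a2, a3⟩ := hm p hp2
      obtain ⟨b1, b2, b3⟩ := hm q hq2
      rw [show m11 q = m11 p by linarith] at b1
      rw [show m12 q = m12 p by linarith] at b2
      rw [show m22 q = m22 p by linarith] at b3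
      exact nonconst h hz hδ hδα da db (hmemT p hp2) (hmemT q hq2) a1 a2 a3 b1 b2 b3

end Pool.Agent.Lib44.BU
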