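import Pool.Agent.Lib_helper44.AQ.Basic

/-! Estimates at a fixed level of the blow-up. -/

namespace Pool.Agent.Lib44.BU

open AP AQ Set Filter Topology

lemma dist_resc (X x y : ℝ × ℝ) {ρ : ℝ} (hρ : 0 < ρ) :
    dist (X + ρ • x) (X + ρ • y) = ρ * dist x y := by
  rw [dist_add_left, dist_smul₀, Real.norm_eq_abs, abs_of_pos hρ]

lemma rs_hol {f : ℝ × ℝ → ℝ} {α S ρ : ℝ} {X x y : ℝ × ℝ} (hS : 0 < S) (hρ : 0 < ρ)
    (hf : Hol α S f) (hx : X + ρ • x ∈ Disc) (hy : X + ρ • y ∈ Disc) :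
    |rs f X ρ (S * ρ ^ α) x - rs f X ρ (S * ρ ^ α) y| ≤ dist x y ^ α := by
  have hT : 0 < S * ρ ^ α := mul_pos hS (Real.rpow_pos_of_pos hρ α)
  have h1 := hf _ hx _ hy
  rw [dist_resc X x y hρ, Real.mul_rpow hρ.le dist_nonneg] at h1
  have h2 : rs f X ρ (S * ρ ^ α) x - rs f X ρ (S * ρ ^ α) y
      = (f (X + ρ • x) - f (X + ρ • y)) / (S * ρ ^ α) := by
    unfold rs; ring
  rw [h2, abs_div, abs_of_pos hT, div_le_iff₀ hT]
  linarith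

lemma rs_bd {f : ℝ × ℝ → ℝ} {α S ρ : ℝ} {X x : ℝ × ℝ} (hS : 0 < S) (hρ : 0 < ρ)
    (hf : Hol α S f) (hX : X ∈ Disc) (hx : X + ρ • x ∈ Disc) :
    |rs f X ρ (S * ρ ^ α) x| ≤ dist x 0 ^ α := by
  have h0 : X + ρ • (0 : ℝ × ℝ) ∈ Disc := by simpa using hX
  have := rs_hol hS hρ hf hx h0
  have h1 : rs f X ρ (S * ρ ^ α) 0 = 0 := by unfold rs; simp
  rwa [h1, sub_zero] at this

/-- rescaled first derivative -/
noncomputable def Gk (g a b : ℝ × ℝ → ℝ) (X : ℝ × ℝ) (ρ T : ℝ) (x : ℝ × ℝ) : ℝ :=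
  (g (X + ρ • x) - g X - ρ * (a X * x.1 + b X * x.2)) / (T * ρ)

lemma seg_mem {X x y : ℝ × ℝ} {ρ : ℝ} (hx : X + ρ • x ∈ Disc) (hy : X + ρ • y ∈ Disc)
    {t : ℝ} (ht : t ∈ Icc (0 : ℝ) 1) :
    (X + ρ • x) + t • ((X + ρ • y) - (X + ρ • x)) ∈ Disc := by
  have := disc_convex hx hy (a := 1 - t) (b := t) (by linarith [ht.2]) ht.1 (by ring)
  have e : (1 - t) • (X + ρ • x) + t • (X + ρ • y)
      = (X + ρ • x) + t • ((X + ρ • y) - (X + ρ • x)) := by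
    rw [sub_smul, one_smul, smul_sub]; abel
  rwa [e] at this

lemma dist_seg_le {p q : ℝ × ℝ} {t : ℝ} (ht : t ∈ Icc (0 : ℝ) 1) :
    dist (p + t • (q - p)) p ≤ dist p q := by
  rw [dist_comm p q, dist_eq_norm, dist_eq_norm]
  rw [add_sub_cancel_left, norm_smul, Real.norm_eq_abs, abs_of_nonneg ht.1]
  exact mul_le_of_le_one_left (norm_nonneg _) ht.2

lemma Gk_taylor {g a b : ℝ × ℝ → ℝ} (hg : ContDiff ℝ 1 g) (ha : D1 g = a) (hb : D2 g = b)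
    {α S ρ : ℝ} (hα : 0 < α) {X x y : ℝ × ℝ} (hS : 0 < S) (hρ : 0 < ρ)
    (h1 : Hol α S a) (h2 : Hol α S b) (hx : X + ρ • x ∈ Disc) (hy : X + ρ • y ∈ Disc) :
    |Gk g a b X ρ (S * ρ ^ α) y - Gk g a b X ρ (S * ρ ^ α) x
      - (rs a X ρ (S * ρ ^ α) x * (y.1 - x.1) + rs b X ρ (S * ρ ^ α) x * (y.2 - x.2))|
      ≤ 2 * dist x y ^ (1 + α) := by
  have hT : 0 < S * ρ ^ α := mul_pos hS (Real.rpow_pos_of_pos hρ α)
  have hTρ : 0 < S * ρ ^ α * ρ := mul_pos hT hρ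
  set p := X + ρ • x with hp
  set q := X + ρ • y with hq
  have hbd : ∀ c : ℝ × ℝ → ℝ, Hol α S c → ∀ t ∈ Icc (0 : ℝ) 1,
      |c (p + t • (q - p)) - c p| ≤ S * dist p q ^ α := by
    intro c hc t ht
    refine (hc _ (seg_mem hx hy ht) _ hx).trans ?_
    exact mul_le_mul_of_nonneg_left
      (Real.rpow_le_rpow dist_nonneg (dist_seg_le ht) hα.le) hS.le
  have h3 := taylor1 (f := g) hg (p := p) (q := q) (a := a p) (b := b p) (E := S * dist p q ^ α)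
    (fun t ht => by rw [ha]; exact hbd a h1 t ht) (fun t ht => by rw [hb]; exact hbd b h2 t ht)
  have e1 : q.1 - p.1 = ρ * (y.1 - x.1) := by simp [hp, hq]; ring
  have e2 : q.2 - p.2 = ρ * (y.2 - x.2) := by simp [hp, hq]; ring
  have e3 : dist p q = ρ * dist x y := dist_resc X x y hρ
  rw [e1, e2, e3, Real.mul_rpow hρ.le dist_nonneg] at h3
  have e4 : Gk g a b X ρ (S * ρ ^ α) y - Gk g a b X ρ (S * ρ ^ α) x
      - (rs a X ρ (S * ρ ^ α) x * (y.1 - x.1) + rs b X ρ (S * ρ ^ α) x * (y.2 - x.2))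
      = (g q - g p - (a p * (ρ * (y.1 - x.1)) + b p * (ρ * (y.2 - x.2)))) / (S * ρ ^ α * ρ) := by
    unfold Gk rs
    rw [← hp, ← hq]
    field_simp
    ring
  rw [e4, abs_div, abs_of_pos hTρ, div_le_iff₀ hTρ]
  have e5 : dist x y ^ (1 + α) = dist x y * dist x y ^ α := by
    rcases eq_or_lt_of_le (dist_nonneg (x := x) (y := y)) with h | h
    · rw [← h, Real.zero_rpow (by linarith), zero_mul]
    · rw [Real.rpow_add h, Real.rpow_one]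
  rw [e5]
  calc _ ≤ _ := h3
    _ = _ := by ring

lemma Gk_bd {g a b : ℝ × ℝ → ℝ} (hg : ContDiff ℝ 1 g) (ha : D1 g = a) (hb : D2 g = b)
    {α S ρ : ℝ} (hα : 0 < α) {X x : ℝ × ℝ} (hS : 0 < S) (hρ : 0 < ρ)
    (h1 : Hol α S a) (h2 : Hol α S b) (hX : X ∈ Disc) (hx : X + ρ • x ∈ Disc) :
    |Gk g a b X ρ (S * ρ ^ α) x| ≤ 2 * dist x 0 ^ (1 + α) := by
  have h0 : X + ρ • (0 : ℝ × ℝ) ∈ Disc := by simpa using hX
  have := Gk_taylor hg ha hb hα hS hρ h1 h2 h0 hx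
  have e1 : rs a X ρ (S * ρ ^ α) 0 = 0 := by unfold rs; simp
  have e2 : rs b X ρ (S * ρ ^ α) 0 = 0 := by unfold rs; simp
  have e3 : Gk g a b X ρ (S * ρ ^ α) 0 = 0 := by unfold Gk; simp
  rw [e1, e2, e3, zero_mul, zero_mul, add_zero, sub_zero, sub_zero, dist_comm] at this
  exact this

end Pool.Agent.Lib44.BU
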