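import Pool.Agent.Lib_helper44.AQ.Level

/-! Limits of the rescaled functions. -/

namespace Pool.Agent.Lib44.BU

open AP AQ Set Filter Topology

lemma dist_T_le {c τ ν : ℝ × ℝ} (h1 : |τ.1| ≤ 1) (h2 : |τ.2| ≤ 1) (h3 : |ν.1| ≤ 1)
    (h4 : |ν.2| ≤ 1) (x y : ℝ × ℝ) :
    dist (c + x.1 • τ + x.2 • ν) (c + y.1 • τ + y.2 • ν) ≤ 2 * dist x y := by
  have e1 := abs_fst_sub_le y x
  have e2 := abs_snd_sub_le y x
  rw [dist_comm y x] at e1 e2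
  rw [Prod.dist_eq (x := c + x.1 • τ + x.2 • ν), max_le_iff, Real.dist_eq, Real.dist_eq]
  simp only [Prod.fst_add, Prod.snd_add, Prod.smul_fst, Prod.smul_snd, smul_eq_mul]
  constructor
  · have : c.1 + x.1 * τ.1 + x.2 * ν.1 - (c.1 + y.1 * τ.1 + y.2 * ν.1)
        = (x.1 - y.1) * τ.1 + (x.2 - y.2) * ν.1 := by ring
    rw [this]
    refine (abs_add_le _ _).trans ?_
    rw [abs_mul, abs_mul]
    have m1 := mul_le_mul e1 h1 (abs_nonneg _) dist_nonneg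
    have m2 := mul_le_mul e2 h3 (abs_nonneg _) dist_nonneg
    linarith
  · have : c.2 + x.1 * τ.2 + x.2 * ν.2 - (c.2 + y.1 * τ.2 + y.2 * ν.2)
        = (x.1 - y.1) * τ.2 + (x.2 - y.2) * ν.2 := by ring
    rw [this]
    refine (abs_add_le _ _).trans ?_
    rw [abs_mul, abs_mul]
    have m1 := mul_le_mul e1 h2 (abs_nonneg _) dist_nonneg
    have m2 := mul_le_mul e2 h4 (abs_nonneg _) dist_nonneg
    linarith

lemma pow_alpha_le {α d d' : ℝ} (hα0 : 0 < α) (hα1 : α < 1) (hd : 0 ≤ d') (h : d' ≤ 2 * d) :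
    d' ^ α ≤ 2 * d ^ α := by
  have hd0 : 0 ≤ d := by linarith
  refine (Real.rpow_le_rpow hd h hα0.le).trans ?_
  rw [Real.mul_rpow (by norm_num) hd0]
  refine mul_le_mul_of_nonneg_right ?_ (Real.rpow_nonneg hd0 _)
  calc (2 : ℝ) ^ α ≤ 2 ^ (1 : ℝ) := Real.rpow_le_rpow_of_exponent_le (by norm_num) hα1.le
    _ = 2 := by norm_num

lemma pow_one_alpha_le {α d d' : ℝ} (hα0 : 0 < α) (hα1 : α < 1) (hd : 0 ≤ d') (h : d' ≤ 2 * d) :
    d' ^ (1 + α) ≤ 4 * d ^ (1 + α) := by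
  have hd0 : 0 ≤ d := by linarith
  refine (Real.rpow_le_rpow hd h (by linarith)).trans ?_
  rw [Real.mul_rpow (by norm_num) hd0]
  refine mul_le_mul_of_nonneg_right ?_ (Real.rpow_nonneg hd0 _)
  calc (2 : ℝ) ^ (1 + α) ≤ 2 ^ (2 : ℝ) := Real.rpow_le_rpow_of_exponent_le (by norm_num) (by linarith)
    _ = 4 := by norm_num

section lim

variable {U : Ultrafilter ℕ} {α : ℝ} {u : ℕ → ℝ × ℝ → ℝ} {S ρ N : ℕ → ℝ} {X Y : ℕ → ℝ × ℝ}

/-- limits of the second derivatives at one point -/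
lemma exists_lim_rs (h : BU U α u S ρ N X Y) {f : ℕ → ℝ × ℝ → ℝ} (hf : ∀ k, Hol α (S k) (f k))
    {z : ℝ × ℝ} (hz : ∀ᶠ k in U, X k + ρ k • z ∈ Disc) :
    ∃ m, Tendsto (fun k => rs (f k) (X k) (ρ k) (S k * ρ k ^ α) z) U (𝓝 m) := by
  refine exists_ulim (B := dist z 0 ^ α) ?_
  filter_upwards [hz] with k hk
  exact rs_bd (h.Spos k) (h.ρ_pos k) (hf k) (h.X_mem k) hk

lemma exists_lim_Gk (h : BU U α u S ρ N X Y) {g a b : ℕ → ℝ × ℝ → ℝ}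
    (hg : ∀ k, ContDiff ℝ 1 (g k)) (ha : ∀ k, D1 (g k) = a k) (hb : ∀ k, D2 (g k) = b k)
    (h1 : ∀ k, Hol α (S k) (a k)) (h2 : ∀ k, Hol α (S k) (b k))
    {z : ℝ × ℝ} (hz : ∀ᶠ k in U, X k + ρ k • z ∈ Disc) :
    ∃ m, Tendsto (fun k => Gk (g k) (a k) (b k) (X k) (ρ k) (S k * ρ k ^ α) z) U (𝓝 m) := by
  refine exists_ulim (B := 2 * dist z 0 ^ (1 + α)) ?_
  filter_upwards [hz] with k hk
  exact Gk_bd (hg k) (ha k) (hb k) h.α0 (h.Spos k) (h.ρ_pos k) (h1 k) (h2 k) (h.X_mem k) hk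

lemma bu_cd1 (h : BU U α u S ρ N X Y) (k : ℕ) : ContDiff ℝ 1 (D1 (u k)) :=
  cd_D1 (n := 1) (by simpa using h.cd k)

lemma bu_cd2 (h : BU U α u S ρ N X Y) (k : ℕ) : ContDiff ℝ 1 (D2 (u k)) :=
  cd_D2 (n := 1) (by simpa using h.cd k)

/-- the limit object for an affine change of coordinates -/
lemma limit_LO (h : BU U α u S ρ N X Y) {c τ ν : ℝ × ℝ} (h1 : |τ.1| ≤ 1) (h2 : |τ.2| ≤ 1)
    (h3 : |ν.1| ≤ 1) (h4 : |ν.2| ≤ 1) {H : Set (ℝ × ℝ)} {T : ℝ × ℝ → ℝ × ℝ}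
    (hT : ∀ x, T x = c + x.1 • τ + x.2 • ν)
    (hH : ∀ x ∈ H, ∀ᶠ k in U, X k + ρ k • T x ∈ Disc) :
    ∃ Γ1 Γ2 m11 m12 m22 : ℝ × ℝ → ℝ,
      (∀ x ∈ H, Tendsto (fun k => rs (D1 (D1 (u k))) (X k) (ρ k) (S k * ρ k ^ α) (T x)) U (𝓝 (m11 x)) ∧
        Tendsto (fun k => rs (D1 (D2 (u k))) (X k) (ρ k) (S k * ρ k ^ α) (T x)) U (𝓝 (m12 x)) ∧
        Tendsto (fun k => rs (D2 (D2 (u k))) (X k) (ρ k) (S k * ρ k ^ α) (T x)) U (𝓝 (m22 x))) ∧
      LO H α 16 (fun x => τ.1 * Γ1 x + τ.2 * Γ2 x) (fun x => ν.1 * Γ1 x + ν.2 * Γ2 x)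
        (fun x => τ.1 ^ 2 * m11 x + 2 * (τ.1 * τ.2 * m12 x) + τ.2 ^ 2 * m22 x)
        (fun x => τ.1 * ν.1 * m11 x + (τ.1 * ν.2 + τ.2 * ν.1) * m12 x + τ.2 * ν.2 * m22 x)
        (fun x => ν.1 ^ 2 * m11 x + 2 * (ν.1 * ν.2 * m12 x) + ν.2 ^ 2 * m22 x) := by
  have hcomm : ∀ k, D2 (D1 (u k)) = D1 (D2 (u k)) := fun k => D12_comm_fun (h.cd k)
  have q11 : ∀ x, ∃ m, x ∈ H →
      Tendsto (fun k => rs (D1 (D1 (u k))) (X k) (ρ k) (S k * ρ k ^ α) (T x)) U (𝓝 m) := by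
    intro x
    by_cases hx : x ∈ H
    · obtain ⟨m, hm⟩ := exists_lim_rs h h.hol11 (hH x hx)
      exact ⟨m, fun _ => hm⟩
    · exact ⟨0, fun hx' => absurd hx' hx⟩
  have q12 : ∀ x, ∃ m, x ∈ H →
      Tendsto (fun k => rs (D1 (D2 (u k))) (X k) (ρ k) (S k * ρ k ^ α) (T x)) U (𝓝 m) := by
    intro x
    by_cases hx : x ∈ H
    · obtain ⟨m, hm⟩ := exists_lim_rs h h.hol12 (hH x hx)
      exact ⟨m, fun _ => hm⟩
    · exact ⟨0, fun hx' => absurd hx' hx⟩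
  have q22 : ∀ x, ∃ m, x ∈ H →
      Tendsto (fun k => rs (D2 (D2 (u k))) (X k) (ρ k) (S k * ρ k ^ α) (T x)) U (𝓝 m) := by
    intro x
    by_cases hx : x ∈ H
    · obtain ⟨m, hm⟩ := exists_lim_rs h h.hol22 (hH x hx)
      exact ⟨m, fun _ => hm⟩
    · exact ⟨0, fun hx' => absurd hx' hx⟩
  have qG1 : ∀ x, ∃ m, x ∈ H →
      Tendsto (fun k => Gk (D1 (u k)) (D1 (D1 (u k))) (D1 (D2 (u k))) (X k) (ρ k)
        (S k * ρ k ^ α) (T x)) U (𝓝 m) := by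
    intro x
    by_cases hx : x ∈ H
    · obtain ⟨m, hm⟩ := exists_lim_Gk h (bu_cd1 h) (fun k => rfl) hcomm h.hol11 h.hol12 (hH x hx)
      exact ⟨m, fun _ => hm⟩
    · exact ⟨0, fun hx' => absurd hx' hx⟩
  have qG2 : ∀ x, ∃ m, x ∈ H →
      Tendsto (fun k => Gk (D2 (u k)) (D1 (D2 (u k))) (D2 (D2 (u k))) (X k) (ρ k)
        (S k * ρ k ^ α) (T x)) U (𝓝 m) := by
    intro x
    by_cases hx : x ∈ H
    · obtain ⟨m, hm⟩ := exists_lim_Gk h (bu_cd2 h) (fun k => rfl) (fun k => rfl) h.hol12 h.hol22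
        (hH x hx)
      exact ⟨m, fun _ => hm⟩
    · exact ⟨0, fun hx' => absurd hx' hx⟩
  choose m11 hm11 using q11
  choose m12 hm12 using q12
  choose m22 hm22 using q22
  choose Γ1 hΓ1 using qG1
  choose Γ2 hΓ2 using qG2
  have hdist : ∀ x y, dist (T x) (T y) ≤ 2 * dist x y := by
    intro x y; rw [hT, hT]; exact dist_T_le h1 h2 h3 h4 x y
  have hT1 : ∀ x y, (T y).1 - (T x).1 = (y.1 - x.1) * τ.1 + (y.2 - x.2) * ν.1 := by
    intro x y; rw [hT, hT]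
    simp only [Prod.fst_add, Prod.smul_fst, smul_eq_mul]; ring
  have hT2 : ∀ x y, (T y).2 - (T x).2 = (y.1 - x.1) * τ.2 + (y.2 - x.2) * ν.2 := by
    intro x y; rw [hT, hT]
    simp only [Prod.snd_add, Prod.smul_snd, smul_eq_mul]; ring
  -- Hölder bounds for the limits
  have hold : ∀ (f : ℕ → ℝ × ℝ → ℝ) (m : ℝ × ℝ → ℝ), (∀ k, Hol α (S k) (f k)) →
      (∀ x ∈ H, Tendsto (fun k => rs (f k) (X k) (ρ k) (S k * ρ k ^ α) (T x)) U (𝓝 (m x))) →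
      ∀ x ∈ H, ∀ y ∈ H, |m x - m y| ≤ 2 * dist x y ^ α := by
    intro f m hf hm x hx y hy
    have e1 : |m x - m y| ≤ dist (T x) (T y) ^ α := by
      refine le_of_tendsto ((hm x hx).sub (hm y hy)).abs ?_
      filter_upwards [hH x hx, hH y hy] with k k1 k2
      exact rs_hol (h.Spos k) (h.ρ_pos k) (hf k) k1 k2
    exact e1.trans (pow_alpha_le h.α0 h.α1 dist_nonneg (hdist x y))
  have H11 := hold (fun k => D1 (D1 (u k))) m11 h.hol11 hm11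
  have H12 := hold (fun k => D1 (D2 (u k))) m12 h.hol12 hm12
  have H22 := hold (fun k => D2 (D2 (u k))) m22 h.hol22 hm22
  -- Taylor inequalities for the limits
  have tay : ∀ (g a b : ℕ → ℝ × ℝ → ℝ) (Γ ma mb : ℝ × ℝ → ℝ),
      (∀ k, ContDiff ℝ 1 (g k)) → (∀ k, D1 (g k) = a k) → (∀ k, D2 (g k) = b k) →
      (∀ k, Hol α (S k) (a k)) → (∀ k, Hol α (S k) (b k)) →
      (∀ x, x ∈ H → Tendsto (fun k => Gk (g k) (a k) (b k) (X k) (ρ k)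
        (S k * ρ k ^ α) (T x)) U (𝓝 (Γ x))) →
      (∀ x ∈ H, Tendsto (fun k => rs (a k) (X k) (ρ k) (S k * ρ k ^ α) (T x)) U (𝓝 (ma x))) →
      (∀ x ∈ H, Tendsto (fun k => rs (b k) (X k) (ρ k) (S k * ρ k ^ α) (T x)) U (𝓝 (mb x))) →
      ∀ x ∈ H, ∀ y ∈ H, |Γ y - Γ x - (ma x * ((T y).1 - (T x).1) + mb x * ((T y).2 - (T x).2))|
        ≤ 8 * dist x y ^ (1 + α) := by
    intro g a b Γ ma mb hg ha hb h5 h6 hΓ hma hmb x hx y hy
    have e1 : |Γ y - Γ x - (ma x * ((T y).1 - (T x).1) + mb x * ((T y).2 - (T x).2))|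
        ≤ 2 * dist (T x) (T y) ^ (1 + α) := by
      refine le_of_tendsto (((hΓ y hy).sub (hΓ x hx)).sub
        (((hma x hx).mul_const _).add ((hmb x hx).mul_const _))).abs ?_
      filter_upwards [hH x hx, hH y hy] with k k1 k2
      exact Gk_taylor (hg k) (ha k) (hb k) h.α0 (h.Spos k) (h.ρ_pos k) (h5 k) (h6 k) k1 k2
    have e2 := pow_one_alpha_le h.α0 h.α1 dist_nonneg (hdist x y)
    linarith
  have TG1 := tay (fun k => D1 (u k)) (fun k => D1 (D1 (u k))) (fun k => D1 (D2 (u k))) Γ1 m11 m12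
    (bu_cd1 h) (fun k => rfl) hcomm h.hol11 h.hol12 hΓ1 hm11 hm12
  have TG2 := tay (fun k => D2 (u k)) (fun k => D1 (D2 (u k))) (fun k => D2 (D2 (u k))) Γ2 m12 m22
    (bu_cd2 h) (fun k => rfl) (fun k => rfl) h.hol12 h.hol22 hΓ2 hm12 hm22
  refine ⟨Γ1, Γ2, m11, m12, m22, fun x hx => ⟨hm11 x hx, hm12 x hx, hm22 x hx⟩, ?_, ?_, ?_, ?_, ?_⟩
  · intro x hx y hy
    have e1 := TG1 x hx y hy
    have e2 := TG2 x hx y hy
    set A := Γ1 y - Γ1 x - (m11 x * ((T y).1 - (T x).1) + m12 x * ((T y).2 - (T x).2)) with hA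
    set B := Γ2 y - Γ2 x - (m12 x * ((T y).1 - (T x).1) + m22 x * ((T y).2 - (T x).2)) with hB
    have e3 : τ.1 * Γ1 y + τ.2 * Γ2 y - (τ.1 * Γ1 x + τ.2 * Γ2 x)
        - ((τ.1 ^ 2 * m11 x + 2 * (τ.1 * τ.2 * m12 x) + τ.2 ^ 2 * m22 x) * (y.1 - x.1)
          + (τ.1 * ν.1 * m11 x + (τ.1 * ν.2 + τ.2 * ν.1) * m12 x + τ.2 * ν.2 * m22 x) * (y.2 - x.2))
        = τ.1 * A + τ.2 * B := by
      rw [hA, hB, hT1, hT2]; ring
    rw [e3]
    refine (abs_add_le _ _).trans ?_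
    rw [abs_mul, abs_mul]
    have m1 := mul_le_mul h1 e1 (abs_nonneg _) zero_le_one
    have m2 := mul_le_mul h2 e2 (abs_nonneg _) zero_le_one
    linarith
  · intro x hx y hy
    have e1 := TG1 x hx y hy
    have e2 := TG2 x hx y hy
    set A := Γ1 y - Γ1 x - (m11 x * ((T y).1 - (T x).1) + m12 x * ((T y).2 - (T x).2)) with hA
    set B := Γ2 y - Γ2 x - (m12 x * ((T y).1 - (T x).1) + m22 x * ((T y).2 - (T x).2)) with hB
    have e3 : ν.1 * Γ1 y + ν.2 * Γ2 y - (ν.1 * Γ1 x + ν.2 * Γ2 x)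
        - ((τ.1 * ν.1 * m11 x + (τ.1 * ν.2 + τ.2 * ν.1) * m12 x + τ.2 * ν.2 * m22 x) * (y.1 - x.1)
          + (ν.1 ^ 2 * m11 x + 2 * (ν.1 * ν.2 * m12 x) + ν.2 ^ 2 * m22 x) * (y.2 - x.2))
        = ν.1 * A + ν.2 * B := by
      rw [hA, hB, hT1, hT2]; ring
    rw [e3]
    refine (abs_add_le _ _).trans ?_
    rw [abs_mul, abs_mul]
    have m1 := mul_le_mul h3 e1 (abs_nonneg _) zero_le_one
    have m2 := mul_le_mul h4 e2 (abs_nonneg _) zero_le_one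
    linarith
  all_goals
    intro x hx y hy
    have e11 := H11 x hx y hy
    have e12 := H12 x hx y hy
    have e22 := H22 x hx y hy
    have hd : 0 ≤ dist x y ^ α := Real.rpow_nonneg dist_nonneg _
    have key : ∀ p q r : ℝ, |p| ≤ 1 → |q| ≤ 2 → |r| ≤ 1 →
        |p * (m11 x - m11 y) + q * (m12 x - m12 y) + r * (m22 x - m22 y)| ≤ 16 * dist x y ^ α := by
      intro p q r hp hq hr
      refine (abs_add_three _ _ _).trans ?_
      rw [abs_mul, abs_mul, abs_mul]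
      have m1 := mul_le_mul hp e11 (abs_nonneg _) zero_le_one
      have m2 := mul_le_mul hq e12 (abs_nonneg _) zero_le_two
      have m3 := mul_le_mul hr e22 (abs_nonneg _) zero_le_one
      linarith
  · have hp : |τ.1 ^ 2| ≤ 1 := by rw [abs_pow]; exact pow_le_one₀ (abs_nonneg _) h1
    have hr : |τ.2 ^ 2| ≤ 1 := by rw [abs_pow]; exact pow_le_one₀ (abs_nonneg _) h2
    have hq : |2 * (τ.1 * τ.2)| ≤ 2 := by
      rw [abs_mul, abs_mul, abs_two]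
      have := mul_le_one₀ h1 (abs_nonneg _) h2
      linarith
    have := key _ _ _ hp hq hr
    convert this using 2
    ring
  · have hp : |τ.1 * ν.1| ≤ 1 := by rw [abs_mul]; exact mul_le_one₀ h1 (abs_nonneg _) h3
    have hr : |τ.2 * ν.2| ≤ 1 := by rw [abs_mul]; exact mul_le_one₀ h2 (abs_nonneg _) h4
    have hq : |τ.1 * ν.2 + τ.2 * ν.1| ≤ 2 := by
      refine (abs_add_le _ _).trans ?_
      rw [abs_mul, abs_mul]
      have a1 := mul_le_one₀ h1 (abs_nonneg _) h4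
      have a2 := mul_le_one₀ h2 (abs_nonneg _) h3
      linarith
    have := key _ _ _ hp hq hr
    convert this using 2
    ring
  · have hp : |ν.1 ^ 2| ≤ 1 := by rw [abs_pow]; exact pow_le_one₀ (abs_nonneg _) h3
    have hr : |ν.2 ^ 2| ≤ 1 := by rw [abs_pow]; exact pow_le_one₀ (abs_nonneg _) h4
    have hq : |2 * (ν.1 * ν.2)| ≤ 2 := by
      rw [abs_mul, abs_mul, abs_two]
      have := mul_le_one₀ h3 (abs_nonneg _) h4
      linarith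
    have := key _ _ _ hp hq hr
    convert this using 2
    ring

end lim

end Pool.Agent.Lib44.BU
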